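import Pool.Agent.Work.MP_adbfe6_an.SK.TowK

/-!
Towers of compact groups over hyperbolic automorphisms of the torus.
-/

set_option autoImplicit false
set_option linter.unusedSectionVars false
set_option linter.style.haveILetI false

open Filter Topology MeasureTheory
open scoped ENNReal NNReal

namespace Pool.Agent.SKP

section leaves

variable {d : ℕ} {N : Type} [MetricSpace N]

variable [CompactSpace N] {A : HypAut d} (D : Fibres A N)

theorem stLeaf_iff (p q : Tor d × N) :
    StLeaf A D.g p q ↔ ∃ v, q = D.two.s.T v p := by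
  constructor
  · rintro ⟨v, hv, h1, h2⟩
    exact ⟨⟨v, hv⟩, (D.two.s.eq_T_iff ⟨v, hv⟩ p q h1).2 h2⟩
  · rintro ⟨v, rfl⟩
    exact ⟨v.1, v.2, rfl, (D.two.s.eq_T_iff v p _ rfl).1 rfl⟩

theorem unLeaf_iff (p q : Tor d × N) :
    UnLeaf A D.g p q ↔ ∃ v, q = D.two.u.T v p := by
  constructor
  · rintro ⟨v, hv, h1, h2⟩
    exact ⟨⟨v, hv⟩, (D.two.u.eq_T_iff ⟨v, hv⟩ p q h1).2 h2⟩
  · rintro ⟨v, rfl⟩
    exact ⟨v.1, v.2, rfl, (D.two.u.eq_T_iff v p _ rfl).1 rfl⟩

theorem joined_run {p q : Tor d × N} (h : SuJoined A D.g p q) :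
    ∃ l : List (Mv ↥A.Es ↥A.Eu), (∀ a ∈ l, a.leaf) ∧ D.two.run l p = q := by
  induction h with
  | refl => exact ⟨[], fun a ha => by simp at ha, rfl⟩
  | tail _ h2 ih =>
    obtain ⟨l, hl, rfl⟩ := ih
    rcases h2 with h2 | h2
    · obtain ⟨v, rfl⟩ := (stLeaf_iff D _ _).1 h2
      refine ⟨l ++ [Mv.s v], ?_, ?_⟩
      · intro a ha
        rcases List.mem_append.1 ha with h | h
        · exact hl a h
        · rw [List.mem_singleton.1 h]; trivial
      · rw [D.two.run_append]; rfl
    · obtain ⟨v, rfl⟩ := (unLeaf_iff D _ _).1 h2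
      refine ⟨l ++ [Mv.u v], ?_, ?_⟩
      · intro a ha
        rcases List.mem_append.1 ha with h | h
        · exact hl a h
        · rw [List.mem_singleton.1 h]; trivial
      · rw [D.two.run_append]; rfl

theorem essAcc_of [MeasurableSpace N] {ν : Measure N}
    (h : EssAccessible A D.g (volume.prod ν)) : D.two.EssAcc volume ν := by
  intro S S' hS hS' h1 h2
  obtain ⟨p, hp, q, hq, hpq⟩ := h S S' hS hS' h1 h2
  obtain ⟨l, hl, rfl⟩ := joined_run D hpq
  exact ⟨p, hp, l, hl, hq⟩

theorem Ls_surj : Function.Surjective D.two.s.L := by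
  intro v
  refine ⟨⟨matAct A.Mi v.1, ?_⟩, ?_⟩
  · rw [← A.Es_inv, A.MMi]; exact v.2
  · exact Subtype.ext (A.MMi v.1)

end leaves

section levels

variable {d k : ℕ} {N : Fin k → Type} [∀ i, Group (N i)] [∀ i, MetricSpace (N i)]

variable [∀ i, CompactSpace (N i)] [∀ i, IsIsometricSMul (N i) (N i)]
  [∀ i, IsIsometricSMul (N i)ᵐᵒᵖ (N i)] {A : HypAut d} (D : Fibres A (∀ i, N i))
  (Lv : Levels A D.g)

theorem sG (n : ℕ) (x : Tor d) (z : ∀ i, N i) :
    D.sideS.G n x z = ((skew A.M D.g)^[n] (x, z)).2 :=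
  (congrArg Prod.snd (D.sideS.F_iter n x z)).symm

theorem sGi (n : ℕ) (x : Tor d) : D.sideS.G n x = Gi (matAct A.M) D.g n x := by
  unfold Side.G; rfl

theorem uGi (n : ℕ) (x : Tor d) : D.sideU.G n x = Gi (matAct A.Mi) D.gi n x := by
  unfold Side.G; rfl

theorem uG (n : ℕ) (x : Tor d) : D.sideU.G n x = (D.sideS.G n ((matAct A.Mi)^[n] x)).symm := by
  refine Homeomorph.ext (fun z => ?_)
  rw [eq_comm, Homeomorph.symm_apply_eq, sGi, ← D.Gi_inv, ← uGi, Homeomorph.symm_apply_apply]

include Lv

theorem levS : LevHyp D.sideS Lv.q Lv.K Lv.α Lv.β where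
  q_nonneg := Lv.q_nonneg
  Kl_nonneg := Lv.K_nonneg
  α_nonneg := Lv.α_nonneg
  β_nonneg := Lv.β_nonneg
  low := by
    intro i n x w z h
    rw [sG, sG]
    exact Lv.low i n x w z h
  up := by
    intro i n x w z h
    rw [sG, sG]
    exact Lv.up i n x w z h
  sd := Lv.sd
  dom := Lv.dom_s
  bunch := fun i => (Lv.bunch i).imp id (fun h => h.1)

theorem levU : LevHyp D.sideU Lv.q
    (fun i => (Lv.q * Lv.α i) * Lv.K i * (Lv.q * Lv.α i) *
      (mNorm A.Mi + D.sideS.k1 + D.sideU.K)) Lv.β Lv.α := by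
  have HS := levS D Lv
  have hk1 := D.sideS.k1_nonneg
  have hKu := D.sideU.K_nonneg
  have hm := mNorm_nonneg A.Mi
  have hq := Lv.q_nonneg
  refine ⟨Lv.q_nonneg, ?_, Lv.β_nonneg, Lv.α_nonneg, ?_, ?_, ?_, Lv.dom_u, ?_⟩
  · intro i
    have h1 := Lv.α_nonneg i
    have h2 := Lv.K_nonneg i
    positivity
  · intro i n x w z h
    rw [uG]
    set x₀ := (matAct A.Mi)^[n] x
    have h1 := HS.up i n x₀ ((D.sideS.G n x₀).symm w) ((D.sideS.G n x₀).symm z)
      (HS.Gs_tri i n x₀ h)
    rw [Homeomorph.apply_symm_apply, Homeomorph.apply_symm_apply] at h1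
    exact h1
  · intro i n x w z h
    rw [uG]
    set x₀ := (matAct A.Mi)^[n] x
    have h1 := HS.low i n x₀ ((D.sideS.G n x₀).symm w) ((D.sideS.G n x₀).symm z)
      (HS.Gs_tri i n x₀ h)
    rw [Homeomorph.apply_symm_apply, Homeomorph.apply_symm_apply] at h1
    exact h1
  · intro i x x' y y' t t' hyy htt hst
    show dist (((D.g (matAct A.Mi x)).symm y i)⁻¹ * (D.g (matAct A.Mi x)).symm y' i)
      (((D.g (matAct A.Mi x')).symm t i)⁻¹ * (D.g (matAct A.Mi x')).symm t' i) ≤ _
    set x1 := matAct A.Mi x with hx1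
    set x1' := matAct A.Mi x' with hx1'
    set z := (D.g x1).symm y with hz
    set z' := (D.g x1).symm y' with hz'
    set w := (D.g x1').symm t with hw
    set w' := (D.g x1').symm t' with hw'
    have ez : D.g x1 z = y := Homeomorph.apply_symm_apply _ _
    have ez' : D.g x1 z' = y' := Homeomorph.apply_symm_apply _ _
    have ew : D.g x1' w = t := Homeomorph.apply_symm_apply _ _
    have ew' : D.g x1' w' = t' := Homeomorph.apply_symm_apply _ _
    have hG1 : ∀ (b : Tor d) (y : ∀ i, N i), D.sideS.G 1 b y = D.g b y := by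
      intro b y
      rw [D.sideS.G_succ, D.sideS.G_zero]
      rfl
    have hzz : Agree i z' z := by
      apply HS.G_tri' i 1 x1
      rw [hG1, hG1, ez, ez']
      exact hyy
    have hww : Agree i w' w := by
      apply HS.G_tri' i 1 x1'
      rw [hG1, hG1, ew, ew']
      exact htt
    set wb := Function.update w i (w i * ((z i)⁻¹ * z' i)) with hwb
    have hwbi : wb i = w i * ((z i)⁻¹ * z' i) := Function.update_self ..
    have hwbA : Agree i wb w := fun j hj => Function.update_of_ne (ne_of_lt hj) ..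
    have h1 := Lv.sd i x1 x1' z z' w wb hzz hwbA (by rw [hwbi, inv_mul_cancel_left])
    rw [ez, ez', ew, ← hst, dist_mul_left] at h1
    have h2 := HS.low i 1 x1' w' wb (fun j hj => by rw [hww j hj, hwbA j hj])
    rw [hG1, hG1, ew', pow_one] at h2
    have h3 := HS.low i 1 x1 z' z hzz
    rw [hG1, hG1, ez, ez', pow_one] at h3
    have e1 : dist ((z i)⁻¹ * z' i) ((w i)⁻¹ * w' i) = dist (w' i) (wb i) := by
      rw [hwbi, ← dist_mul_left (w i), mul_inv_cancel_left, dist_comm]
    rw [e1]
    have h4 : dist x1 x1' ≤ mNorm A.Mi * dist x x' := by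
      rw [dist_eq_norm, dist_eq_norm]
      have h5 : x1 - x1' = matAct A.Mi (x - x') := ((matHom A.Mi).map_sub x x').symm
      rw [h5]
      exact norm_matAct_le _ _
    have h6 : dist z w ≤ D.sideS.k1 * dist y t + D.sideU.K * dist x x' := by
      calc dist z w ≤ dist z ((D.g x1).symm t) + dist ((D.g x1).symm t) w :=
            dist_triangle _ _ _
        _ ≤ D.sideS.k1 * dist y t + D.sideU.K * dist x x' := by
            refine add_le_add (D.sideS.g_symm x1 y t) ?_
            have := D.sideU.g_base x x' t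
            rw [← dist_eq_norm] at this
            exact this
    have hK := Lv.K_nonneg i
    have hα := Lv.α_nonneg i
    calc dist (w' i) (wb i) ≤ Lv.q * Lv.α i * dist (t' i) (D.g x1' wb i) := h2
      _ ≤ Lv.q * Lv.α i * (Lv.K i * (dist x1 x1' + dist z w) * dist (z i) (z' i)) :=
          mul_le_mul_of_nonneg_left h1 (by positivity)
      _ ≤ Lv.q * Lv.α i * (Lv.K i * ((mNorm A.Mi + D.sideS.k1 + D.sideU.K) *
            (dist x x' + dist y t)) * (Lv.q * Lv.α i * dist (y i) (y' i))) := by
          refine mul_le_mul_of_nonneg_left ?_ (by positivity)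
          refine mul_le_mul ?_ ?_ dist_nonneg (by positivity)
          · refine mul_le_mul_of_nonneg_left ?_ hK
            calc dist x1 x1' + dist z w
                ≤ mNorm A.Mi * dist x x' + (D.sideS.k1 * dist y t + D.sideU.K * dist x x') :=
                  add_le_add h4 h6
              _ ≤ (mNorm A.Mi + D.sideS.k1 + D.sideU.K) * (dist x x' + dist y t) := by
                  have a1 := dist_nonneg (x := x) (y := x')
                  have a2 := dist_nonneg (x := y) (y := t)
                  nlinarith [mul_nonneg hm a2, mul_nonneg hk1 a1, mul_nonneg hKu a2]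
          · rw [dist_comm (z i), dist_comm (y i)]
            exact h3
      _ = _ := by ring
  · intro i
    rcases Lv.bunch i with h | h
    · left
      rw [h]; ring
    · right
      rw [mul_comm (Lv.β i)]
      exact h.2

end levels

section main

variable {d k : ℕ} {N : Fin k → Type} [∀ i, Group (N i)] [∀ i, MetricSpace (N i)]
  [∀ i, CompactSpace (N i)] [∀ i, IsIsometricSMul (N i) (N i)]
  [∀ i, IsIsometricSMul (N i)ᵐᵒᵖ (N i)] [∀ i, MeasurableSpace (N i)] [∀ i, BorelSpace (N i)]
  (ν : ∀ i, Measure (N i)) [∀ i, IsProbabilityMeasure (ν i)]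

theorem UnifDoubling.openPos {N : Type} [MetricSpace N] [CompactSpace N] [MeasurableSpace N]
    [BorelSpace N] {ν : Measure N} [IsProbabilityMeasure ν] (h : UnifDoubling ν) :
    ν.IsOpenPosMeasure := by
  obtain ⟨C, hC⟩ := h
  have key : ∀ (y : N) (r : ℝ), 0 < r → ν (Metric.closedBall y r) ≠ 0 := by
    intro y r hr h0
    have h1 : ∀ x, ν (Metric.closedBall x (2 * r)) = 0 := by
      intro x
      have := hC x y r hr
      rw [h0, mul_zero] at this
      exact le_antisymm this zero_le
    obtain ⟨t, ht⟩ := isCompact_univ.elim_finite_subcover (fun x : N => Metric.ball x (2 * r))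
      (fun x => Metric.isOpen_ball) (fun x _ => Set.mem_iUnion.2 ⟨x, Metric.mem_ball_self
        (by positivity)⟩)
    have h2 : ν Set.univ = 0 := by
      refine measure_mono_null ht ?_
      exact (measure_biUnion_null_iff (μ := ν) (s := fun x => Metric.ball x (2 * r))
        t.countable_toSet).2
        (fun x _ => measure_mono_null Metric.ball_subset_closedBall (h1 x))
    rw [measure_univ] at h2
    exact one_ne_zero h2
  refine ⟨fun U hU hne h0 => ?_⟩
  obtain ⟨y, hy⟩ := hne
  obtain ⟨r, hr, hrU⟩ := Metric.isOpen_iff.1 hU y hy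
  refine key y (r / 2) (by positivity) (measure_mono_null ?_ h0)
  exact (Metric.closedBall_subset_ball (by linarith)).trans hrU

theorem towers_main (hν : ∀ i, UnifDoubling (ν i)) (A : HypAut d) (D : Fibres A (∀ i, N i))
    (Lv : Levels A D.g) (hg : ∀ x, MeasurePreserving (D.g x) (Measure.pi ν) (Measure.pi ν))
    (hacc : EssAccessible A D.g (volume.prod (Measure.pi ν))) :
    Ergodic (skew A.M D.g) (volume.prod (Measure.pi ν)) ∧
      Mix (skew A.M D.g) (volume.prod (Measure.pi ν)) := by
  haveI : ∀ i, (ν i).IsOpenPosMeasure := fun i => (hν i).openPos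
  have hAmp : MeasurePreserving (matAct A.M : Tor d → Tor d) volume volume := matAct_mp A.mul_inv
  have hmix : Mix (skew A.M D.g) (volume.prod (Measure.pi ν)) :=
    D.two.mix_of_levels ν hν hg hAmp (Ls_surj D) (essAcc_of D hacc)
      (fun v x => (levS D Lv).S_low v x) (fun w x => (levU D Lv).S_low w x)
  exact ⟨ergodic_of_mix (D.two.s.F_mp hg hAmp) hmix, hmix⟩

end main

end Pool.Agent.SKP
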