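import Mathlib

/-!
# Partially hyperbolic skew products over hyperbolic automorphisms of the torus: definitions
-/

set_option autoImplicit false

open Filter Topology MeasureTheory
open scoped ENNReal NNReal

namespace Pool.Agent.SKP

/-! ### Hyperbolic automorphisms of the torus -/

/-- An integer matrix `M` acts on `G^d`: `(M x)_i = ∑_j M_ij x_j`. -/
def matAct {G : Type} [AddCommGroup G] {d : ℕ} (M : Matrix (Fin d) (Fin d) ℤ) (x : Fin d → G) :
    Fin d → G := fun i => ∑ j, M i j • x j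

/-- the torus `(ℝ/ℤ)^d` -/
abbrev Tor (d : ℕ) : Type := Fin d → UnitAddCircle

/-- the projection `ℝ^d → (ℝ/ℤ)^d` -/
def proj {d : ℕ} (v : Fin d → ℝ) : Tor d := fun i => (v i : UnitAddCircle)

/-- A **hyperbolic automorphism of the torus** `(ℝ/ℤ)^d`, given by an integer matrix `M` with
inverse `Mi`, with its invariant splitting `ℝ^d = Es + Eu` and with rates: `M^n` contracts `Es` at
the rate `a^n`, and `M^{-n}` contracts `Eu` at the rate `b^n`. -/
structure HypAut (d : ℕ) where
  M : Matrix (Fin d) (Fin d) ℤ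
  Mi : Matrix (Fin d) (Fin d) ℤ
  mul_inv : M * Mi = 1
  Es : Submodule ℝ (Fin d → ℝ)
  Eu : Submodule ℝ (Fin d → ℝ)
  sup : Es ⊔ Eu = ⊤
  Es_inv : ∀ v, matAct M v ∈ Es ↔ v ∈ Es
  Eu_inv : ∀ v, matAct M v ∈ Eu ↔ v ∈ Eu
  c : ℝ
  a : ℝ
  b : ℝ
  a_nonneg : 0 ≤ a
  a_lt : a < 1
  b_nonneg : 0 ≤ b
  b_lt : b < 1
  contr_s : ∀ (n : ℕ), ∀ v ∈ Es, ‖(matAct M)^[n] v‖ ≤ c * a ^ n * ‖v‖
  contr_u : ∀ (n : ℕ), ∀ v ∈ Eu, ‖(matAct Mi)^[n] v‖ ≤ c * b ^ n * ‖v‖

/-! ### Skew products -/

/-- The skew product `(x, z) ↦ (M x, g_x z)` on `(ℝ/ℤ)^d × N`. -/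
def skew {d : ℕ} {N : Type} [TopologicalSpace N] (M : Matrix (Fin d) (Fin d) ℤ)
    (g : Tor d → N ≃ₜ N) (p : Tor d × N) : Tor d × N := (matAct M p.1, g p.1 p.2)

/-- The inverse of the skew product: `(x, z) ↦ (M⁻¹ x, g_{M⁻¹ x}⁻¹ z)`. -/
def skewInv {d : ℕ} {N : Type} [TopologicalSpace N] (Mi : Matrix (Fin d) (Fin d) ℤ)
    (g : Tor d → N ≃ₜ N) (p : Tor d × N) : Tor d × N :=
  (matAct Mi p.1, (g (matAct Mi p.1)).symm p.2)

/-- **Dominated fibre maps** over a hyperbolic automorphism: homeomorphisms `g x` of `N`, Lipschitz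
in `x`, such that the fibres are dominated by the stable and the unstable directions of the base:
on a fibre the iterate `f^n` contracts distances at most at the rate `κs^{-n}`, where
`κs * a < 1`, and expands distances at most at the rate `κu^n`, where `κu * b < 1`. -/
structure Fibres {d : ℕ} (A : HypAut d) (N : Type) [MetricSpace N] where
  g : Tor d → N ≃ₜ N
  K : ℝ
  K_nonneg : 0 ≤ K
  g_lip : ∀ x y z, dist (g x z) (g y z) ≤ K * dist x y
  Q : ℝ
  Q_nonneg : 0 ≤ Q
  κs : ℝ
  κs_nonneg : 0 ≤ κs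
  dom_s : κs * A.a < 1
  lower : ∀ (n : ℕ) (x : Tor d) (z z' : N),
    dist z z' ≤ Q * κs ^ n * dist ((skew A.M g)^[n] (x, z)) ((skew A.M g)^[n] (x, z'))
  κu : ℝ
  κu_nonneg : 0 ≤ κu
  dom_u : κu * A.b < 1
  upper : ∀ (n : ℕ) (x : Tor d) (z z' : N),
    dist ((skew A.M g)^[n] (x, z)) ((skew A.M g)^[n] (x, z')) ≤ Q * κu ^ n * dist z z'

/-! ### Strong stable and unstable leaves, accessibility -/

/-- `q` lies in the strong stable leaf of `p`: the base points differ by a vector of `Es`, and the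
forward orbits approach each other at the rate `a^n` -/
def StLeaf {d : ℕ} {N : Type} [MetricSpace N] (A : HypAut d) (g : Tor d → N ≃ₜ N)
    (p q : Tor d × N) : Prop :=
  ∃ v ∈ A.Es, q.1 = p.1 + proj v ∧
    ∃ c : ℝ, ∀ n : ℕ, dist ((skew A.M g)^[n] p) ((skew A.M g)^[n] q) ≤ c * A.a ^ n

/-- `q` lies in the strong unstable leaf of `p`: the base points differ by a vector of `Eu`, and
the backward orbits approach each other at the rate `b^n` -/
def UnLeaf {d : ℕ} {N : Type} [MetricSpace N] (A : HypAut d) (g : Tor d → N ≃ₜ N)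
    (p q : Tor d × N) : Prop :=
  ∃ v ∈ A.Eu, q.1 = p.1 + proj v ∧
    ∃ c : ℝ, ∀ n : ℕ, dist ((skewInv A.Mi g)^[n] p) ((skewInv A.Mi g)^[n] q) ≤ c * A.b ^ n

/-- `p` and `q` are joined by an `su`-path -/
def SuJoined {d : ℕ} {N : Type} [MetricSpace N] (A : HypAut d) (g : Tor d → N ≃ₜ N) :
    Tor d × N → Tor d × N → Prop :=
  Relation.ReflTransGen (fun p q => StLeaf A g p q ∨ UnLeaf A g p q)

/-- essential accessibility: two measurable sets of positive measure are joined by an `su`-path -/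
def EssAccessible {d : ℕ} {N : Type} [MetricSpace N] [MeasurableSpace N] (A : HypAut d)
    (g : Tor d → N ≃ₜ N) (μ : Measure (Tor d × N)) : Prop :=
  ∀ S S' : Set (Tor d × N), MeasurableSet S → MeasurableSet S' → 0 < μ S → 0 < μ S' →
    ∃ p ∈ S, ∃ q ∈ S', SuJoined A g p q

/-- `f` is mixing for the measure `μ` -/
def Mix {M : Type} [MeasurableSpace M] (f : M → M) (μ : Measure M) : Prop :=
  ∀ S S' : Set M, MeasurableSet S → MeasurableSet S' →
    Tendsto (fun n : ℕ => μ (f^[n] ⁻¹' S ∩ S')) atTop (𝓝 (μ S * μ S'))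

/-- `FibreMap A g x y R`: the map `R` from the fibre over `x` to the fibre over `y` is obtained by
finitely many steps of three kinds: moving all points of a fibre along strong stable leaves, moving
them along strong unstable leaves, and applying the skew product `f`. -/
inductive FibreMap {d : ℕ} {N : Type} [MetricSpace N] (A : HypAut d) (g : Tor d → N ≃ₜ N)
    (x : Tor d) : Tor d → (N → N) → Prop
  | refl : FibreMap A g x x id
  | stable {y : Tor d} {R : N → N} (h : FibreMap A g x y R) (v : Fin d → ℝ) (hv : v ∈ A.Es)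
      (R' : N → N) (hR : ∀ z, ∃ c : ℝ, ∀ n : ℕ, dist ((skew A.M g)^[n] (y, z))
        ((skew A.M g)^[n] (y + proj v, R' z)) ≤ c * A.a ^ n) :
      FibreMap A g x (y + proj v) (R' ∘ R)
  | unstable {y : Tor d} {R : N → N} (h : FibreMap A g x y R) (v : Fin d → ℝ) (hv : v ∈ A.Eu)
      (R' : N → N) (hR : ∀ z, ∃ c : ℝ, ∀ n : ℕ, dist ((skewInv A.Mi g)^[n] (y, z))
        ((skewInv A.Mi g)^[n] (y + proj v, R' z)) ≤ c * A.b ^ n) :
      FibreMap A g x (y + proj v) (R' ∘ R)
  | map {y : Tor d} {R : N → N} (h : FibreMap A g x y R) :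
      FibreMap A g x (matAct A.M y) (g y ∘ R)

/-! ### Levels -/

/-- Balls of comparable radii have comparable measures (for example a smooth positive volume of a
compact manifold). -/
def UnifDoubling {N : Type} [MetricSpace N] [MeasurableSpace N] (ν : Measure N) : Prop :=
  ∃ C : ℝ≥0, ∀ (x y : N) (r : ℝ), 0 < r →
    ν (Metric.closedBall x (2 * r)) ≤ C * ν (Metric.closedBall y r)

/-- `w` and `z` agree in the levels below `i` -/
def Agree {k : ℕ} {N : Fin k → Type} (i : Fin k) (w z : ∀ i, N i) : Prop := ∀ j < i, w j = z j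

/-- **Level conditions** for the fibre maps `g x` of a skew product over a hyperbolic automorphism
of the torus, when the fibre is a product `N 0 × ... × N (k-1)` of compact groups with bi-invariant
metrics. Between points which agree in the levels below `i`, the iterates contract the distance in
the level `i` at most at the rate `(α i)^{-n}` and expand it at most at the rate `(β i)^n`. The
condition `sd` says that the second differences of `g x z` in the variables `(x, z)` and `z i` are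
Lipschitz with the constant `K i` (as they are if `g x z` is of class `C^2`); if `K i = 0`, the
level `i` of `g x z` is affine in `z i`. The level `i` is dominated, and bunched if `K i ≠ 0`. -/
structure Levels {d k : ℕ} {N : Fin k → Type} [∀ i, Group (N i)] [∀ i, MetricSpace (N i)]
    (A : HypAut d) (g : Tor d → (∀ i, N i) ≃ₜ (∀ i, N i)) where
  q : ℝ
  q_nonneg : 0 ≤ q
  K : Fin k → ℝ
  K_nonneg : ∀ i, 0 ≤ K i
  α : Fin k → ℝ
  α_nonneg : ∀ i, 0 ≤ α i
  β : Fin k → ℝ
  β_nonneg : ∀ i, 0 ≤ β i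
  low : ∀ (i : Fin k) (n : ℕ) (x : Tor d) (w z : ∀ i, N i), Agree i w z →
    dist (w i) (z i) ≤ q * α i ^ n *
      dist (((skew A.M g)^[n] (x, w)).2 i) (((skew A.M g)^[n] (x, z)).2 i)
  up : ∀ (i : Fin k) (n : ℕ) (x : Tor d) (w z : ∀ i, N i), Agree i w z →
    dist (((skew A.M g)^[n] (x, w)).2 i) (((skew A.M g)^[n] (x, z)).2 i) ≤
      q * β i ^ n * dist (w i) (z i)
  sd : ∀ (i : Fin k) (x x' : Tor d) (z z' w w' : ∀ i, N i), Agree i z' z → Agree i w' w →
    (w i)⁻¹ * w' i = (z i)⁻¹ * z' i →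
    dist ((g x z i)⁻¹ * g x z' i) ((g x' w i)⁻¹ * g x' w' i)
      ≤ K i * (dist x x' + dist z w) * dist (z i) (z' i)
  dom_s : ∀ i, α i * A.a < 1
  dom_u : ∀ i, β i * A.b < 1
  bunch : ∀ i, K i = 0 ∨ (α i * β i * A.a < 1 ∧ α i * β i * A.b < 1)

end Pool.Agent.SKP
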