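import Pool.Agent.Work.MP_adbfe6_an.SK.Ess
import Pool.Agent.Work.MP_adbfe6_an.SK.Defs
import Pool.Agent.Work.MP_adbfe6_an.Bd.B02

/-!
Mixing and ergodicity from the triviality of almost invariant sets of one fibre.
-/

set_option autoImplicit false
set_option linter.unusedSectionVars false
set_option linter.style.haveILetI false

open Filter Topology MeasureTheory
open scoped ENNReal NNReal

namespace Pool.Agent.SKP

theorem ergodic_of_mix {M : Type} [MeasurableSpace M] {f : M → M} {μ : Measure M}
    [IsProbabilityMeasure μ] (hf : MeasurePreserving f μ μ) (h : Mix f μ) : Ergodic f μ := by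
  refine ⟨hf, ⟨fun s hs hsf => ?_⟩⟩
  have h1 : ∀ n : ℕ, f^[n] ⁻¹' s = s := by
    intro n
    induction n with
    | zero => rfl
    | succ n ih =>
      rw [Function.iterate_succ, Set.preimage_comp, ih, hsf]
  have h2 := h s s hs hs
  simp only [h1, Set.inter_self] at h2
  have h3 : μ s = μ s * μ s := tendsto_nhds_unique tendsto_const_nhds h2
  have h4 : μ.real s = μ.real s * μ.real s := by
    have := congrArg ENNReal.toReal h3
    rwa [ENNReal.toReal_mul] at this
  have h5 : μ.real s = 0 ∨ μ.real s = 1 := by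
    rcases eq_or_ne (μ.real s) 0 with h | h
    · exact Or.inl h
    · right
      have := mul_left_cancel₀ h (show μ.real s * 1 = μ.real s * μ.real s by rw [mul_one]; exact h4)
      exact this.symm
  rw [eventuallyConst_set']
  rcases h5 with h5 | h5
  · left
    rw [ae_eq_empty]
    exact (measureReal_eq_zero_iff (measure_ne_top _ _)).1 h5
  · right
    rw [ae_eq_univ]
    have h6 : μ s = 1 := by
      rw [← ENNReal.toReal_eq_one_iff]; exact h5
    exact (prob_compl_eq_zero_iff hs).2 h6

namespace Two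

variable {B Ws Wu N : Type} [NormedAddCommGroup B] [CompactSpace B]
  [NormedAddCommGroup Ws] [NormedAddCommGroup Wu] [MetricSpace N] [CompactSpace N]
  (D : Two B Ws Wu N)

/-- `f` as a homeomorphism -/
noncomputable def Fh : B × N ≃ₜ B × N where
  toFun := D.s.F
  invFun := D.u.F
  left_inv := D.us_F
  right_inv := D.su_F
  continuous_toFun := D.s.F_cont
  continuous_invFun := D.u.F_cont

/-- translations along the leaves, as continuous maps -/
noncomputable def _root_.Pool.Agent.SKP.Side.Tc {W : Type} [NormedAddCommGroup W]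
    (D : Side B W N) (v : W) : C(B × N, B × N) := ⟨D.T v, D.T_cont v⟩

theorem _root_.Pool.Agent.SKP.Side.Tc_tendsto {W : Type} [NormedAddCommGroup W]
    (D : Side B W N) (v : W) :
    Tendsto (fun n => D.Tc (D.L^[n] v)) atTop (𝓝 (ContinuousMap.id (B × N))) := by
  have h1 : Continuous (fun v => D.Tc v) :=
    ((⟨fun q : W × (B × N) => D.T q.1 q.2, D.T_joint_cont⟩ : C(W × (B × N), B × N)).curry).continuous
  have h2 : D.Tc 0 = ContinuousMap.id (B × N) := by
    ext p
    · exact congrArg Prod.fst (D.T_zero p)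
    · exact congrArg Prod.snd (D.T_zero p)
  rw [← h2]
  exact (h1.tendsto 0).comp (D.L_iter_tendsto v)

variable [MeasurableSpace B] [BorelSpace B] [MeasurableSpace N] [BorelSpace N]
  [NormedSpace ℝ Ws] [NormedSpace ℝ Wu] [FiniteDimensional ℝ Ws] [FiniteDimensional ℝ Wu]
  [MeasurableSpace Ws] [BorelSpace Ws] [MeasurableSpace Wu] [BorelSpace Wu]
  {ν : Measure N} [IsProbabilityMeasure ν] {lam : Measure B} [IsProbabilityMeasure lam]
  [lam.IsAddLeftInvariant]

theorem mix_of_fibre (hg : ∀ x, MeasurePreserving (D.s.g x) ν ν)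
    (hA : MeasurePreserving D.s.A lam lam) (hL : Function.Surjective D.s.L) (x₀ : B)
    (H : ∀ X : Set N, MeasurableSet X →
      (∀ l : List (Mv Ws Wu), (∀ a ∈ l, a.leaf) → D.brun l x₀ = x₀ →
        (D.hol l x₀) ⁻¹' X =ᵐ[ν] X) → ν X = 0 ∨ ν Xᶜ = 0) :
    Mix D.s.F (lam.prod ν) := by
  intro S S' hS hS'
  refine Pool.PSTow.mix_meas (μ := lam.prod ν) D.Fh (D.s.F_mp hg hA) (fun v => D.s.Tc v) D.s.L hL
    (fun w => D.u.Tc w) D.u.L (fun v => D.s.T_mp hg v) (fun w => D.u.T_mp (D.u_g_mp hg) w)
    (fun v z => D.s.F_T v z) (fun w z => D.u.F_T w z) (fun v => D.s.Tc_tendsto v)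
    (fun w => D.u.Tc_tendsto w) ?_ S S' hS hS'
  intro φ hφ _ h1 h2
  set E : B × N → ℝ := fun p => Real.arctan (φ p) / Real.pi + 1 / 2 with hE
  have hpi := Real.pi_pos
  have hEm : Measurable E := ((Real.measurable_arctan.comp hφ).div_const _).add_const _
  have hE0 : ∀ p, 0 ≤ E p := by
    intro p
    have := Real.neg_pi_div_two_lt_arctan (φ p)
    have h : -(1 / 2) < Real.arctan (φ p) / Real.pi := by
      rw [lt_div_iff₀ hpi]; linarith
    simp only [hE]; linarith
  have hE1 : ∀ p, E p ≤ 1 := by
    intro p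
    have := Real.arctan_lt_pi_div_two (φ p)
    have h : Real.arctan (φ p) / Real.pi < 1 / 2 := by
      rw [div_lt_iff₀ hpi]; linarith
    simp only [hE]; linarith
  obtain ⟨c, hc⟩ := D.const_of_fibre (lam := lam) hg x₀ H hEm hE0 hE1
    (fun v => by
      filter_upwards [h1 v] with p hp
      have hp' : φ (D.s.T v p) = φ p := hp
      simp only [hE, Function.comp_apply, hp'])
    (fun w => by
      filter_upwards [h2 w] with p hp
      have hp' : φ (D.u.T w p) = φ p := hp
      simp only [hE, Function.comp_apply, hp'])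
  refine ⟨Real.tan ((c - 1 / 2) * Real.pi), ?_⟩
  filter_upwards [hc] with p hp
  rw [← hp]
  simp only [hE]
  have : (Real.arctan (φ p) / Real.pi + 1 / 2 - 1 / 2) * Real.pi = Real.arctan (φ p) := by
    field_simp
    ring
  rw [this, Real.tan_arctan]

end Two

end Pool.Agent.SKP
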