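import Pool.Agent.Work.MP_adbfe6_an.SK.Hol

/-!
Invariant functions of the skew product are invariant under the stable translations.
-/

set_option autoImplicit false
set_option linter.unusedSectionVars false
set_option linter.style.haveILetI false

open Filter Topology MeasureTheory
open scoped ENNReal

namespace Pool.Agent.SKP

theorem measurePreserving_of_tendsto {N : Type} [MetricSpace N] [CompactSpace N]
    [MeasurableSpace N] [BorelSpace N] {ν : Measure N} [IsFiniteMeasure ν] {h : ℕ → N → N}
    {S : N → N} (hh : ∀ n, MeasurePreserving (h n) ν ν) (hS : Measurable S)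
    (ht : ∀ z, Tendsto (fun n => h n z) atTop (𝓝 (S z))) : MeasurePreserving S ν ν := by
  refine ⟨hS, ?_⟩
  haveI : IsFiniteMeasure (Measure.map S ν) := Measure.isFiniteMeasure_map ν S
  refine ext_of_forall_integral_eq_of_IsFiniteMeasure (fun f => ?_)
  rw [integral_map hS.aemeasurable f.continuous.aestronglyMeasurable]
  have h1 : Tendsto (fun n => ∫ z, f (h n z) ∂ν) atTop (𝓝 (∫ z, f (S z) ∂ν)) := by
    refine tendsto_integral_of_dominated_convergence (fun _ => ‖f‖) ?_ (integrable_const _) ?_ ?_
    · intro n
      exact (f.continuous.measurable.comp (hh n).measurable).aestronglyMeasurable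
    · intro n
      exact Eventually.of_forall (fun z => f.norm_coe_le_norm _)
    · exact Eventually.of_forall (fun z => (f.continuous.tendsto _).comp (ht z))
  have h2 : ∀ n, ∫ z, f (h n z) ∂ν = ∫ z, f z ∂ν := by
    intro n
    conv_rhs => rw [← (hh n).map_eq]
    rw [integral_map (hh n).measurable.aemeasurable f.continuous.aestronglyMeasurable]
  simp only [h2] at h1
  exact tendsto_nhds_unique h1 tendsto_const_nhds

namespace Side

variable {B W N : Type} [NormedAddCommGroup B] [CompactSpace B]
  [NormedAddCommGroup W] [MetricSpace N] [CompactSpace N] (D : Side B W N)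
  [MeasurableSpace B] [BorelSpace B] [MeasurableSpace N] [BorelSpace N]

section fibre

variable {ν : Measure N} (hg : ∀ x, MeasurePreserving (D.g x) ν ν)

include hg

theorem G_mp (n : ℕ) (x : B) : MeasurePreserving (D.G n x) ν ν := by
  induction n with
  | zero =>
    have : (D.G 0 x : N → N) = id := funext (fun z => D.G_zero x z)
    rw [this]
    exact MeasurePreserving.id ν
  | succ n ih =>
    have : (D.G (n + 1) x : N → N) = (D.g (D.A^[n] x)) ∘ (D.G n x) :=
      funext (fun z => D.G_succ n x z)
    rw [this]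
    exact (hg _).comp ih

theorem G_symm_mp (n : ℕ) (x : B) : MeasurePreserving (D.G n x).symm ν ν :=
  MeasurePreserving.symm (D.G n x).toMeasurableEquiv (D.G_mp hg n x)

theorem h_mp (n : ℕ) (v : W) (x : B) : MeasurePreserving (D.h n v x) ν ν := by
  have : (D.h n v x) = (D.G n (x + D.j v)).symm ∘ (D.G n x) := funext (fun z => D.h_def n v x z)
  rw [this]
  exact (D.G_symm_mp hg _ _).comp (D.G_mp hg _ _)

theorem S_mp [IsFiniteMeasure ν] (v : W) (x : B) : MeasurePreserving (D.S v x) ν ν :=
  measurePreserving_of_tendsto (D.h_mp hg · v x) (D.Sh v x).continuous.measurable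
    (D.S_tendsto v x)

end fibre

variable {ν : Measure N} [IsProbabilityMeasure ν] {lam : Measure B} [IsProbabilityMeasure lam]
  [lam.IsAddLeftInvariant]

theorem T_mp (hg : ∀ x, MeasurePreserving (D.g x) ν ν) (v : W) :
    MeasurePreserving (D.T v) (lam.prod ν) (lam.prod ν) := by
  have h1 : MeasurePreserving (fun x : B => x + D.j v) lam lam := by
    have := measurePreserving_add_left lam (D.j v)
    simpa only [add_comm (D.j v)] using this
  refine MeasurePreserving.skew_product (g := fun x z => D.S v x z) h1 ?_ ?_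
  · have : Continuous (Function.uncurry (fun (x : B) (z : N) => D.S v x z)) :=
      D.S_cont.comp (continuous_const.prodMk continuous_id)
    exact this.measurable
  · exact Eventually.of_forall (fun x => (D.S_mp hg v x).map_eq)

theorem F_mp (hg : ∀ x, MeasurePreserving (D.g x) ν ν) (hA : MeasurePreserving D.A lam lam) :
    MeasurePreserving D.F (lam.prod ν) (lam.prod ν) := by
  refine MeasurePreserving.skew_product (g := fun x z => D.g x z) hA ?_ ?_
  · exact D.g_cont.measurable
  · exact Eventually.of_forall (fun x => (hg x).map_eq)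

theorem inv_T (hg : ∀ x, MeasurePreserving (D.g x) ν ν) (hA : MeasurePreserving D.A lam lam)
    (e : Lp ℝ 1 (lam.prod ν))
    (he : Lp.compMeasurePreserving D.F (D.F_mp hg hA) e = e) (v : W) :
    Lp.compMeasurePreserving (D.T v) (D.T_mp hg v) e = e := by
  have key : ∀ v, ‖Lp.compMeasurePreserving (D.T v) (D.T_mp hg v) e - e‖
      = ‖Lp.compMeasurePreserving (D.T (D.L v)) (D.T_mp hg (D.L v)) e - e‖ := by
    intro v
    have h1 : Lp.compMeasurePreserving D.F (D.F_mp hg hA)
        (Lp.compMeasurePreserving (D.T (D.L v)) (D.T_mp hg (D.L v)) e - e)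
        = Lp.compMeasurePreserving (D.T v) (D.T_mp hg v) e - e := by
      rw [map_sub, he, ← Lp.compMeasurePreserving_comp_apply]
      congr 1
      conv_rhs => rw [← he]
      rw [← Lp.compMeasurePreserving_comp_apply]
      congr 2
      funext p
      exact (D.F_T v p).symm
    rw [← h1, Lp.norm_compMeasurePreserving]
  have key2 : ∀ n, ‖Lp.compMeasurePreserving (D.T v) (D.T_mp hg v) e - e‖
      = ‖Lp.compMeasurePreserving (D.T (D.L^[n] v)) (D.T_mp hg (D.L^[n] v)) e - e‖ := by
    intro n
    induction n with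
    | zero => rfl
    | succ n ih => rw [ih, key, ← Function.iterate_succ_apply' (D.L)]
  -- continuity at zero
  let Tc : W → C(B × N, B × N) := fun v => ⟨D.T v, D.T_cont v⟩
  have hTc : Continuous Tc :=
    (ContinuousMap.curry ⟨fun q : W × (B × N) => D.T q.1 q.2, D.T_joint_cont⟩).continuous
  have h3 : Tendsto (fun n => Lp.compMeasurePreserving (Tc (D.L^[n] v))
      (D.T_mp hg (D.L^[n] v)) e) atTop
      (𝓝 (Lp.compMeasurePreserving (Tc 0) (D.T_mp hg 0) e)) :=
    Filter.Tendsto.compMeasurePreservingLp tendsto_const_nhds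
      ((hTc.tendsto 0).comp (D.L_iter_tendsto v)) (fun n => D.T_mp hg (D.L^[n] v))
      (D.T_mp hg 0) ENNReal.one_ne_top
  have h4 : Lp.compMeasurePreserving (Tc 0) (D.T_mp hg 0) e = e := by
    have h5 : (Tc 0 : B × N → B × N) = id := funext (fun p => D.T_zero p)
    have h6 : ∀ (f : B × N → B × N) (hf : MeasurePreserving f (lam.prod ν) (lam.prod ν)),
        f = id → Lp.compMeasurePreserving f hf e = e := by
      intro f hf hfi
      subst hfi
      exact Lp.compMeasurePreserving_id_apply e
    exact h6 _ _ h5
  rw [h4] at h3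
  have h7 : Tendsto (fun n : ℕ => ‖Lp.compMeasurePreserving (Tc (D.L^[n] v))
      (D.T_mp hg (D.L^[n] v)) e - e‖) atTop (𝓝 0) := by
    have := (h3.sub_const e).norm
    simpa using this
  have h8 : ‖Lp.compMeasurePreserving (D.T v) (D.T_mp hg v) e - e‖ = 0 := by
    refine tendsto_nhds_unique (tendsto_const_nhds) (h7.congr (fun n => ?_))
    exact (key2 n).symm
  exact sub_eq_zero.1 (norm_eq_zero.1 h8)

/-- function version -/
theorem inv_T_ae (hg : ∀ x, MeasurePreserving (D.g x) ν ν) (hA : MeasurePreserving D.A lam lam)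
    {E : B × N → ℝ} (hE : Integrable E (lam.prod ν))
    (he : E ∘ D.F =ᵐ[lam.prod ν] E) (v : W) :
    E ∘ D.T v =ᵐ[lam.prod ν] E := by
  have hE' : MemLp E 1 (lam.prod ν) := memLp_one_iff_integrable.2 hE
  have h1 : Lp.compMeasurePreserving D.F (D.F_mp hg hA) (hE'.toLp E) = hE'.toLp E := by
    rw [Lp.toLp_compMeasurePreserving]
    exact (MemLp.toLp_eq_toLp_iff _ _).2 he
  have h2 := D.inv_T hg hA (hE'.toLp E) h1 v
  rw [Lp.toLp_compMeasurePreserving] at h2
  exact (MemLp.toLp_eq_toLp_iff _ _).1 h2

end Side

end Pool.Agent.SKP
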