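import Pool.Agent.Work.MP_adbfe6_an.SK.Lvl

/-!
Ergodicity implies triviality of the almost invariant sets of one fibre.
-/

set_option autoImplicit false
set_option linter.unusedSectionVars false
set_option linter.style.haveILetI false

open Filter Topology MeasureTheory
open scoped ENNReal NNReal

namespace Pool.Agent.SKP

namespace Two

variable {B Ws Wu N : Type} [NormedAddCommGroup B] [CompactSpace B]
  [NormedAddCommGroup Ws] [NormedAddCommGroup Wu] [MetricSpace N] [CompactSpace N]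
  (D : Two B Ws Wu N)
  [MeasurableSpace B] [BorelSpace B] [MeasurableSpace N] [BorelSpace N]
  [NormedSpace ℝ Ws] [NormedSpace ℝ Wu] [FiniteDimensional ℝ Ws] [FiniteDimensional ℝ Wu]
  [MeasurableSpace Ws] [BorelSpace Ws] [MeasurableSpace Wu] [BorelSpace Wu]
  {ν : Measure N} [IsProbabilityMeasure ν] {lam : Measure B} [IsProbabilityMeasure lam]
  [lam.IsAddLeftInvariant]

theorem fibre_of_ergodic (hg : ∀ x, MeasurePreserving (D.s.g x) ν ν) (x₀ : B)
    {σ : B → Ws × Wu} (hσ : Measurable σ) (hσπ : ∀ x, D.bun.π (σ x) = x)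
    (he : Ergodic D.s.F (lam.prod ν)) (X : Set N) (hX : MeasurableSet X)
    (h : ∀ l : List (Mv Ws Wu), D.brun l x₀ = x₀ → (D.hol l x₀) ⁻¹' X =ᵐ[ν] X) :
    ν X = 0 ∨ ν Xᶜ = 0 := by
  set Φ : B × N → N := fun p => D.bun.Sgi (σ (p.1 - x₀)) x₀ p.2 with hΦ
  have hΦm : Measurable Φ := by
    have h1 : Measurable (fun p : B × N => (σ (p.1 - x₀), (x₀, p.2))) := by
      refine Measurable.prodMk (hσ.comp ?_) (measurable_const.prodMk measurable_snd)
      exact (continuous_fst.sub continuous_const).measurable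
    exact (D.bun.Sgi_cont.measurable).comp h1
  set E : Set (B × N) := Φ ⁻¹' X with hE
  have hEm : MeasurableSet E := hΦm hX
  have hSgi : ∀ y, MeasurePreserving (D.bun.Sgi y x₀) ν ν := by
    intro y
    have h1 := D.bun_mp hg y x₀
    have h2 : Continuous (D.bun.Sgi y x₀) :=
      D.bun.Sgi_cont.comp (continuous_const.prodMk (continuous_const.prodMk continuous_id))
    refine ⟨h2.measurable, ?_⟩
    conv_lhs => rw [← h1.map_eq]
    rw [Measure.map_map h2.measurable h1.measurable]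
    have : D.bun.Sgi y x₀ ∘ D.bun.Sg y x₀ = id := funext (fun z => D.bun.left y x₀ z)
    rw [this, Measure.map_id]
  have key : ∀ x, ∀ᵐ z ∂ν, (D.s.F (x, z) ∈ E ↔ (x, z) ∈ E) := by
    intro x
    set y := σ (x - x₀) with hy
    set y' := σ (D.s.A x - x₀) with hy'
    have e1 : D.s.j y.1 + D.u.j y.2 = x - x₀ := by rw [← bun_π, hσπ]
    have e2 : D.s.j y'.1 + D.u.j y'.2 = D.s.A x - x₀ := by rw [← bun_π, hσπ]
    let l : List (Mv Ws Wu) := [Mv.s y.1, Mv.u y.2, Mv.f, Mv.u (-y'.2), Mv.s (-y'.1)]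
    have b1 : x₀ + D.s.j y.1 + D.u.j y.2 = x := by rw [add_assoc, e1, add_sub_cancel]
    have b2 : x₀ + D.s.j y'.1 + D.u.j y'.2 = D.s.A x := by rw [add_assoc, e2, add_sub_cancel]
    have hb : D.brun l x₀ = x₀ := by
      show D.s.A (x₀ + D.s.j y.1 + D.u.j y.2) + D.u.j (-y'.2) + D.s.j (-y'.1) = x₀
      rw [b1, ← b2, map_neg, map_neg]
      abel
    have hl : ∀ z, D.hol l x₀ z = D.bun.Sgi y' x₀ (D.s.g x (D.bun.Sg y x₀ z)) := by
      intro z
      show D.s.S (-y'.1) (D.s.A (x₀ + D.s.j y.1 + D.u.j y.2) + D.u.j (-y'.2))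
        (D.u.S (-y'.2) (D.s.A (x₀ + D.s.j y.1 + D.u.j y.2))
          (D.s.g (x₀ + D.s.j y.1 + D.u.j y.2)
            (D.u.S y.2 (x₀ + D.s.j y.1) (D.s.S y.1 x₀ z)))) =
        D.s.S (-y'.1) (x₀ + D.s.j y'.1) (D.u.S (-y'.2) (x₀ + D.s.j y'.1 + D.u.j y'.2)
          (D.s.g x (D.u.S y.2 (x₀ + D.s.j y.1) (D.s.S y.1 x₀ z))))
      rw [b1, b2]
      have b3 : D.s.A x + D.u.j (-y'.2) = x₀ + D.s.j y'.1 := by
        rw [← b2, map_neg]; abel
      rw [b3]
    have h1 := h l hb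
    have h2 := (hSgi y).quasiMeasurePreserving.ae h1
    filter_upwards [h2] with z hz
    have hz' : (D.hol l x₀ (D.bun.Sgi y x₀ z) ∈ X) = (D.bun.Sgi y x₀ z ∈ X) := hz
    rw [hl] at hz'
    have e3 : D.bun.Sg y x₀ (D.bun.Sgi y x₀ z) = z := by
      have := D.bun.right y x₀ z
      exact this
    rw [e3] at hz'
    show D.bun.Sgi (σ (D.s.A x - x₀)) x₀ (D.s.g x z) ∈ X ↔ D.bun.Sgi (σ (x - x₀)) x₀ z ∈ X
    rw [← hy, ← hy', hz']
  have hFE : D.s.F ⁻¹' E =ᵐ[lam.prod ν] E := by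
    have hm : MeasurableSet {p : B × N | D.s.F p ∈ E ↔ p ∈ E} := by
      have hFm : MeasurableSet (D.s.F ⁻¹' E) := D.s.F_cont.measurable hEm
      have : {p : B × N | D.s.F p ∈ E ↔ p ∈ E}
          = (D.s.F ⁻¹' E ∩ E) ∪ ((D.s.F ⁻¹' E)ᶜ ∩ Eᶜ) := by
        ext p
        simp only [Set.mem_ofPred_eq, Set.mem_union, Set.mem_inter_iff, Set.mem_preimage,
          Set.mem_compl_iff]
        tauto
      rw [this]
      exact (hFm.inter hEm).union (hFm.compl.inter hEm.compl)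
    have h1 : ∀ᵐ p ∂(lam.prod ν), (D.s.F p ∈ E ↔ p ∈ E) := by
      rw [Measure.ae_prod_iff_ae_ae hm]
      exact Eventually.of_forall key
    filter_upwards [h1] with p hp
    exact propext hp
  have hslice : ∀ x, ν (Prod.mk x ⁻¹' E) = ν X := by
    intro x
    have : Prod.mk x ⁻¹' E = D.bun.Sgi (σ (x - x₀)) x₀ ⁻¹' X := rfl
    rw [this, (hSgi _).measure_preimage hX.nullMeasurableSet]
  have hprod : (lam.prod ν) E = ν X := by
    rw [Measure.prod_apply hEm]
    simp only [hslice]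
    simp
  rcases he.quasiErgodic.ae_empty_or_univ₀ hEm.nullMeasurableSet hFE with h1 | h1
  · left
    rw [← hprod, measure_congr h1, measure_empty]
  · right
    rw [measure_congr h1] at hprod
    rw [prob_compl_eq_zero_iff hX, ← hprod, measure_univ]

end Two

end Pool.Agent.SKP
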