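import Pool.Agent.Work.MP_adbfe6_an.SK.Leaf

/-!
Consequences of the reduction to one fibre.
-/

set_option autoImplicit false
set_option linter.unusedSectionVars false
set_option linter.style.haveILetI false

open Filter Topology MeasureTheory
open scoped ENNReal NNReal

namespace Pool.Agent.SKP

namespace Two

variable {B Ws Wu N : Type} [NormedAddCommGroup B] [CompactSpace B]
  [NormedAddCommGroup Ws] [NormedAddCommGroup Wu] [MetricSpace N] [CompactSpace N]
  (D : Two B Ws Wu N)

/-- the inverse move (only for moves inside leaves) -/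
def _root_.Pool.Agent.SKP.Mv.inv {Ws Wu : Type} [NormedAddCommGroup Ws] [NormedAddCommGroup Wu] :
    Mv Ws Wu → Mv Ws Wu
  | Mv.s v => Mv.s (-v)
  | Mv.u w => Mv.u (-w)
  | Mv.f => Mv.f

theorem inv_act {a : Mv Ws Wu} (ha : a.leaf) (p : B × N) : D.act a.inv (D.act a p) = p := by
  obtain ⟨x, z⟩ := p
  cases a with
  | s v =>
    show D.s.T (-v) (D.s.T v (x, z)) = (x, z)
    unfold Side.T
    simp only [map_neg, add_neg_cancel_right, D.s.S_neg_apply]
  | u w =>
    show D.u.T (-w) (D.u.T w (x, z)) = (x, z)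
    unfold Side.T
    simp only [map_neg, add_neg_cancel_right, D.u.S_neg_apply]
  | f => exact ha.elim

/-- the reversed path -/
def rev (l : List (Mv Ws Wu)) : List (Mv Ws Wu) := (l.map Mv.inv).reverse

theorem leaf_inv {a : Mv Ws Wu} (ha : a.leaf) : a.inv.leaf := by
  cases a with
  | s v => trivial
  | u w => trivial
  | f => exact ha.elim

theorem leaf_rev {l : List (Mv Ws Wu)} (hl : ∀ a ∈ l, a.leaf) : ∀ a ∈ rev l, a.leaf := by
  intro a ha
  unfold rev at ha
  rw [List.mem_reverse, List.mem_map] at ha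
  obtain ⟨b, hb, rfl⟩ := ha
  exact leaf_inv (hl b hb)

theorem run_rev {l : List (Mv Ws Wu)} (hl : ∀ a ∈ l, a.leaf) (p : B × N) :
    D.run (rev l) (D.run l p) = p := by
  induction l generalizing p with
  | nil => rfl
  | cons a l ih =>
    have h1 : rev (a :: l) = rev l ++ [a.inv] := by
      unfold rev; simp
    rw [h1, run_append]
    show D.act a.inv (D.run (rev l) (D.run l (D.act a p))) = p
    rw [ih (fun b hb => hl b (List.mem_cons_of_mem a hb)),
      D.inv_act (hl a (List.mem_cons_self ..))]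

theorem brun_rev [Nonempty N] {l : List (Mv Ws Wu)} (hl : ∀ a ∈ l, a.leaf) (x : B) :
    D.brun (rev l) (D.brun l x) = x := by
  obtain ⟨z⟩ := ‹Nonempty N›
  have h := D.run_rev hl (x, z)
  rw [D.run_eq, D.run_eq] at h
  exact congrArg Prod.fst h

theorem hol_rev {l : List (Mv Ws Wu)} (hl : ∀ a ∈ l, a.leaf) (x : B) (z : N) :
    D.hol (rev l) (D.brun l x) (D.hol l x z) = z := by
  have h := D.run_rev hl (x, z)
  rw [D.run_eq, D.run_eq] at h
  exact congrArg Prod.snd h

theorem fact_cont (a : Mv Ws Wu) (x : B) : Continuous (D.fact a x) := by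
  cases a with
  | s v => exact (D.s.Sh v x).continuous
  | u w => exact (D.u.Sh w x).continuous
  | f => exact (D.s.g x).continuous

theorem hol_cont (l : List (Mv Ws Wu)) (x : B) : Continuous (D.hol l x) := by
  induction l generalizing x with
  | nil => exact continuous_id
  | cons a l ih => exact (ih (D.bact a x)).comp (D.fact_cont a x)

theorem replicate_f (k : ℕ) (x : B) (z : N) :
    D.brun (List.replicate k Mv.f) x = D.s.A^[k] x ∧
      D.hol (List.replicate k Mv.f) x z = D.s.G k x z := by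
  induction k generalizing x z with
  | zero => exact ⟨rfl, (D.s.G_zero x z).symm⟩
  | succ k ih =>
    have h := ih (D.s.A x) (D.s.g x z)
    constructor
    · exact h.1
    · rw [D.s.G_succ']
      exact h.2

variable [MeasurableSpace B] [BorelSpace B] [MeasurableSpace N] [BorelSpace N]
  [NormedSpace ℝ Ws] [NormedSpace ℝ Wu] [FiniteDimensional ℝ Ws] [FiniteDimensional ℝ Wu]
  [MeasurableSpace Ws] [BorelSpace Ws] [MeasurableSpace Wu] [BorelSpace Wu]
  {ν : Measure N} [IsProbabilityMeasure ν] {lam : Measure B} [IsProbabilityMeasure lam]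
  [lam.IsAddLeftInvariant]

/-- one ergodic loop is enough -/
theorem ergodic_of_loop (hg : ∀ x, MeasurePreserving (D.s.g x) ν ν)
    (hA : MeasurePreserving D.s.A lam lam) (x₀ : B) (l : List (Mv Ws Wu))
    (hl : D.brun l x₀ = x₀) (he : Ergodic (D.hol l x₀) ν) :
    Ergodic D.s.F (lam.prod ν) := by
  refine D.ergodic_of_fibre hg hA x₀ (fun X hX h => ?_)
  rcases he.quasiErgodic.ae_empty_or_univ₀ hX.nullMeasurableSet (h l hl) with h1 | h1
  · left
    rw [measure_congr h1, measure_empty]
  · right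
    rw [measure_congr h1.compl, Set.compl_univ, measure_empty]

/-- one ergodic periodic fibre is enough -/
theorem ergodic_of_periodic (hg : ∀ x, MeasurePreserving (D.s.g x) ν ν)
    (hA : MeasurePreserving D.s.A lam lam) (x₀ : B) (k : ℕ)
    (hk : D.s.A^[k] x₀ = x₀) (he : Ergodic (D.s.G k x₀) ν) :
    Ergodic D.s.F (lam.prod ν) := by
  obtain ⟨z⟩ : Nonempty N := by
    by_contra hne
    rw [not_nonempty_iff] at hne
    have h1 : ν Set.univ = 1 := measure_univ
    have h2 : (Set.univ : Set N) = ∅ := Set.univ_eq_empty_iff.2 hne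
    rw [h2, measure_empty] at h1
    exact zero_ne_one h1
  refine D.ergodic_of_loop hg hA x₀ (List.replicate k Mv.f) ?_ ?_
  · rw [(D.replicate_f k x₀ z).1, hk]
  · have : D.hol (List.replicate k Mv.f) x₀ = D.s.G k x₀ :=
      funext (fun z => (D.replicate_f k x₀ z).2)
    rw [this]
    exact he

/-- **Local version.** For essentially accessible systems it is enough that the sets which are
almost invariant under the closed paths at `x₀` are trivial in one open set of positive measure. -/
theorem ergodic_of_open (hg : ∀ x, MeasurePreserving (D.s.g x) ν ν)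
    (hA : MeasurePreserving D.s.A lam lam) (hacc : D.EssAcc lam ν) (x₀ : B) (U : Set N)
    (hU : IsOpen U) (hU0 : ν U ≠ 0)
    (H : ∀ X : Set N, MeasurableSet X →
      (∀ l : List (Mv Ws Wu), D.brun l x₀ = x₀ → (D.hol l x₀) ⁻¹' X =ᵐ[ν] X) →
      ν (U ∩ X) = 0 ∨ ν (U \ X) = 0) :
    Ergodic D.s.F (lam.prod ν) := by
  haveI : Nonempty N := by
    by_contra hne
    rw [not_nonempty_iff] at hne
    have h1 : ν Set.univ = 1 := measure_univ
    have h2 : (Set.univ : Set N) = ∅ := Set.univ_eq_empty_iff.2 hne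
    rw [h2, measure_empty] at h1
    exact zero_ne_one h1
  refine D.ergodic_of_fibre hg hA x₀ (fun X hX h => ?_)
  -- the strictly invariant open set
  let I : Type := {l : List (Mv Ws Wu) // (∀ a ∈ l, a.leaf) ∧ D.brun l x₀ = x₀}
  let V : Set N := ⋃ i : I, (D.hol i.1 x₀) ⁻¹' U
  have hVo : ∀ i : I, IsOpen ((D.hol i.1 x₀) ⁻¹' U) := fun i => hU.preimage (D.hol_cont i.1 x₀)
  have hV : MeasurableSet V := (isOpen_iUnion hVo).measurableSet
  have hUV : U ⊆ V := by
    intro z hz
    rw [Set.mem_iUnion]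
    exact ⟨⟨[], ⟨fun a ha => by simp at ha, rfl⟩⟩, hz⟩
  have hVinv : ∀ l : List (Mv Ws Wu), (∀ a ∈ l, a.leaf) → D.brun l x₀ = x₀ →
      ∀ z, D.hol l x₀ z ∈ V ↔ z ∈ V := by
    have key : ∀ l : List (Mv Ws Wu), (∀ a ∈ l, a.leaf) → D.brun l x₀ = x₀ →
        ∀ z, D.hol l x₀ z ∈ V → z ∈ V := by
      intro l hl hlx z hz
      rw [Set.mem_iUnion] at hz ⊢
      obtain ⟨⟨l', hl'1, hl'2⟩, hz'⟩ := hz
      refine ⟨⟨l ++ l', ⟨?_, ?_⟩⟩, ?_⟩
      · intro a ha
        rcases List.mem_append.1 ha with h1 | h1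
        · exact hl a h1
        · exact hl'1 a h1
      · rw [D.brun_append, hlx, hl'2]
      · show D.hol (l ++ l') x₀ z ∈ U
        rw [D.hol_append, hlx]
        exact hz'
    intro l hl hlx z
    refine ⟨key l hl hlx z, fun hz => ?_⟩
    have h1 : D.brun (rev l) x₀ = x₀ := by
      have := D.brun_rev hl x₀
      rwa [hlx] at this
    refine key (rev l) (leaf_rev hl) h1 _ ?_
    have h2 := D.hol_rev hl x₀ z
    rw [hlx] at h2
    rw [h2]
    exact hz
  have hVfull : ν Vᶜ = 0 := by
    rcases D.strict_trivial hg hacc x₀ hV.nullMeasurableSet hVinv with h1 | h1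
    · exact absurd (measure_mono_null hUV h1) hU0
    · exact h1
  obtain ⟨T, hTc, hT⟩ := TopologicalSpace.isOpen_iUnion_countable
    (fun i : I => (D.hol i.1 x₀) ⁻¹' U) hVo
  have hmp : ∀ i : I, MeasurePreserving (D.hol i.1 x₀) ν ν := fun i => D.hol_mp hg i.1 x₀
  have hinv : ∀ i : I, (D.hol i.1 x₀) ⁻¹' X =ᵐ[ν] X := fun i => h i.1 i.2.2
  rcases H X hX h with h1 | h1
  · left
    have h2 : ν (V ∩ X) = 0 := by
      have e : V ∩ X = ⋃ i ∈ T, ((D.hol i.1 x₀) ⁻¹' U ∩ X) := by
        show (⋃ i : I, (D.hol i.1 x₀) ⁻¹' U) ∩ X = _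
        rw [← hT, Set.iUnion₂_inter]
      rw [e, measure_biUnion_null_iff hTc]
      intro i _
      have e2 : ((D.hol i.1 x₀) ⁻¹' U ∩ X : Set N) =ᵐ[ν] (D.hol i.1 x₀) ⁻¹' (U ∩ X) := by
        rw [Set.preimage_inter]
        exact (ae_eq_refl _).inter (hinv i).symm
      rw [measure_congr e2,
        (hmp i).measure_preimage (hU.measurableSet.inter hX).nullMeasurableSet, h1]
    refine measure_mono_null (t := (V ∩ X) ∪ Vᶜ) (fun z hz => ?_)
      (measure_union_null h2 hVfull)
    by_cases hzV : z ∈ V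
    · exact Or.inl ⟨hzV, hz⟩
    · exact Or.inr hzV
  · right
    have h2 : ν (V \ X) = 0 := by
      have e : V \ X = ⋃ i ∈ T, ((D.hol i.1 x₀) ⁻¹' U \ X) := by
        show (⋃ i : I, (D.hol i.1 x₀) ⁻¹' U) \ X = _
        rw [← hT]
        simp only [Set.iUnion_sdiff]
      rw [e, measure_biUnion_null_iff hTc]
      intro i _
      have e2 : ((D.hol i.1 x₀) ⁻¹' U \ X : Set N) =ᵐ[ν] (D.hol i.1 x₀) ⁻¹' (U \ X) := by
        rw [Set.preimage_sdiff]
        exact (ae_eq_refl _).diff (hinv i).symm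
      rw [measure_congr e2,
        (hmp i).measure_preimage (hU.measurableSet.diff hX).nullMeasurableSet, h1]
    refine measure_mono_null (t := (V \ X) ∪ Vᶜ) (fun z hz => ?_)
      (measure_union_null h2 hVfull)
    by_cases hzV : z ∈ V
    · exact Or.inl ⟨hzV, hz⟩
    · exact Or.inr hzV

end Two

end Pool.Agent.SKP
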