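import Mathlib

/-!
Iterated density points in a product of two doubling spaces, and their invariance under
triangular bi-Lipschitz measure preserving homeomorphisms.
-/

set_option autoImplicit false
set_option linter.unusedSectionVars false
set_option linter.style.haveILetI false

open Filter Topology MeasureTheory Metric
open scoped ENNReal NNReal

namespace Pool.Agent.SKP

section one

variable {N : Type} [MetricSpace N] [CompactSpace N] [MeasurableSpace N] [BorelSpace N]
  (ν : Measure N) [IsProbabilityMeasure ν]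

/-- dyadic closed balls -/
def cb (z : N) (n : ℕ) : Set N := closedBall z ((1 / 2 : ℝ) ^ n)

omit [CompactSpace N] [MeasurableSpace N] [BorelSpace N] in
theorem cb_radius_pos (n : ℕ) : (0 : ℝ) < (1 / 2 : ℝ) ^ n := by positivity

theorem tendsto_half : Tendsto (fun n : ℕ => (1 / 2 : ℝ) ^ n) atTop (𝓝[>] 0) := by
  rw [tendsto_nhdsWithin_iff]
  refine ⟨tendsto_pow_atTop_nhds_zero_of_lt_one (by norm_num) (by norm_num), ?_⟩
  exact Eventually.of_forall (fun n => by
    show (0 : ℝ) < (1 / 2 : ℝ) ^ n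
    positivity)

theorem cb_pos [ν.IsOpenPosMeasure] (z : N) (n : ℕ) : 0 < ν.real (cb z n) := by
  rw [Measure.real, ENNReal.toReal_pos_iff]
  exact ⟨measure_closedBall_pos ν z (by positivity), measure_lt_top _ _⟩

theorem measurableSet_cb (z : N) (n : ℕ) : MeasurableSet (cb z n) := measurableSet_closedBall

/-- approximation of an integrable function by a member of a dense sequence -/
theorem exists_dense_approx {u : N → ℝ} (hu : Integrable u ν) {ε : ℝ} (hε : 0 < ε) :
    ∃ j : ℕ, ∫ q, |u q - TopologicalSpace.denseSeq C(N, ℝ) j q| ∂ν < ε := by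
  obtain ⟨g, hg, hgi⟩ := hu.exists_boundedContinuous_integral_sub_le (half_pos hε)
  have hd := TopologicalSpace.denseRange_denseSeq C(N, ℝ)
  obtain ⟨j, hj⟩ := hd.exists_dist_lt g.toContinuousMap (half_pos hε)
  refine ⟨j, ?_⟩
  set ψ := TopologicalSpace.denseSeq C(N, ℝ) j
  have h1 : ∀ q, |g q - ψ q| ≤ dist g.toContinuousMap ψ := by
    intro q
    have := ContinuousMap.dist_apply_le_dist (f := g.toContinuousMap) (g := ψ) q
    rwa [Real.dist_eq] at this
  have hi1 : Integrable (fun q => |u q - g q|) ν := (hu.sub hgi).abs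
  have hψ : Integrable (fun q => ψ q) ν := by
    refine Integrable.mono' (integrable_const ‖ψ‖) ψ.continuous.aestronglyMeasurable ?_
    exact Eventually.of_forall (fun q => ψ.norm_coe_le_norm q)
  have hi2 : Integrable (fun q => |g q - ψ q|) ν := (hgi.sub hψ).abs
  calc ∫ q, |u q - ψ q| ∂ν ≤ ∫ q, (|u q - g q| + |g q - ψ q|) ∂ν := by
        refine integral_mono (hu.sub hψ).abs (hi1.add hi2) (fun q => ?_)
        exact abs_sub_le _ _ _
    _ = ∫ q, |u q - g q| ∂ν + ∫ q, |g q - ψ q| ∂ν := integral_add hi1 hi2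
    _ < ε / 2 + ε / 2 := by
        refine add_lt_add_of_le_of_lt ?_ ?_
        · simpa only [Real.norm_eq_abs] using hg
        · calc ∫ q, |g q - ψ q| ∂ν ≤ ∫ _, dist g.toContinuousMap ψ ∂ν :=
                integral_mono hi2 (integrable_const _) h1
            _ = dist g.toContinuousMap ψ := by simp
            _ < ε / 2 := hj
    _ = ε := by ring

end one

section two

variable {N₁ N₂ : Type} [MetricSpace N₁] [CompactSpace N₁] [MeasurableSpace N₁] [BorelSpace N₁]
  [MetricSpace N₂] [CompactSpace N₂] [MeasurableSpace N₂] [BorelSpace N₂]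
  (ν₁ : Measure N₁) [IsProbabilityMeasure ν₁] (ν₂ : Measure N₂) [IsProbabilityMeasure ν₂]

/-- distance of the fibre sets to the dense sequence -/
noncomputable def U (X : Set (N₁ × N₂)) (j : ℕ) (p : N₁) : ℝ :=
  ∫ q, |X.indicator (fun _ => (1 : ℝ)) (p, q) - TopologicalSpace.denseSeq C(N₂, ℝ) j q| ∂ν₂

theorem U_meas {X : Set (N₁ × N₂)} (hX : MeasurableSet X) (j : ℕ) :
    Measurable (U ν₂ X j) := by
  have h : Measurable (fun z : N₁ × N₂ => |X.indicator (fun _ => (1 : ℝ)) z -
      TopologicalSpace.denseSeq C(N₂, ℝ) j z.2|) := by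
    refine Measurable.abs ?_
    exact (measurable_const.indicator hX).sub
      ((TopologicalSpace.denseSeq C(N₂, ℝ) j).continuous.measurable.comp measurable_snd)
  exact (h.stronglyMeasurable.integral_prod_right' (ν := ν₂)).measurable

theorem ind_int {X : Set (N₁ × N₂)} (hX : MeasurableSet X) (p : N₁) :
    Integrable (fun q => X.indicator (fun _ => (1 : ℝ)) (p, q)) ν₂ := by
  refine Integrable.mono' (integrable_const (1 : ℝ)) ?_ (Eventually.of_forall (fun q => ?_))
  · exact ((measurable_const.indicator hX).comp measurable_prodMk_left).aestronglyMeasurable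
  · rw [Real.norm_eq_abs, abs_of_nonneg (Set.indicator_nonneg (fun _ _ => zero_le_one) _)]
    exact Set.indicator_le_self' (fun _ _ => zero_le_one) _

theorem ψ_int (j : ℕ) : Integrable (fun q => TopologicalSpace.denseSeq C(N₂, ℝ) j q) ν₂ := by
  refine Integrable.mono' (integrable_const ‖TopologicalSpace.denseSeq C(N₂, ℝ) j‖)
    (TopologicalSpace.denseSeq C(N₂, ℝ) j).continuous.aestronglyMeasurable ?_
  exact Eventually.of_forall (fun q => ContinuousMap.norm_coe_le_norm _ q)

theorem U_bound {X : Set (N₁ × N₂)} (hX : MeasurableSet X) (j : ℕ) (p : N₁) :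
    0 ≤ U ν₂ X j p ∧ U ν₂ X j p ≤ 1 + ‖TopologicalSpace.denseSeq C(N₂, ℝ) j‖ := by
  constructor
  · exact integral_nonneg (fun q => abs_nonneg _)
  · calc U ν₂ X j p ≤ ∫ _, (1 + ‖TopologicalSpace.denseSeq C(N₂, ℝ) j‖) ∂ν₂ := by
          refine integral_mono ((ind_int ν₂ hX p).sub (ψ_int ν₂ j)).abs (integrable_const _)
            (fun q => ?_)
          refine (abs_sub _ _).trans (add_le_add ?_ ?_)
          · rw [abs_of_nonneg (Set.indicator_nonneg (fun _ _ => zero_le_one) _)]
            exact Set.indicator_le_self' (fun _ _ => zero_le_one) _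
          · rw [← Real.norm_eq_abs]
            exact ContinuousMap.norm_coe_le_norm _ q
      _ = _ := by simp

theorem U_int {X : Set (N₁ × N₂)} (hX : MeasurableSet X) (j : ℕ) : Integrable (U ν₂ X j) ν₁ := by
  refine Integrable.mono' (integrable_const (1 + ‖TopologicalSpace.denseSeq C(N₂, ℝ) j‖))
    (U_meas ν₂ hX j).aestronglyMeasurable (Eventually.of_forall (fun p => ?_))
  rw [Real.norm_eq_abs, abs_of_nonneg (U_bound ν₂ hX j p).1]
  exact (U_bound ν₂ hX j p).2

/-- good points of the first factor -/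
def Good (X : Set (N₁ × N₂)) (p : N₁) : Prop :=
  ∀ j, Tendsto (fun k : ℕ => ⨍ p' in cb p k, U ν₂ X j p' ∂ν₁) atTop (𝓝 (U ν₂ X j p))

theorem ae_good [IsUnifLocDoublingMeasure ν₁] {X : Set (N₁ × N₂)} (hX : MeasurableSet X) :
    ∀ᵐ p ∂ν₁, Good ν₁ ν₂ X p := by
  unfold Good
  rw [ae_all_iff]
  intro j
  have h := IsUnifLocDoublingMeasure.ae_tendsto_average (μ := ν₁)
    (U_int ν₁ ν₂ hX j).locallyIntegrable 1
  filter_upwards [h] with p hp
  refine hp (fun _ => p) (fun k => (1 / 2 : ℝ) ^ k) tendsto_half ?_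
  refine Eventually.of_forall (fun k => ?_)
  rw [mem_closedBall, dist_self]
  positivity

/-- the slice -/
def sl (X : Set (N₁ × N₂)) (p : N₁) : Set N₂ := Prod.mk p ⁻¹' X

theorem sl_meas {X : Set (N₁ × N₂)} (hX : MeasurableSet X) (p : N₁) : MeasurableSet (sl X p) :=
  measurable_prodMk_left hX

theorem diff_le {X : Set (N₁ × N₂)} (hX : MeasurableSet X) (Q : Set N₂)
    (j : ℕ) (p p' : N₁) :
    |ν₂.real (Q \ sl X p') - ν₂.real (Q \ sl X p)| ≤ U ν₂ X j p' + U ν₂ X j p := by
  have e : ∀ p, ν₂.real (Q \ sl X p)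
      = ∫ q in Q, (1 - X.indicator (fun _ => (1 : ℝ)) (p, q)) ∂ν₂ := by
    intro p
    have h1 : (fun q => 1 - X.indicator (fun _ => (1 : ℝ)) (p, q))
        = (sl X p)ᶜ.indicator (fun _ => (1 : ℝ)) := by
      funext q
      by_cases hq : (p, q) ∈ X
      · have hq' : q ∉ (sl X p)ᶜ := fun h => h hq
        rw [Set.indicator_of_mem hq, Set.indicator_of_notMem hq', sub_self]
      · have hq' : q ∈ (sl X p)ᶜ := hq
        rw [Set.indicator_of_notMem hq, Set.indicator_of_mem hq', sub_zero]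
    rw [h1, integral_indicator (sl_meas hX p).compl, Measure.restrict_restrict
      (sl_meas hX p).compl]
    simp only [integral_const, smul_eq_mul, mul_one]
    rw [measureReal_restrict_apply_univ, Set.inter_comm]
    rfl
  rw [e, e, ← integral_sub]
  · rw [← Real.norm_eq_abs]
    refine (norm_integral_le_integral_norm _).trans ?_
    have hi : ∀ p, Integrable (fun q => |X.indicator (fun _ => (1 : ℝ)) (p, q) -
        TopologicalSpace.denseSeq C(N₂, ℝ) j q|) ν₂ := fun p =>
      ((ind_int ν₂ hX p).sub (ψ_int ν₂ j)).abs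
    calc ∫ q in Q, ‖1 - X.indicator (fun _ => (1 : ℝ)) (p', q) -
          (1 - X.indicator (fun _ => (1 : ℝ)) (p, q))‖ ∂ν₂
        ≤ ∫ q, ‖1 - X.indicator (fun _ => (1 : ℝ)) (p', q) -
          (1 - X.indicator (fun _ => (1 : ℝ)) (p, q))‖ ∂ν₂ := by
          refine setIntegral_le_integral ?_ (Eventually.of_forall (fun q => norm_nonneg _))
          exact (((integrable_const 1).sub (ind_int ν₂ hX p')).sub
            ((integrable_const 1).sub (ind_int ν₂ hX p))).norm
      _ ≤ ∫ q, (|X.indicator (fun _ => (1 : ℝ)) (p', q) -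
            TopologicalSpace.denseSeq C(N₂, ℝ) j q| +
            |X.indicator (fun _ => (1 : ℝ)) (p, q) -
            TopologicalSpace.denseSeq C(N₂, ℝ) j q|) ∂ν₂ := by
          refine integral_mono ?_ ((hi p').add (hi p)) (fun q => ?_)
          · exact (((integrable_const 1).sub (ind_int ν₂ hX p')).sub
              ((integrable_const 1).sub (ind_int ν₂ hX p))).norm
          · show ‖1 - X.indicator (fun _ => (1 : ℝ)) (p', q) -
              (1 - X.indicator (fun _ => (1 : ℝ)) (p, q))‖ ≤ _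
            rw [Real.norm_eq_abs]
            set a := X.indicator (fun _ => (1 : ℝ)) (p', q)
            set b := X.indicator (fun _ => (1 : ℝ)) (p, q)
            set c := TopologicalSpace.denseSeq C(N₂, ℝ) j q
            have : 1 - a - (1 - b) = (b - c) - (a - c) := by ring
            rw [this]
            refine (abs_sub _ _).trans ?_
            rw [add_comm]
      _ = _ := integral_add (hi p') (hi p)
  · exact ((integrable_const 1).sub (ind_int ν₂ hX p')).integrableOn
  · exact ((integrable_const 1).sub (ind_int ν₂ hX p)).integrableOn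

theorem sl_real_meas {X : Set (N₁ × N₂)} (hX : MeasurableSet X) {Q : Set N₂}
    (hQ : MeasurableSet Q) : Measurable (fun p => ν₂.real (Q \ sl X p)) := by
  have h1 : Measurable (fun p => ν₂ (Prod.mk p ⁻¹' ((Set.univ ×ˢ Q) \ X))) :=
    measurable_measure_prodMk_left ((MeasurableSet.univ.prod hQ).diff hX)
  have h2 : (fun p => ν₂.real (Q \ sl X p))
      = fun p => (ν₂ (Prod.mk p ⁻¹' ((Set.univ ×ˢ Q) \ X))).toReal := by
    funext p
    have : Prod.mk p ⁻¹' ((Set.univ ×ˢ Q) \ X) = Q \ sl X p := by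
      ext q
      simp [sl]
    rw [this]; rfl
  rw [h2]
  exact h1.ennreal_toReal

theorem prod_real_eq {X : Set (N₁ × N₂)} (hX : MeasurableSet X) {P : Set N₁}
    (hP : MeasurableSet P) {Q : Set N₂} (hQ : MeasurableSet Q) :
    (ν₁.prod ν₂).real ((P ×ˢ Q) \ X) = ∫ p' in P, ν₂.real (Q \ sl X p') ∂ν₁ := by
  have hm : MeasurableSet ((P ×ˢ Q) \ X) := (hP.prod hQ).diff hX
  rw [Measure.real, Measure.prod_apply hm]
  have h1 : ∀ p', ν₂ (Prod.mk p' ⁻¹' ((P ×ˢ Q) \ X))
      = P.indicator (fun p' => ν₂ (Q \ sl X p')) p' := by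
    intro p'
    by_cases hp : p' ∈ P
    · rw [Set.indicator_of_mem hp]
      congr 1
      ext q
      simp [sl, hp]
    · rw [Set.indicator_of_notMem hp]
      have : Prod.mk p' ⁻¹' ((P ×ˢ Q) \ X) = ∅ := by
        ext q
        simp [hp]
      rw [this, measure_empty]
  simp only [h1]
  rw [lintegral_indicator hP]
  rw [integral_eq_lintegral_of_nonneg_ae (Eventually.of_forall (fun p' => measureReal_nonneg))
    (sl_real_meas ν₂ hX hQ).aestronglyMeasurable]
  congr 1
  apply lintegral_congr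
  intro p'
  rw [Measure.real, ENNReal.ofReal_toReal (measure_ne_top _ _)]

theorem good_tendsto [ν₁.IsOpenPosMeasure] {X : Set (N₁ × N₂)} (hX : MeasurableSet X) {p : N₁}
    (hp : Good ν₁ ν₂ X p)
    {Q : Set N₂} (hQ : MeasurableSet Q) :
    Tendsto (fun k : ℕ => (ν₁.prod ν₂).real ((cb p k ×ˢ Q) \ X) / ν₁.real (cb p k)) atTop
      (𝓝 (ν₂.real (Q \ sl X p))) := by
  rw [Metric.tendsto_atTop]
  intro ε hε
  obtain ⟨j, hj⟩ := exists_dense_approx ν₂ (ind_int ν₂ hX p) (show 0 < ε / 3 by positivity)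
  have hj' : U ν₂ X j p < ε / 3 := hj
  have h1 := hp j
  rw [Metric.tendsto_atTop] at h1
  obtain ⟨k₀, hk₀⟩ := h1 (ε / 3) (by positivity)
  refine ⟨k₀, fun k hk => ?_⟩
  have h2 := hk₀ k hk
  have hpos := cb_pos ν₁ p k
  have hi1 : IntegrableOn (fun p' => ν₂.real (Q \ sl X p')) (cb p k) ν₁ := by
    refine Integrable.integrableOn ?_
    refine Integrable.mono' (integrable_const (1 : ℝ))
      (sl_real_meas ν₂ hX hQ).aestronglyMeasurable (Eventually.of_forall (fun p' => ?_))
    rw [Real.norm_eq_abs, abs_of_nonneg measureReal_nonneg]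
    exact measureReal_le_one
  have hi2 : IntegrableOn (U ν₂ X j) (cb p k) ν₁ := (U_int ν₁ ν₂ hX j).integrableOn
  rw [prod_real_eq ν₁ ν₂ hX (measurableSet_cb p k) hQ, Real.dist_eq]
  have e1 : (∫ p' in cb p k, ν₂.real (Q \ sl X p') ∂ν₁) / ν₁.real (cb p k)
      - ν₂.real (Q \ sl X p)
      = (∫ p' in cb p k, (ν₂.real (Q \ sl X p') - ν₂.real (Q \ sl X p)) ∂ν₁)
        / ν₁.real (cb p k) := by
    rw [integral_sub hi1 (integrable_const _).integrableOn, setIntegral_const, smul_eq_mul]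
    field_simp
  rw [e1, abs_div, abs_of_pos hpos, div_lt_iff₀ hpos]
  have hi3 : IntegrableOn (fun p' => U ν₂ X j p' + U ν₂ X j p) (cb p k) ν₁ :=
    hi2.add (integrable_const _).integrableOn
  calc |∫ p' in cb p k, (ν₂.real (Q \ sl X p') - ν₂.real (Q \ sl X p)) ∂ν₁|
      ≤ ∫ p' in cb p k, |ν₂.real (Q \ sl X p') - ν₂.real (Q \ sl X p)| ∂ν₁ :=
        abs_integral_le_integral_abs
    _ ≤ ∫ p' in cb p k, (U ν₂ X j p' + U ν₂ X j p) ∂ν₁ := by
        refine integral_mono ?_ hi3 (fun p' => diff_le ν₂ hX Q j p p')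
        exact (hi1.sub (integrable_const _).integrableOn).abs
    _ = (⨍ p' in cb p k, U ν₂ X j p' ∂ν₁) * ν₁.real (cb p k) + U ν₂ X j p * ν₁.real (cb p k) := by
        rw [integral_add hi2 (integrable_const _).integrableOn, setIntegral_const, smul_eq_mul,
          setAverage_eq, smul_eq_mul]
        field_simp
    _ < ε * ν₁.real (cb p k) := by
        rw [← add_mul]
        apply mul_lt_mul_of_pos_right _ hpos
        rw [Real.dist_eq] at h2
        have := (abs_lt.1 h2).2
        linarith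

/-- iterated density points -/
def Y (X : Set (N₁ × N₂)) : Set (N₁ × N₂) :=
  {z | ∀ m : ℕ, ∀ᶠ n : ℕ in atTop, ∀ᶠ k : ℕ in atTop,
    (ν₁.prod ν₂).real ((cb z.1 k ×ˢ cb z.2 n) \ X)
      ≤ (1 / ((m : ℝ) + 1)) * (ν₁.real (cb z.1 k) * ν₂.real (cb z.2 n))}

theorem cb_real_meas {N : Type} [MetricSpace N] [CompactSpace N] [MeasurableSpace N]
    [BorelSpace N] (ν : Measure N) [IsProbabilityMeasure ν] (n : ℕ) :
    Measurable (fun z => ν.real (cb z n)) := by
  have h1 : MeasurableSet {q : N × N | dist q.2 q.1 ≤ (1 / 2 : ℝ) ^ n} :=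
    (isClosed_le (continuous_snd.dist continuous_fst) continuous_const).measurableSet
  exact (measurable_measure_prodMk_left h1).ennreal_toReal

theorem num_meas {X : Set (N₁ × N₂)} (hX : MeasurableSet X) (n k : ℕ) :
    Measurable (fun z : N₁ × N₂ => (ν₁.prod ν₂).real ((cb z.1 k ×ˢ cb z.2 n) \ X)) := by
  have h1 : MeasurableSet {q : (N₁ × N₂) × (N₁ × N₂) |
      (dist q.2.1 q.1.1 ≤ (1 / 2 : ℝ) ^ k ∧ dist q.2.2 q.1.2 ≤ (1 / 2 : ℝ) ^ n) ∧ q.2 ∉ X} := by
    refine MeasurableSet.inter ?_ (measurable_snd hX.compl)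
    refine IsClosed.measurableSet ?_
    refine IsClosed.inter ?_ ?_
    · exact isClosed_le ((continuous_fst.comp continuous_snd).dist
        (continuous_fst.comp continuous_fst)) continuous_const
    · exact isClosed_le ((continuous_snd.comp continuous_snd).dist
        (continuous_snd.comp continuous_fst)) continuous_const
  exact (measurable_measure_prodMk_left (ν := ν₁.prod ν₂) h1).ennreal_toReal

theorem Y_meas {X : Set (N₁ × N₂)} (hX : MeasurableSet X) : MeasurableSet (Y ν₁ ν₂ X) := by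
  have : Y ν₁ ν₂ X = ⋂ m : ℕ, ⋃ n₀ : ℕ, ⋂ n ≥ n₀, ⋃ k₀ : ℕ, ⋂ k ≥ k₀,
      {z | (ν₁.prod ν₂).real ((cb z.1 k ×ˢ cb z.2 n) \ X)
        ≤ (1 / ((m : ℝ) + 1)) * (ν₁.real (cb z.1 k) * ν₂.real (cb z.2 n))} := by
    ext z
    simp only [Y, Set.mem_ofPred_eq, Set.mem_iInter, Set.mem_iUnion, eventually_atTop]
  rw [this]
  refine MeasurableSet.iInter (fun m => MeasurableSet.iUnion (fun n₀ =>
    MeasurableSet.biInter (Set.to_countable _) (fun n _ => MeasurableSet.iUnion (fun k₀ =>
    MeasurableSet.biInter (Set.to_countable _) (fun k _ => ?_)))))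
  refine measurableSet_le (num_meas ν₁ ν₂ hX n k) (measurable_const.mul ?_)
  exact ((cb_real_meas ν₁ k).comp measurable_fst).mul ((cb_real_meas ν₂ n).comp measurable_snd)

theorem Y_ae [ν₁.IsOpenPosMeasure] [ν₂.IsOpenPosMeasure] [IsUnifLocDoublingMeasure ν₁]
    [IsUnifLocDoublingMeasure ν₂] {X : Set (N₁ × N₂)} (hX : MeasurableSet X) :
    Y ν₁ ν₂ X =ᵐ[ν₁.prod ν₂] X := by
  have hms : MeasurableSet {z : N₁ × N₂ | z ∈ Y ν₁ ν₂ X ↔ z ∈ X} := by
    have : {z : N₁ × N₂ | z ∈ Y ν₁ ν₂ X ↔ z ∈ X}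
        = (Y ν₁ ν₂ X ∩ X) ∪ ((Y ν₁ ν₂ X)ᶜ ∩ Xᶜ) := by
      ext z
      simp only [Set.mem_ofPred_eq, Set.mem_union, Set.mem_inter_iff, Set.mem_compl_iff]
      tauto
    rw [this]
    exact ((Y_meas ν₁ ν₂ hX).inter hX).union ((Y_meas ν₁ ν₂ hX).compl.inter hX.compl)
  have key : ∀ᵐ z ∂(ν₁.prod ν₂), z ∈ Y ν₁ ν₂ X ↔ z ∈ X := by
    rw [Measure.ae_prod_iff_ae_ae hms]
    filter_upwards [ae_good ν₁ ν₂ hX] with p hp
    -- Lebesgue density in the second factor
    have hf : Integrable ((sl X p)ᶜ.indicator (fun _ => (1 : ℝ))) ν₂ :=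
      (integrable_const (1 : ℝ)).indicator (sl_meas hX p).compl
    have h := IsUnifLocDoublingMeasure.ae_tendsto_average (μ := ν₂) hf.locallyIntegrable 1
    filter_upwards [h] with q hq
    have h1 : Tendsto (fun n : ℕ => ν₂.real (cb q n \ sl X p) / ν₂.real (cb q n)) atTop
        (𝓝 ((sl X p)ᶜ.indicator (fun _ => (1 : ℝ)) q)) := by
      have h2 := hq (fun _ => q) (fun n => (1 / 2 : ℝ) ^ n) tendsto_half
        (Eventually.of_forall (fun n => by
          rw [mem_closedBall, dist_self]; positivity))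
      refine h2.congr (fun n => ?_)
      rw [setAverage_eq, integral_indicator (sl_meas hX p).compl, Measure.restrict_restrict
        (sl_meas hX p).compl]
      simp only [integral_const, smul_eq_mul, mul_one]
      rw [measureReal_restrict_apply_univ, Set.inter_comm]
      show (ν₂.real (cb q n))⁻¹ * ν₂.real (cb q n \ sl X p) = _
      rw [div_eq_inv_mul]
    have h3 : ∀ n : ℕ, Tendsto (fun k : ℕ =>
        (ν₁.prod ν₂).real ((cb p k ×ˢ cb q n) \ X) / ν₁.real (cb p k)) atTop
        (𝓝 (ν₂.real (cb q n \ sl X p))) := fun n =>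
      good_tendsto ν₁ ν₂ hX hp (measurableSet_cb q n)
    by_cases hqX : (p, q) ∈ X
    · refine iff_of_true ?_ hqX
      have hq0 : q ∉ (sl X p)ᶜ := fun h => h hqX
      rw [Set.indicator_of_notMem hq0] at h1
      intro m
      have hm : (0 : ℝ) < 1 / ((m : ℝ) + 1) := by positivity
      filter_upwards [h1.eventually (gt_mem_nhds hm)] with n hn
      have hb := cb_pos ν₂ q n
      rw [div_lt_iff₀ hb] at hn
      filter_upwards [(h3 n).eventually (gt_mem_nhds hn)] with k hk
      have ha := cb_pos ν₁ p k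
      rw [div_lt_iff₀ ha] at hk
      show (ν₁.prod ν₂).real ((cb p k ×ˢ cb q n) \ X)
        ≤ (1 / ((m : ℝ) + 1)) * (ν₁.real (cb p k) * ν₂.real (cb q n))
      nlinarith
    · refine iff_of_false ?_ hqX
      have hq1 : q ∈ (sl X p)ᶜ := hqX
      rw [Set.indicator_of_mem hq1] at h1
      intro hY
      have hY2 := hY 1
      have h5 : ∀ᶠ n : ℕ in atTop, (3 / 4 : ℝ) < ν₂.real (cb q n \ sl X p) / ν₂.real (cb q n) :=
        h1.eventually (lt_mem_nhds (by norm_num))
      obtain ⟨n, hn1, hn2⟩ := (h5.and hY2).exists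
      have hb := cb_pos ν₂ q n
      rw [lt_div_iff₀ hb] at hn1
      obtain ⟨k, hk1, hk2⟩ := (((h3 n).eventually (lt_mem_nhds hn1)).and hn2).exists
      have ha := cb_pos ν₁ p k
      rw [lt_div_iff₀ ha] at hk1
      have hk3 : (ν₁.prod ν₂).real ((cb p k ×ˢ cb q n) \ X)
        ≤ (1 / (((1 : ℕ) : ℝ) + 1)) * (ν₁.real (cb p k) * ν₂.real (cb q n)) := hk2
      norm_num at hk3
      nlinarith [mul_pos ha hb]
  filter_upwards [key] with z hz
  exact propext hz

/-- doubling in dyadic form -/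
theorem cb_doubling {N : Type} [MetricSpace N] [CompactSpace N] [MeasurableSpace N]
    [BorelSpace N] (ν : Measure N) [IsProbabilityMeasure ν] [IsUnifLocDoublingMeasure ν] (m : ℕ) :
    ∃ C : ℝ, 0 ≤ C ∧ ∀ᶠ k : ℕ in atTop, ∀ z, ν.real (cb z (k - m)) ≤ C * ν.real (cb z (k + m)) := by
  obtain ⟨C, hC⟩ := IsUnifLocDoublingMeasure.exists_eventually_forall_measure_closedBall_le_mul
    ν ((2 : ℝ) ^ (2 * m))
  refine ⟨C, C.coe_nonneg, ?_⟩
  have ht : Tendsto (fun k : ℕ => (1 / 2 : ℝ) ^ (k + m)) atTop (𝓝[>] 0) :=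
    tendsto_half.comp (tendsto_add_atTop_nat m)
  filter_upwards [ht.eventually hC, eventually_ge_atTop m] with k hk hkm z
  have h1 := hk z ((2 : ℝ) ^ (2 * m)) le_rfl
  have e : (2 : ℝ) ^ (2 * m) * (1 / 2 : ℝ) ^ (k + m) = (1 / 2 : ℝ) ^ (k - m) := by
    obtain ⟨t, rfl⟩ := Nat.exists_eq_add_of_le hkm
    have : m + t + m = 2 * m + t := by ring
    rw [this, Nat.add_sub_cancel_left, pow_add, ← mul_assoc, ← mul_pow]
    norm_num
  rw [e] at h1
  have h2 := ENNReal.toReal_mono (ENNReal.mul_ne_top ENNReal.coe_ne_top (measure_ne_top _ _)) h1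
  rw [ENNReal.toReal_mul, ENNReal.coe_toReal] at h2
  exact h2

end two

end Pool.Agent.SKP
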