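import Pool.Agent.Work.MP_adbfe6_an.SK.Dens

/-!
Differentiation along iterated limits in a product of two spaces, for bounded functions.
-/

set_option autoImplicit false
set_option linter.unusedSectionVars false
set_option linter.style.haveILetI false

open Filter Topology MeasureTheory Metric
open scoped ENNReal NNReal

namespace Pool.Agent.SKP

section gen

variable {N₁ N₂ : Type} [MetricSpace N₁] [CompactSpace N₁] [MeasurableSpace N₁] [BorelSpace N₁]
  [MetricSpace N₂] [CompactSpace N₂] [MeasurableSpace N₂] [BorelSpace N₂]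
  (ν₁ : Measure N₁) [IsProbabilityMeasure ν₁] (ν₂ : Measure N₂) [IsProbabilityMeasure ν₂]

/-- distance of the slices to the dense sequence -/
noncomputable def UU (u : N₁ × N₂ → ℝ) (j : ℕ) (p : N₁) : ℝ :=
  ∫ q, |u (p, q) - TopologicalSpace.denseSeq C(N₂, ℝ) j q| ∂ν₂

variable {u : N₁ × N₂ → ℝ} (hu : Measurable u) (hb : ∀ z, |u z| ≤ 1)

include hu in
theorem UU_meas (j : ℕ) : Measurable (UU ν₂ u j) := by
  have h : Measurable (fun z : N₁ × N₂ => |u z - TopologicalSpace.denseSeq C(N₂, ℝ) j z.2|) :=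
    (hu.sub ((TopologicalSpace.denseSeq C(N₂, ℝ) j).continuous.measurable.comp
      measurable_snd)).abs
  exact (h.stronglyMeasurable.integral_prod_right' (ν := ν₂)).measurable

include hu hb in
theorem slice_int (p : N₁) : Integrable (fun q => u (p, q)) ν₂ := by
  refine Integrable.mono' (integrable_const (1 : ℝ)) ?_ (Eventually.of_forall (fun q => ?_))
  · exact (hu.comp measurable_prodMk_left).aestronglyMeasurable
  · rw [Real.norm_eq_abs]; exact hb _

include hu hb in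
theorem UU_bound (j : ℕ) (p : N₁) :
    0 ≤ UU ν₂ u j p ∧ UU ν₂ u j p ≤ 1 + ‖TopologicalSpace.denseSeq C(N₂, ℝ) j‖ := by
  constructor
  · exact integral_nonneg (fun q => abs_nonneg _)
  · calc UU ν₂ u j p ≤ ∫ _, (1 + ‖TopologicalSpace.denseSeq C(N₂, ℝ) j‖) ∂ν₂ := by
          refine integral_mono ((slice_int ν₂ hu hb p).sub (ψ_int ν₂ j)).abs (integrable_const _)
            (fun q => ?_)
          refine (abs_sub _ _).trans (add_le_add (hb _) ?_)
          rw [← Real.norm_eq_abs]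
          exact ContinuousMap.norm_coe_le_norm _ q
      _ = _ := by simp

include hu hb in
theorem UU_int (j : ℕ) : Integrable (UU ν₂ u j) ν₁ := by
  refine Integrable.mono' (integrable_const (1 + ‖TopologicalSpace.denseSeq C(N₂, ℝ) j‖))
    (UU_meas ν₂ hu j).aestronglyMeasurable (Eventually.of_forall (fun p => ?_))
  rw [Real.norm_eq_abs, abs_of_nonneg (UU_bound ν₂ hu hb j p).1]
  exact (UU_bound ν₂ hu hb j p).2

/-- good points of the first factor -/
def GoodF (u : N₁ × N₂ → ℝ) (p : N₁) : Prop :=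
  ∀ j, Tendsto (fun k : ℕ => ⨍ p' in cb p k, UU ν₂ u j p' ∂ν₁) atTop (𝓝 (UU ν₂ u j p))

include hu hb in
theorem ae_goodF [IsUnifLocDoublingMeasure ν₁] : ∀ᵐ p ∂ν₁, GoodF ν₁ ν₂ u p := by
  unfold GoodF
  rw [ae_all_iff]
  intro j
  have h := IsUnifLocDoublingMeasure.ae_tendsto_average (μ := ν₁)
    (UU_int ν₁ ν₂ hu hb j).locallyIntegrable 1
  filter_upwards [h] with p hp
  refine hp (fun _ => p) (fun k => (1 / 2 : ℝ) ^ k) tendsto_half ?_
  refine Eventually.of_forall (fun k => ?_)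
  rw [mem_closedBall, dist_self]
  positivity

include hu hb in
theorem slice_diff (Q : Set N₂) (j : ℕ) (p p' : N₁) :
    |∫ q in Q, u (p', q) ∂ν₂ - ∫ q in Q, u (p, q) ∂ν₂| ≤ UU ν₂ u j p' + UU ν₂ u j p := by
  have hi : ∀ p, Integrable (fun q => |u (p, q) - TopologicalSpace.denseSeq C(N₂, ℝ) j q|) ν₂ :=
    fun p => ((slice_int ν₂ hu hb p).sub (ψ_int ν₂ j)).abs
  rw [← integral_sub (slice_int ν₂ hu hb p').integrableOn (slice_int ν₂ hu hb p).integrableOn,
    ← Real.norm_eq_abs]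
  refine (norm_integral_le_integral_norm _).trans ?_
  have hd : Integrable (fun q => ‖u (p', q) - u (p, q)‖) ν₂ :=
    ((slice_int ν₂ hu hb p').sub (slice_int ν₂ hu hb p)).norm
  calc ∫ q in Q, ‖u (p', q) - u (p, q)‖ ∂ν₂ ≤ ∫ q, ‖u (p', q) - u (p, q)‖ ∂ν₂ :=
        setIntegral_le_integral hd (Eventually.of_forall (fun q => norm_nonneg _))
    _ ≤ ∫ q, (|u (p', q) - TopologicalSpace.denseSeq C(N₂, ℝ) j q| +
          |u (p, q) - TopologicalSpace.denseSeq C(N₂, ℝ) j q|) ∂ν₂ := by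
        refine integral_mono hd ((hi p').add (hi p)) (fun q => ?_)
        show ‖u (p', q) - u (p, q)‖ ≤ _
        rw [Real.norm_eq_abs]
        set a := u (p', q)
        set b := u (p, q)
        set c := TopologicalSpace.denseSeq C(N₂, ℝ) j q
        have : a - b = (a - c) - (b - c) := by ring
        rw [this]
        exact abs_sub _ _
    _ = _ := integral_add (hi p') (hi p)

include hu in
theorem inner_meas (Q : Set N₂) : Measurable (fun p => ∫ q in Q, u (p, q) ∂ν₂) :=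
  (hu.stronglyMeasurable.integral_prod_right' (ν := ν₂.restrict Q)).measurable

include hu hb in
theorem inner_int (Q : Set N₂) : Integrable (fun p => ∫ q in Q, u (p, q) ∂ν₂) ν₁ := by
  refine Integrable.mono' (integrable_const (1 : ℝ))
    (inner_meas ν₂ hu Q).aestronglyMeasurable (Eventually.of_forall (fun p => ?_))
  calc ‖∫ q in Q, u (p, q) ∂ν₂‖ ≤ ∫ q in Q, ‖u (p, q)‖ ∂ν₂ := norm_integral_le_integral_norm _
    _ ≤ ∫ q, ‖u (p, q)‖ ∂ν₂ := setIntegral_le_integral (slice_int ν₂ hu hb p).norm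
        (Eventually.of_forall (fun q => norm_nonneg _))
    _ ≤ ∫ _, (1 : ℝ) ∂ν₂ := by
        refine integral_mono (slice_int ν₂ hu hb p).norm (integrable_const _) (fun q => ?_)
        show ‖u (p, q)‖ ≤ 1
        rw [Real.norm_eq_abs]; exact hb _
    _ = 1 := by simp

include hu hb in
theorem goodF_tendsto [ν₁.IsOpenPosMeasure] {p : N₁} (hp : GoodF ν₁ ν₂ u p) (Q : Set N₂) :
    Tendsto (fun k : ℕ => (∫ p' in cb p k, ∫ q in Q, u (p', q) ∂ν₂ ∂ν₁) / ν₁.real (cb p k)) atTop
      (𝓝 (∫ q in Q, u (p, q) ∂ν₂)) := by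
  rw [Metric.tendsto_atTop]
  intro ε hε
  obtain ⟨j, hj⟩ := exists_dense_approx ν₂ (slice_int ν₂ hu hb p) (show 0 < ε / 3 by positivity)
  have hj' : UU ν₂ u j p < ε / 3 := hj
  have h1 := hp j
  rw [Metric.tendsto_atTop] at h1
  obtain ⟨k₀, hk₀⟩ := h1 (ε / 3) (by positivity)
  refine ⟨k₀, fun k hk => ?_⟩
  have h2 := hk₀ k hk
  have hpos := cb_pos ν₁ p k
  have hi1 : IntegrableOn (fun p' => ∫ q in Q, u (p', q) ∂ν₂) (cb p k) ν₁ :=
    (inner_int ν₁ ν₂ hu hb Q).integrableOn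
  have hi2 : IntegrableOn (UU ν₂ u j) (cb p k) ν₁ := (UU_int ν₁ ν₂ hu hb j).integrableOn
  rw [Real.dist_eq]
  have e1 : (∫ p' in cb p k, ∫ q in Q, u (p', q) ∂ν₂ ∂ν₁) / ν₁.real (cb p k)
      - ∫ q in Q, u (p, q) ∂ν₂
      = (∫ p' in cb p k, ((∫ q in Q, u (p', q) ∂ν₂) - ∫ q in Q, u (p, q) ∂ν₂) ∂ν₁)
        / ν₁.real (cb p k) := by
    rw [integral_sub hi1 (integrable_const _).integrableOn, setIntegral_const, smul_eq_mul]
    field_simp
  rw [e1, abs_div, abs_of_pos hpos, div_lt_iff₀ hpos]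
  have hi3 : IntegrableOn (fun p' => UU ν₂ u j p' + UU ν₂ u j p) (cb p k) ν₁ :=
    hi2.add (integrable_const _).integrableOn
  calc |∫ p' in cb p k, ((∫ q in Q, u (p', q) ∂ν₂) - ∫ q in Q, u (p, q) ∂ν₂) ∂ν₁|
      ≤ ∫ p' in cb p k, |(∫ q in Q, u (p', q) ∂ν₂) - ∫ q in Q, u (p, q) ∂ν₂| ∂ν₁ :=
        abs_integral_le_integral_abs
    _ ≤ ∫ p' in cb p k, (UU ν₂ u j p' + UU ν₂ u j p) ∂ν₁ := by
        refine integral_mono ?_ hi3 (fun p' => slice_diff ν₂ hu hb Q j p p')
        exact (hi1.sub (integrable_const _).integrableOn).abs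
    _ = (⨍ p' in cb p k, UU ν₂ u j p' ∂ν₁) * ν₁.real (cb p k)
          + UU ν₂ u j p * ν₁.real (cb p k) := by
        rw [integral_add hi2 (integrable_const _).integrableOn, setIntegral_const, smul_eq_mul,
          setAverage_eq, smul_eq_mul]
        field_simp
    _ < ε * ν₁.real (cb p k) := by
        rw [← add_mul]
        apply mul_lt_mul_of_pos_right _ hpos
        rw [Real.dist_eq] at h2
        have := (abs_lt.1 h2).2
        linarith

end gen

end Pool.Agent.SKP
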