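import Pool.Agent.Work.MP_adbfe6_an.SK.DensK

/-!
Differentiation of bounded functions along lacunary boxes in a product of `k` doubling spaces.
-/

set_option autoImplicit false
set_option linter.unusedSectionVars false
set_option linter.style.haveILetI false

open Filter Topology MeasureTheory Metric
open scoped ENNReal NNReal

namespace Pool.Agent.SKP

/-- The iterated limit: `n k-1 → ∞` after `n k-2 → ∞` after ... after `n 0 → ∞`. -/
def Lf : (k : ℕ) → Filter (Fin k → ℕ)
  | 0 => pure (fun i => i.elim0)
  | k + 1 => (Lf k).bind (fun n => Filter.map (fun m => (Fin.cons m n : Fin (k + 1) → ℕ)) atTop)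

theorem ev_succ {k : ℕ} {P : (Fin (k + 1) → ℕ) → Prop} :
    (∀ᶠ n in Lf (k + 1), P n) ↔ ∀ᶠ n in Lf k, ∀ᶠ m in atTop, P (Fin.cons m n) := by
  simp only [Lf, eventually_bind, eventually_map]

theorem Lf_neBot (k : ℕ) : (Lf k).NeBot := by
  induction k with
  | zero => exact pure_neBot
  | succ k ih =>
    rw [Filter.neBot_iff]
    intro h
    have h1 : ∀ᶠ n in Lf (k + 1), False := by rw [h]; exact Filter.eventually_bot
    rw [ev_succ] at h1
    have h2 : ∀ᶠ _n in Lf k, False := by
      filter_upwards [h1] with n hn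
      exact hn.exists.choose_spec
    exact h2.exists.choose_spec

/-- the boxes along the iterated limit are lacunary -/
theorem ev_lac (Ψ : ℕ → ℕ) : ∀ k : ℕ, ∀ᶠ n in Lf k, (∀ i, Ψ 0 ≤ n i) ∧
    ∀ i j : Fin k, j < i → Ψ (n i) ≤ n j := by
  intro k
  induction k with
  | zero => exact Eventually.of_forall (fun n => ⟨fun i => i.elim0, fun i => i.elim0⟩)
  | succ k ih =>
    rw [ev_succ]
    filter_upwards [ih] with n hn
    have h1 : ∀ᶠ m in atTop, ∀ i : Fin k, Ψ (n i) ≤ m :=
      Filter.eventually_all.2 (fun i => eventually_ge_atTop _)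
    filter_upwards [h1, eventually_ge_atTop (Ψ 0)] with m hm hm0
    refine ⟨fun i => ?_, fun i => ?_⟩
    · refine Fin.cases ?_ (fun i => ?_) i
      · simpa using hm0
      · simpa using hn.1 i
    · refine Fin.cases ?_ (fun i => ?_) i
      · intro j hj
        exact absurd hj (Fin.not_lt_zero j)
      · intro j
        refine Fin.cases ?_ (fun j => ?_) j
        · intro _
          simpa using hm i
        · intro hj
          simpa using hn.2 i j (by simpa using hj)

theorem tendsto_shift (k c : ℕ) : Tendsto (fun n : Fin k → ℕ => fun i => n i - c) (Lf k) (Lf k) := by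
  induction k with
  | zero =>
    intro s hs
    have h1 : (fun i => i.elim0 : Fin 0 → ℕ) ∈ s := hs
    show (fun i => (fun i => i.elim0 : Fin 0 → ℕ) i - c) ∈ s
    have h2 : (fun i => (fun i => i.elim0 : Fin 0 → ℕ) i - c) = (fun i => i.elim0 : Fin 0 → ℕ) :=
      funext (fun i => i.elim0)
    rw [h2]; exact h1
  | succ k ih =>
    intro s hs
    have hs' : ∀ᶠ n in Lf (k + 1), n ∈ s := hs
    show ∀ᶠ n in Lf (k + 1), (fun i => n i - c) ∈ s
    rw [ev_succ] at hs' ⊢
    have h1 := ih.eventually hs'
    filter_upwards [h1] with n hn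
    have h2 := (tendsto_sub_atTop_nat c).eventually hn
    filter_upwards [h2] with m hm
    have h3 : (fun i => (Fin.cons m n : Fin (k + 1) → ℕ) i - c)
        = (Fin.cons (m - c) (fun i => n i - c) : Fin (k + 1) → ℕ) := by
      funext i
      refine Fin.cases ?_ (fun i => ?_) i
      · simp
      · simp
    rw [h3]
    exact hm

theorem meas_ev_atTop {Z : Type} [MeasurableSpace Z] {P : ℕ → Z → Prop}
    (h : ∀ n, MeasurableSet {z | P n z}) : MeasurableSet {z | ∀ᶠ n in atTop, P n z} := by
  have : {z | ∀ᶠ n in atTop, P n z} = ⋃ n₀ : ℕ, ⋂ n ≥ n₀, {z | P n z} := by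
    ext z
    simp only [Set.mem_ofPred_eq, Set.mem_iInter, Set.mem_iUnion, eventually_atTop]
  rw [this]
  exact MeasurableSet.iUnion (fun n₀ =>
    MeasurableSet.biInter (Set.to_countable _) (fun n _ => h n))

theorem meas_ev {Z : Type} [MeasurableSpace Z] (k : ℕ) (P : (Fin k → ℕ) → Z → Prop)
    (h : ∀ n, MeasurableSet {z | P n z}) : MeasurableSet {z | ∀ᶠ n in Lf k, P n z} := by
  induction k with
  | zero =>
    have : {z | ∀ᶠ n in Lf 0, P n z} = {z | P (fun i => i.elim0) z} := by
      ext z
      simp only [Lf, eventually_pure]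
    rw [this]
    exact h _
  | succ k ih =>
    have : {z | ∀ᶠ n in Lf (k + 1), P n z}
        = {z | ∀ᶠ n in Lf k, ∀ᶠ m in atTop, P (Fin.cons m n) z} := by
      ext z
      simp only [Set.mem_ofPred_eq, ev_succ]
    rw [this]
    exact ih _ (fun n => meas_ev_atTop (fun m => h _))

section box

variable {k : ℕ} {N : Fin k → Type} [∀ i, MetricSpace (N i)]

/-- boxes -/
def box (z : ∀ i, N i) (n : Fin k → ℕ) : Set (∀ i, N i) :=
  Set.pi Set.univ (fun i => cb (z i) (n i))

theorem mem_box {z w : ∀ i, N i} {n : Fin k → ℕ} :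
    w ∈ box z n ↔ ∀ i, dist (w i) (z i) ≤ (1 / 2 : ℝ) ^ n i := by
  simp only [box, Set.mem_pi, Set.mem_univ, true_implies, cb, mem_closedBall]

variable [∀ i, CompactSpace (N i)] [∀ i, MeasurableSpace (N i)] [∀ i, BorelSpace (N i)]
  (ν : ∀ i, Measure (N i)) [∀ i, IsProbabilityMeasure (ν i)]

theorem box_meas (z : ∀ i, N i) (n : Fin k → ℕ) : MeasurableSet (box z n) :=
  MeasurableSet.pi Set.countable_univ (fun _ _ => measurableSet_cb _ _)

theorem box_real (z : ∀ i, N i) (n : Fin k → ℕ) :
    (Measure.pi ν).real (box z n) = ∏ i, (ν i).real (cb (z i) (n i)) := by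
  rw [Measure.real, box, Measure.pi_pi, ENNReal.toReal_prod]
  rfl

theorem box_pos [∀ i, (ν i).IsOpenPosMeasure] (z : ∀ i, N i) (n : Fin k → ℕ) :
    0 < (Measure.pi ν).real (box z n) := by
  rw [box_real]
  exact Finset.prod_pos (fun i _ => cb_pos (ν i) _ _)

theorem box_rel_closed (n : Fin k → ℕ) :
    MeasurableSet {w : (∀ i, N i) × (∀ i, N i) | w.2 ∈ box w.1 n} := by
  have : {w : (∀ i, N i) × (∀ i, N i) | w.2 ∈ box w.1 n}
      = ⋂ i, {w | dist (w.2 i) (w.1 i) ≤ (1 / 2 : ℝ) ^ n i} := by
    ext w
    simp only [Set.mem_ofPred_eq, mem_box, Set.mem_iInter]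
  rw [this]
  refine (isClosed_iInter (fun i => ?_)).measurableSet
  exact isClosed_le (((continuous_apply i).comp continuous_snd).dist
    ((continuous_apply i).comp continuous_fst)) continuous_const

theorem box_int_meas {u : (∀ i, N i) → ℝ} (hu : Measurable u) (n : Fin k → ℕ) :
    Measurable (fun z => ∫ y in box z n, u y ∂(Measure.pi ν)) := by
  have h1 : Measurable (fun w : (∀ i, N i) × (∀ i, N i) =>
      {w : (∀ i, N i) × (∀ i, N i) | w.2 ∈ box w.1 n}.indicator (fun w => u w.2) w) :=
    (hu.comp measurable_snd).indicator (box_rel_closed n)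
  have h2 := (h1.stronglyMeasurable.integral_prod_right' (ν := Measure.pi ν)).measurable
  have h3 : (fun z => ∫ y in box z n, u y ∂(Measure.pi ν))
      = fun z => ∫ y, {w : (∀ i, N i) × (∀ i, N i) | w.2 ∈ box w.1 n}.indicator
          (fun w => u w.2) (z, y) ∂(Measure.pi ν) := by
    funext z
    rw [← integral_indicator (box_meas z n)]
    rfl
  rw [h3]
  exact h2

/-- the average over a box -/
noncomputable def av (u : (∀ i, N i) → ℝ) (z : ∀ i, N i) (n : Fin k → ℕ) : ℝ :=
  (∫ y in box z n, u y ∂(Measure.pi ν)) / (Measure.pi ν).real (box z n)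

theorem av_meas {u : (∀ i, N i) → ℝ} (hu : Measurable u) (n : Fin k → ℕ) :
    Measurable (fun z => av ν u z n) := by
  refine (box_int_meas ν hu n).div ?_
  have h : (fun z => (Measure.pi ν).real (box z n))
      = fun z => ∫ _ in box z n, (1 : ℝ) ∂(Measure.pi ν) := by
    funext z
    rw [setIntegral_const, smul_eq_mul, mul_one]
  rw [h]
  exact box_int_meas ν measurable_const n

end box

/-- a form of convergence with rational precision -/
theorem tendsto_iff_ev {ι : Type} {L : Filter ι} {F : ι → ℝ} {c : ℝ} :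
    Tendsto F L (𝓝 c) ↔ ∀ j : ℕ, ∀ᶠ n in L, |F n - c| < 1 / ((j : ℝ) + 1) := by
  rw [Metric.tendsto_nhds]
  constructor
  · intro h j
    have := h (1 / ((j : ℝ) + 1)) (by positivity)
    simpa only [Real.dist_eq] using this
  · intro h ε hε
    obtain ⟨j, hj⟩ := exists_nat_one_div_lt hε
    filter_upwards [h j] with n hn
    rw [Real.dist_eq]
    exact hn.trans hj

/-- **Differentiation along iterated limits of boxes.** -/
theorem diff_k : ∀ (k : ℕ) (N : Fin k → Type) [∀ i, MetricSpace (N i)] [∀ i, CompactSpace (N i)]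
    [∀ i, MeasurableSpace (N i)] [∀ i, BorelSpace (N i)] (ν : ∀ i, Measure (N i))
    [∀ i, IsProbabilityMeasure (ν i)] [∀ i, (ν i).IsOpenPosMeasure]
    [∀ i, IsUnifLocDoublingMeasure (ν i)] (u : (∀ i, N i) → ℝ), Measurable u →
    (∀ z, |u z| ≤ 1) → ∀ᵐ z ∂(Measure.pi ν), Tendsto (av ν u z) (Lf k) (𝓝 (u z)) := by
  intro k
  induction k with
  | zero =>
    intro N _ _ _ _ ν _ _ _ u hu hb
    refine Eventually.of_forall (fun z => ?_)
    have h1 : ∀ n, av ν u z n = u z := by
      intro n
      have hbx : box z n = Set.univ := by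
        ext w
        simp only [mem_box, Set.mem_univ, iff_true]
        exact fun i => i.elim0
      have hc : ∀ y, u y = u z := fun y => by
        have : y = z := funext (fun i => i.elim0)
        rw [this]
      unfold av
      rw [hbx, Measure.restrict_univ]
      simp only [hc]
      simp
    have h2 : av ν u z = fun _ => u z := funext h1
    rw [h2]
    exact tendsto_const_nhds
  | succ k ih =>
    intro N _ _ _ _ ν _ _ _ u hu hb
    set N' : Fin k → Type := fun j => N j.succ
    set ν' : ∀ j : Fin k, Measure (N' j) := fun j => ν j.succ with hν'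
    set e : (∀ i, N i) ≃ᵐ N 0 × (∀ j, N' j) := MeasurableEquiv.piFinSuccAbove N 0 with he
    have hmp : MeasurePreserving e (Measure.pi ν) ((ν 0).prod (Measure.pi ν')) :=
      measurePreserving_piFinSuccAbove ν 0
    let tl : (∀ i, N i) → (∀ j, N' j) := fun z j => z (Fin.succ j)
    have hez : ∀ z : ∀ i, N i, e z = (z 0, tl z) := fun z => rfl
    set u' : N 0 × (∀ j, N' j) → ℝ := fun w => u (e.symm w) with hu'def
    have hu' : Measurable u' := hu.comp e.symm.measurable
    have hb' : ∀ w, |u' w| ≤ 1 := fun w => hb _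
    have hue : ∀ z, u' (e z) = u z := fun z => by
      show u (e.symm (e z)) = u z
      rw [e.symm_apply_apply]
    -- averages
    have hav : ∀ (z : ∀ i, N i) (m : ℕ) (n : Fin k → ℕ), av ν u z (Fin.cons m n)
        = (∫ p' in cb (z 0) m, ∫ q in box (tl z) n, u' (p', q)
            ∂(Measure.pi ν') ∂(ν 0)) /
          ((ν 0).real (cb (z 0) m) *
            (Measure.pi ν').real (box (tl z) n)) := by
      intro z m n
      have hbx : box z (Fin.cons m n) = e ⁻¹' (cb (z 0) m ×ˢ box (tl z) n) := by
        ext w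
        rw [Set.mem_preimage, hez, Set.mem_prod, mem_box, mem_box]
        simp only [cb, mem_closedBall]
        constructor
        · intro h
          exact ⟨h 0, fun j => h j.succ⟩
        · rintro ⟨h0, h1⟩ i
          refine Fin.cases ?_ (fun j => ?_) i
          · exact h0
          · exact h1 j
      unfold av
      congr 1
      · rw [hbx]
        have h1 := hmp.setIntegral_preimage_emb e.measurableEmbedding u'
          (cb (z 0) m ×ˢ box (tl z) n)
        simp only [hue] at h1
        rw [h1]
        refine setIntegral_prod _ ?_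
        refine Integrable.integrableOn ?_
        refine Integrable.mono' (integrable_const (1 : ℝ)) hu'.aestronglyMeasurable
          (Eventually.of_forall (fun w => ?_))
        rw [Real.norm_eq_abs]; exact hb' w
      · rw [box_real, box_real, Fin.prod_univ_succ]
        rfl
    -- the set of good points is measurable
    have hT : MeasurableSet {z : ∀ i, N i | Tendsto (av ν u z) (Lf (k + 1)) (𝓝 (u z))} := by
      have : {z : ∀ i, N i | Tendsto (av ν u z) (Lf (k + 1)) (𝓝 (u z))}
          = ⋂ j : ℕ, {z | ∀ᶠ n in Lf (k + 1), |av ν u z n - u z| < 1 / ((j : ℝ) + 1)} := by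
        ext z
        simp only [Set.mem_ofPred_eq, tendsto_iff_ev, Set.mem_iInter]
      rw [this]
      refine MeasurableSet.iInter (fun j => meas_ev (k + 1) _ (fun n => ?_))
      exact measurableSet_lt ((av_meas ν hu n).sub hu).abs measurable_const
    have hT' : MeasurableSet {w : N 0 × (∀ j, N' j) |
        Tendsto (av ν u (e.symm w)) (Lf (k + 1)) (𝓝 (u (e.symm w)))} :=
      e.symm.measurable hT
    have key : ∀ᵐ w ∂((ν 0).prod (Measure.pi ν')),
        Tendsto (av ν u (e.symm w)) (Lf (k + 1)) (𝓝 (u (e.symm w))) := by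
      rw [Measure.ae_prod_iff_ae_ae hT']
      filter_upwards [ae_goodF (ν 0) (Measure.pi ν') hu' hb'] with p hp
      have h1 := ih N' ν' (fun q => u' (p, q)) (hu'.comp measurable_prodMk_left)
        (fun q => hb' _)
      filter_upwards [h1] with q hq
      rw [tendsto_iff_ev] at hq ⊢
      intro j
      rw [ev_succ]
      have hz := hez (e.symm (p, q))
      rw [e.apply_symm_apply] at hz
      have hz0 : (e.symm (p, q)) 0 = p := (congrArg Prod.fst hz).symm
      have hz1 : tl (e.symm (p, q)) = q := (congrArg Prod.snd hz).symm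
      obtain ⟨j', hj'⟩ := exists_nat_one_div_lt
        (show (0 : ℝ) < (1 / ((j : ℝ) + 1)) / 2 by positivity)
      filter_upwards [hq j'] with n hn
      have h2 := goodF_tendsto (ν 0) (Measure.pi ν') hu' hb' hp (box q n)
      have h3 := h2.div_const ((Measure.pi ν').real (box q n))
      rw [tendsto_iff_ev] at h3
      filter_upwards [h3 j'] with m hm
      rw [hav, hz0, hz1]
      have e1 : u (e.symm (p, q)) = u' (p, q) := rfl
      rw [e1]
      have e2 : (∫ p' in cb p m, ∫ q in box q n, u' (p', q) ∂(Measure.pi ν') ∂(ν 0)) /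
          ((ν 0).real (cb p m) * (Measure.pi ν').real (box q n))
          = (∫ p' in cb p m, ∫ q in box q n, u' (p', q) ∂(Measure.pi ν') ∂(ν 0)) /
          (ν 0).real (cb p m) / (Measure.pi ν').real (box q n) := by
        rw [div_div]
      rw [e2]
      have hn' : |(∫ y in box q n, u' (p, y) ∂(Measure.pi ν')) / (Measure.pi ν').real (box q n)
          - u' (p, q)| < 1 / ((j' : ℝ) + 1) := hn
      calc _ ≤ |(∫ p' in cb p m, ∫ q in box q n, u' (p', q) ∂(Measure.pi ν') ∂(ν 0)) /
            (ν 0).real (cb p m) / (Measure.pi ν').real (box q n) -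
            (∫ y in box q n, u' (p, y) ∂(Measure.pi ν')) / (Measure.pi ν').real (box q n)|
            + |(∫ y in box q n, u' (p, y) ∂(Measure.pi ν')) / (Measure.pi ν').real (box q n)
          - u' (p, q)| := abs_sub_le _ _ _
        _ < 1 / ((j' : ℝ) + 1) + 1 / ((j' : ℝ) + 1) := add_lt_add hm hn'
        _ < 1 / ((j : ℝ) + 1) := by linarith
    have h4 := hmp.quasiMeasurePreserving.ae key
    filter_upwards [h4] with z hz
    rw [e.symm_apply_apply] at hz
    exact hz

end Pool.Agent.SKP
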