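import Pool.Agent.Work.MP_adbfe6_an.SK.Red

/-!
Essential accessibility and strictly invariant sets of one fibre.
-/

set_option autoImplicit false
set_option linter.unusedSectionVars false
set_option linter.style.haveILetI false

open Filter Topology MeasureTheory
open scoped ENNReal NNReal Pointwise

namespace Pool.Agent.SKP

namespace Two

variable {B Ws Wu N : Type} [NormedAddCommGroup B] [CompactSpace B]
  [NormedAddCommGroup Ws] [NormedAddCommGroup Wu] [MetricSpace N] [CompactSpace N]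
  (D : Two B Ws Wu N)
  [MeasurableSpace B] [BorelSpace B] [MeasurableSpace N] [BorelSpace N]
  [NormedSpace ℝ Ws] [NormedSpace ℝ Wu] [FiniteDimensional ℝ Ws] [FiniteDimensional ℝ Wu]
  [MeasurableSpace Ws] [BorelSpace Ws] [MeasurableSpace Wu] [BorelSpace Wu]
  {ν : Measure N} [IsProbabilityMeasure ν] {lam : Measure B} [IsProbabilityMeasure lam]
  [lam.IsAddLeftInvariant]

/-- essential accessibility -/
def EssAcc (lam : Measure B) (ν : Measure N) : Prop :=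
  ∀ A' B' : Set (B × N), MeasurableSet A' → MeasurableSet B' → 0 < (lam.prod ν) A' →
    0 < (lam.prod ν) B' →
    ∃ p ∈ A', ∃ l : List (Mv Ws Wu), (∀ a ∈ l, a.leaf) ∧ D.run l p ∈ B'

theorem lam_image_pos (lam : Measure B) [IsProbabilityMeasure lam] [lam.IsAddLeftInvariant] :
    0 < lam (D.bun.π '' Metric.closedBall 0 1) := by
  rw [pos_iff_ne_zero]
  intro h0
  haveI : SecondCountableTopology (Ws × Wu) := inferInstance
  obtain ⟨s, hsc, hsd⟩ := TopologicalSpace.exists_countable_dense (Ws × Wu)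
  have hcov : (Set.univ : Set B) ⊆ ⋃ y ∈ s, (fun x => -D.bun.π y + x) ⁻¹'
      (D.bun.π '' Metric.closedBall 0 1) := by
    intro x _
    obtain ⟨y, rfl⟩ := D.bun.π_surj x
    obtain ⟨y', hy's, hy'⟩ := Metric.dense_iff.1 hsd y 1 one_pos
    simp only [Set.mem_iUnion]
    refine ⟨y', hy', y - y', ?_, ?_⟩
    · rw [Metric.mem_closedBall, dist_zero_right, ← dist_eq_norm, dist_comm]
      exact (Metric.mem_ball.1 hy's).le
    · rw [map_sub]
      show D.bun.π y - D.bun.π y' = -D.bun.π y' + D.bun.π y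
      abel
  have h1 : lam Set.univ = 0 := by
    refine measure_mono_null hcov ?_
    rw [measure_biUnion_null_iff hsc]
    intro y _
    rw [measure_preimage_add]
    exact h0
  simp at h1

theorem Theta_pos (hg : ∀ x, MeasurePreserving (D.s.g x) ν ν) (x₀ : B) {K : Set N}
    (hK : IsCompact K) (hKp : 0 < ν K) :
    IsCompact ((fun q : (Ws × Wu) × N => (x₀ + D.bun.π q.1, D.bun.Sg q.1 x₀ q.2)) ''
      (Metric.closedBall 0 1 ×ˢ K)) ∧
    0 < (lam.prod ν) ((fun q : (Ws × Wu) × N => (x₀ + D.bun.π q.1, D.bun.Sg q.1 x₀ q.2)) ''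
      (Metric.closedBall 0 1 ×ˢ K)) := by
  set Θ : (Ws × Wu) × N → B × N := fun q => (x₀ + D.bun.π q.1, D.bun.Sg q.1 x₀ q.2) with hΘ
  have hΘc : Continuous Θ := by
    refine Continuous.prodMk ?_ ?_
    · exact continuous_const.add (D.bun.π_cont.comp continuous_fst)
    · exact D.bun.Sg_cont.comp (continuous_fst.prodMk (continuous_const.prodMk continuous_snd))
  have hQ : IsCompact (Metric.closedBall (0 : Ws × Wu) 1) := by
    haveI : ProperSpace (Ws × Wu) := FiniteDimensional.proper_real _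
    exact isCompact_closedBall 0 1
  have hc : IsCompact (Θ '' (Metric.closedBall 0 1 ×ˢ K)) := (hQ.prod hK).image hΘc
  refine ⟨hc, ?_⟩
  rw [pos_iff_ne_zero]
  intro h0
  have h1 := (Measure.measure_prod_null hc.measurableSet).1 h0
  have h2 : ∀ᵐ x ∂lam, x ∉ (fun x => -x₀ + x) ⁻¹' (D.bun.π '' Metric.closedBall 0 1) := by
    filter_upwards [h1] with x hx hx2
    obtain ⟨y, hy, hyx⟩ := hx2
    have hxy : x = x₀ + D.bun.π y := by
      have hyx' : D.bun.π y = -x₀ + x := hyx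
      rw [hyx', add_neg_cancel_left]
    have h3 : K ⊆ (D.bun.Sg y x₀) ⁻¹' (Prod.mk x ⁻¹' (Θ '' (Metric.closedBall 0 1 ×ˢ K))) := by
      intro z hz
      refine ⟨(y, z), ⟨hy, hz⟩, ?_⟩
      rw [hxy]
    have hm : MeasurableSet (Prod.mk x ⁻¹' (Θ '' (Metric.closedBall 0 1 ×ˢ K))) :=
      measurable_prodMk_left hc.measurableSet
    have h4 : ν K ≤ ν (Prod.mk x ⁻¹' (Θ '' (Metric.closedBall 0 1 ×ˢ K))) := by
      calc ν K ≤ ν ((D.bun.Sg y x₀) ⁻¹'
            (Prod.mk x ⁻¹' (Θ '' (Metric.closedBall 0 1 ×ˢ K)))) := measure_mono h3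
        _ = _ := (D.bun_mp hg y x₀).measure_preimage hm.nullMeasurableSet
    have h5 : ν (Prod.mk x ⁻¹' (Θ '' (Metric.closedBall 0 1 ×ˢ K))) = 0 := hx
    rw [h5] at h4
    exact absurd hKp (not_lt.2 h4)
  have h6 : lam ((fun x => -x₀ + x) ⁻¹' (D.bun.π '' Metric.closedBall 0 1)) = 0 := by
    rw [ae_iff] at h2
    refine measure_mono_null (fun x hx => ?_) h2
    simp only [Set.mem_ofPred_eq, not_not]
    exact hx
  rw [measure_preimage_add] at h6
  exact (D.lam_image_pos lam).ne' h6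

/-- a strictly loop invariant measurable subset of a fibre is trivial for essentially accessible
systems. -/
theorem strict_trivial (hg : ∀ x, MeasurePreserving (D.s.g x) ν ν) (hacc : D.EssAcc lam ν)
    (x₀ : B) {Y : Set N} (hY : NullMeasurableSet Y ν)
    (hinv : ∀ l : List (Mv Ws Wu), (∀ a ∈ l, a.leaf) → D.brun l x₀ = x₀ →
      ∀ z, D.hol l x₀ z ∈ Y ↔ z ∈ Y) : ν Y = 0 ∨ ν Yᶜ = 0 := by
  by_contra hcon
  push Not at hcon
  obtain ⟨h1, h2⟩ := hcon
  obtain ⟨Y₁, hY₁s, hY₁m, hY₁e⟩ := hY.exists_measurable_subset_ae_eq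
  obtain ⟨Y₂, hY₂s, hY₂m, hY₂e⟩ := hY.compl.exists_measurable_subset_ae_eq
  obtain ⟨K₁, hK₁s', hK₁c, hK₁p⟩ := hY₁m.exists_lt_isCompact
    (show 0 < ν Y₁ by rw [measure_congr hY₁e]; exact pos_iff_ne_zero.2 h1)
  obtain ⟨K₂, hK₂s', hK₂c, hK₂p⟩ := hY₂m.exists_lt_isCompact
    (show 0 < ν Y₂ by rw [measure_congr hY₂e]; exact pos_iff_ne_zero.2 h2)
  have hK₁s : K₁ ⊆ Y := hK₁s'.trans hY₁s
  have hK₂s : K₂ ⊆ Yᶜ := hK₂s'.trans hY₂s
  obtain ⟨hc1, hp1⟩ := D.Theta_pos (lam := lam) hg x₀ hK₁c hK₁p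
  obtain ⟨hc2, hp2⟩ := D.Theta_pos (lam := lam) hg x₀ hK₂c hK₂p
  obtain ⟨p, ⟨⟨y, z⟩, ⟨_, hz⟩, rfl⟩, l, hl, ⟨⟨y', z'⟩, ⟨_, hz'⟩, hq⟩⟩ :=
    hacc _ _ hc1.measurableSet hc2.measurableSet hp1 hp2
  simp only at hq
  rw [D.run_eq] at hq
  have hqb : x₀ + D.bun.π y' = D.brun l (x₀ + D.bun.π y) := congrArg Prod.fst hq
  have hqf : D.bun.Sg y' x₀ z' = D.hol l (x₀ + D.bun.π y) (D.bun.Sg y x₀ z) :=
    congrArg Prod.snd hq
  -- the loop
  let L : List (Mv Ws Wu) := [Mv.s y.1, Mv.u y.2] ++ (l ++ [Mv.u (-y'.2), Mv.s (-y'.1)])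
  have hL1 : ∀ a ∈ L, a.leaf := by
    intro a ha
    simp only [L, List.mem_append, List.mem_cons, List.not_mem_nil, or_false] at ha
    rcases ha with (rfl | rfl) | ha | rfl | rfl
    · trivial
    · trivial
    · exact hl a ha
    · trivial
    · trivial
  have e1 : D.brun [Mv.s y.1, Mv.u y.2] x₀ = x₀ + D.bun.π y := by
    show x₀ + D.s.j y.1 + D.u.j y.2 = _
    rw [bun_π, add_assoc]
  have e2 : D.hol [Mv.s y.1, Mv.u y.2] x₀ z = D.bun.Sg y x₀ z := rfl
  have hL2 : D.brun L x₀ = x₀ := by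
    simp only [L]
    rw [D.brun_append, D.brun_append, e1, ← hqb]
    show x₀ + D.bun.π y' + D.u.j (-y'.2) + D.s.j (-y'.1) = x₀
    rw [bun_π, map_neg, map_neg]
    abel
  have hL3 : D.hol L x₀ z = z' := by
    simp only [L]
    rw [D.hol_append, D.hol_append, e1, e2, ← hqf, ← hqb]
    show D.s.S (-y'.1) (x₀ + D.bun.π y' + D.u.j (-y'.2))
      (D.u.S (-y'.2) (x₀ + D.bun.π y') (D.bun.Sg y' x₀ z')) = z'
    have e3 : x₀ + D.bun.π y' + D.u.j (-y'.2) = x₀ + D.s.j y'.1 := by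
      rw [bun_π, map_neg]; abel
    have e4 : x₀ + D.bun.π y' = x₀ + D.s.j y'.1 + D.u.j y'.2 := by
      rw [bun_π, add_assoc]
    rw [e3, e4, bun_Sg, D.u.S_neg_apply, D.s.S_neg_apply]
  have := hinv L hL1 hL2 z
  rw [hL3] at this
  exact (hK₂s hz') (this.2 (hK₁s hz))

/-- essential accessibility and regular loops: almost invariant sets of one fibre are trivial -/
theorem trivial_of_regular (hg : ∀ x, MeasurePreserving (D.s.g x) ν ν) (hacc : D.EssAcc lam ν)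
    (x₀ : B)
    (hreg : ∀ X : Set N, MeasurableSet X →
      (∀ l : List (Mv Ws Wu), (∀ a ∈ l, a.leaf) → D.brun l x₀ = x₀ →
        (D.hol l x₀) ⁻¹' X =ᵐ[ν] X) →
      ∃ Y : Set N, Y =ᵐ[ν] X ∧
        ∀ l : List (Mv Ws Wu), (∀ a ∈ l, a.leaf) → D.brun l x₀ = x₀ →
          ∀ z, D.hol l x₀ z ∈ Y ↔ z ∈ Y) (X : Set N) (hX : MeasurableSet X)
    (h : ∀ l : List (Mv Ws Wu), (∀ a ∈ l, a.leaf) → D.brun l x₀ = x₀ →
        (D.hol l x₀) ⁻¹' X =ᵐ[ν] X) : ν X = 0 ∨ ν Xᶜ = 0 := by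
  obtain ⟨Y, hYX, hYinv⟩ := hreg X hX h
  have hY : NullMeasurableSet Y ν := hX.nullMeasurableSet.congr hYX.symm
  rcases D.strict_trivial hg hacc x₀ hY hYinv with h1 | h1
  · left
    rw [← measure_congr hYX]; exact h1
  · right
    rw [← measure_congr hYX.compl]; exact h1

end Two

end Pool.Agent.SKP
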