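import Mathlib

/-!
Stable holonomies of fibre maps over a contracting translation family (one sided theory).
-/

set_option autoImplicit false

open Filter Topology MeasureTheory

namespace Pool.Agent.SKP

/-- the fibre maps of the iterates of `(x, z) ↦ (A x, g x z)` -/
def Gi {B N : Type} [TopologicalSpace N] (A : B → B) (g : B → N ≃ₜ N) : ℕ → B → (N ≃ₜ N)
  | 0, _ => Homeomorph.refl N
  | n + 1, x => (Gi A g n x).trans (g (A^[n] x))

/-- One-sided data: a compact abelian base `B` with a continuous additive map `A`, a normed group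
`W` of translations of `B` contracted by `A`, and fibre maps `g x` of the compact space `N`. -/
structure Side (B W N : Type) [NormedAddCommGroup B] [CompactSpace B]
    [NormedAddCommGroup W] [MetricSpace N] [CompactSpace N] where
  A : B →+ B
  A_cont : Continuous A
  j : W →+ B
  j_le : ∀ v, ‖j v‖ ≤ ‖v‖
  L : W →+ W
  L_j : ∀ v, j (L v) = A (j v)
  C : ℝ
  μ : ℝ
  μ_nonneg : 0 ≤ μ
  μ_lt : μ < 1
  contr : ∀ (n : ℕ) (v : W), ‖L^[n] v‖ ≤ C * μ ^ n * ‖v‖
  g : B → N ≃ₜ N
  K : ℝ
  K_nonneg : 0 ≤ K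
  g_base : ∀ x y z, dist (g x z) (g y z) ≤ K * ‖x - y‖
  κ : ℝ
  κ_nonneg : 0 ≤ κ
  Q : ℝ
  Q_nonneg : 0 ≤ Q
  G_symm : ∀ n x z z', dist ((Gi A g n x).symm z) ((Gi A g n x).symm z') ≤ Q * κ ^ n * dist z z'
  dom : κ * μ < 1

namespace Side

variable {B W N : Type} [NormedAddCommGroup B] [CompactSpace B]
  [NormedAddCommGroup W] [MetricSpace N] [CompactSpace N] (D : Side B W N)

theorem C_nonneg_mul (v : W) : 0 ≤ D.C * ‖v‖ := by
  have := D.contr 0 v
  simp only [Function.iterate_zero, id_eq, pow_zero, mul_one] at this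
  exact le_trans (norm_nonneg _) this

/-- the fibre maps of the iterates. -/
def G (n : ℕ) (x : B) : N ≃ₜ N := Gi D.A D.g n x

@[simp] theorem G_zero (x : B) (z : N) : D.G 0 x z = z := rfl

theorem G_succ (n : ℕ) (x : B) (z : N) : D.G (n + 1) x z = D.g (D.A^[n] x) (D.G n x z) := rfl

theorem G_succ' (n : ℕ) (x : B) (z : N) : D.G (n + 1) x z = D.G n (D.A x) (D.g x z) := by
  induction n generalizing x z with
  | zero => rfl
  | succ n ih =>
    rw [G_succ, ih, G_succ]
    rfl

theorem G_symm_succ (n : ℕ) (x : B) (z : N) :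
    (D.G (n + 1) x).symm z = (D.G n x).symm ((D.g (D.A^[n] x)).symm z) := rfl

theorem G_symm_lip (n : ℕ) (x : B) (z z' : N) :
    dist ((D.G n x).symm z) ((D.G n x).symm z') ≤ D.Q * D.κ ^ n * dist z z' :=
  D.G_symm n x z z'

/-- Lipschitz constant of the inverse fibre maps -/
def k1 : ℝ := D.Q * D.κ

theorem k1_nonneg : 0 ≤ D.k1 := mul_nonneg D.Q_nonneg D.κ_nonneg

theorem g_symm (x : B) (z z' : N) :
    dist ((D.g x).symm z) ((D.g x).symm z') ≤ D.k1 * dist z z' := by
  have := D.G_symm_lip 1 x z z'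
  rw [pow_one] at this
  exact this

/-- approximate holonomies -/
def h (n : ℕ) (v : W) (x : B) (z : N) : N := (D.G n (x + D.j v)).symm (D.G n x z)

@[simp] theorem h_zero (v : W) (x : B) (z : N) : D.h 0 v x z = z := rfl

theorem A_iter_add (n : ℕ) (x y : B) : D.A^[n] (x + y) = D.A^[n] x + D.A^[n] y := by
  induction n generalizing x y with
  | zero => rfl
  | succ n ih => simp only [Function.iterate_succ, Function.comp_apply, map_add, ih]

theorem A_iter_j (n : ℕ) (v : W) : D.A^[n] (D.j v) = D.j (D.L^[n] v) := by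
  induction n generalizing v with
  | zero => rfl
  | succ n ih => simp only [Function.iterate_succ, Function.comp_apply, ← D.L_j, ih]

/-- ratio of the geometric convergence -/
def r : ℝ := D.κ * D.μ

theorem r_nonneg : 0 ≤ D.r := mul_nonneg D.κ_nonneg D.μ_nonneg

/-- the constant in front -/
def K' (v : W) : ℝ := D.Q * D.k1 * D.K * (D.C * ‖v‖)

theorem K'_nonneg (v : W) : 0 ≤ D.K' v :=
  mul_nonneg (mul_nonneg (mul_nonneg D.Q_nonneg D.k1_nonneg) D.K_nonneg) (D.C_nonneg_mul v)

theorem dist_h_succ (n : ℕ) (v : W) (x : B) (z : N) :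
    dist (D.h n v x z) (D.h (n + 1) v x z) ≤ D.K' v * D.r ^ n := by
  set b := D.A^[n] x
  set b' := D.A^[n] (x + D.j v)
  set y := D.G n x z
  have h1 : D.h (n + 1) v x z
      = (D.G n (x + D.j v)).symm ((D.g b').symm (D.g b y)) := rfl
  have h2 : D.h n v x z = (D.G n (x + D.j v)).symm y := rfl
  rw [h1, h2]
  have h3 : dist y ((D.g b').symm (D.g b y)) ≤ D.k1 * (D.K * (D.C * D.μ ^ n * ‖v‖)) := by
    calc dist y ((D.g b').symm (D.g b y))
        = dist ((D.g b').symm (D.g b' y)) ((D.g b').symm (D.g b y)) := by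
          rw [Homeomorph.symm_apply_apply]
      _ ≤ D.k1 * dist (D.g b' y) (D.g b y) := D.g_symm _ _ _
      _ ≤ D.k1 * (D.K * ‖b' - b‖) :=
          mul_le_mul_of_nonneg_left (D.g_base _ _ _) D.k1_nonneg
      _ ≤ D.k1 * (D.K * (D.C * D.μ ^ n * ‖v‖)) := by
          apply mul_le_mul_of_nonneg_left _ D.k1_nonneg
          apply mul_le_mul_of_nonneg_left _ D.K_nonneg
          have : b' - b = D.j (D.L^[n] v) := by
            simp only [b, b', D.A_iter_add, D.A_iter_j, add_sub_cancel_left]
          rw [this]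
          exact le_trans (D.j_le _) (D.contr n v)
  calc _ ≤ D.Q * D.κ ^ n * dist y ((D.g b').symm (D.g b y)) := D.G_symm_lip _ _ _ _
    _ ≤ D.Q * D.κ ^ n * (D.k1 * (D.K * (D.C * D.μ ^ n * ‖v‖))) :=
        mul_le_mul_of_nonneg_left h3 (mul_nonneg D.Q_nonneg (pow_nonneg D.κ_nonneg n))
    _ = D.K' v * D.r ^ n := by
        unfold K' r
        rw [mul_pow]; ring

theorem exists_lim (v : W) (x : B) (z : N) :
    ∃ y, Tendsto (fun n => D.h n v x z) atTop (𝓝 y) :=
  cauchySeq_tendsto_of_complete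
    (cauchySeq_of_le_geometric D.r (D.K' v) D.dom (fun n => D.dist_h_succ n v x z))

/-- the holonomy -/
noncomputable def S (v : W) (x : B) (z : N) : N := (D.exists_lim v x z).choose

theorem S_tendsto (v : W) (x : B) (z : N) :
    Tendsto (fun n => D.h n v x z) atTop (𝓝 (D.S v x z)) := (D.exists_lim v x z).choose_spec

attribute [irreducible] Side.S

theorem dist_h_S (n : ℕ) (v : W) (x : B) (z : N) :
    dist (D.h n v x z) (D.S v x z) ≤ D.K' v * D.r ^ n / (1 - D.r) :=
  dist_le_of_le_geometric_of_tendsto D.r (D.K' v) D.dom (fun n => D.dist_h_succ n v x z)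
    (D.S_tendsto v x z) n

theorem dist_S (v : W) (x : B) (z : N) :
    dist z (D.S v x z) ≤ D.K' v / (1 - D.r) := by
  have := D.dist_h_S 0 v x z
  simpa using this

/-! ### continuity -/

theorem g_cont : Continuous (fun p : B × N => D.g p.1 p.2) := by
  rw [Metric.continuous_iff]
  rintro ⟨x, z⟩ ε hε
  have h1 : Continuous (D.g x) := (D.g x).continuous
  rw [Metric.continuous_iff] at h1
  obtain ⟨δ, hδ, h2⟩ := h1 z (ε / 2) (by positivity)
  refine ⟨min δ (ε / 2 / (D.K + 1)), lt_min hδ (by have := D.K_nonneg; positivity), ?_⟩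
  rintro ⟨y, w⟩ hd
  have hy : dist y x < ε / 2 / (D.K + 1) :=
    lt_of_le_of_lt (le_max_left _ _) (lt_of_lt_of_le hd (min_le_right _ _))
  have hw : dist w z < δ :=
    lt_of_le_of_lt (le_max_right _ _) (lt_of_lt_of_le hd (min_le_left _ _))
  calc dist (D.g y w) (D.g x z) ≤ dist (D.g y w) (D.g x w) + dist (D.g x w) (D.g x z) :=
        dist_triangle _ _ _
    _ < ε / 2 + ε / 2 := by
        apply add_lt_add_of_le_of_lt _ (h2 w hw)
        refine le_trans (D.g_base _ _ _) ?_
        rw [← dist_eq_norm]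
        have hK := D.K_nonneg
        calc D.K * dist y x ≤ (D.K + 1) * (ε / 2 / (D.K + 1)) :=
              mul_le_mul (by linarith) hy.le dist_nonneg (by linarith)
          _ = ε / 2 := by field_simp
    _ = ε := by ring

theorem g_symm_cont : Continuous (fun p : B × N => (D.g p.1).symm p.2) := by
  rw [Metric.continuous_iff]
  rintro ⟨x, z⟩ ε hε
  have hK := D.K_nonneg
  have hκ := D.k1_nonneg
  refine ⟨ε / 2 / (D.k1 * (D.K + 1) + 1), by positivity, ?_⟩
  rintro ⟨y, w⟩ hd
  have hy : dist y x < ε / 2 / (D.k1 * (D.K + 1) + 1) := lt_of_le_of_lt (le_max_left _ _) hd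
  have hw : dist w z < ε / 2 / (D.k1 * (D.K + 1) + 1) := lt_of_le_of_lt (le_max_right _ _) hd
  have h1 : dist ((D.g y).symm w) ((D.g y).symm z) ≤ D.k1 * dist w z := D.g_symm _ _ _
  have h2 : dist ((D.g y).symm z) ((D.g x).symm z) ≤ D.k1 * (D.K * dist y x) := by
    calc _ = dist ((D.g y).symm z) ((D.g y).symm (D.g y ((D.g x).symm z))) := by
            rw [Homeomorph.symm_apply_apply]
      _ ≤ D.k1 * dist z (D.g y ((D.g x).symm z)) := D.g_symm _ _ _
      _ = D.k1 * dist (D.g x ((D.g x).symm z)) (D.g y ((D.g x).symm z)) := by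
            rw [Homeomorph.apply_symm_apply]
      _ ≤ D.k1 * (D.K * ‖x - y‖) := mul_le_mul_of_nonneg_left (D.g_base _ _ _) hκ
      _ = D.k1 * (D.K * dist y x) := by rw [dist_comm, dist_eq_norm]
  calc dist ((D.g y).symm w) ((D.g x).symm z)
      ≤ dist ((D.g y).symm w) ((D.g y).symm z) + dist ((D.g y).symm z) ((D.g x).symm z) :=
        dist_triangle _ _ _
    _ ≤ D.k1 * dist w z + D.k1 * (D.K * dist y x) := add_le_add h1 h2
    _ ≤ D.k1 * (ε / 2 / (D.k1 * (D.K + 1) + 1)) + D.k1 * (D.K * (ε / 2 / (D.k1 * (D.K + 1) + 1))) := by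
        gcongr
    _ = (D.k1 * (D.K + 1)) * (ε / 2 / (D.k1 * (D.K + 1) + 1)) := by ring
    _ ≤ 1 * (ε / 2) := by
        rw [mul_div_assoc', one_mul, div_le_iff₀ (by positivity)]
        nlinarith [mul_nonneg hκ (by linarith : (0:ℝ) ≤ D.K + 1)]
    _ < ε := by linarith

theorem A_iter_cont (n : ℕ) : Continuous (D.A^[n]) := D.A_cont.iterate n

theorem G_cont (n : ℕ) : Continuous (fun p : B × N => D.G n p.1 p.2) := by
  induction n with
  | zero => exact continuous_snd
  | succ n ih =>
    have : (fun p : B × N => D.G (n + 1) p.1 p.2)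
        = (fun p : B × N => D.g p.1 p.2) ∘ (fun p : B × N => (D.A^[n] p.1, D.G n p.1 p.2)) := rfl
    rw [this]
    exact D.g_cont.comp (((D.A_iter_cont n).comp continuous_fst).prodMk ih)

theorem G_symm_cont (n : ℕ) : Continuous (fun p : B × N => (D.G n p.1).symm p.2) := by
  induction n with
  | zero => exact continuous_snd
  | succ n ih =>
    have : (fun p : B × N => (D.G (n + 1) p.1).symm p.2)
        = (fun p : B × N => (D.G n p.1).symm p.2) ∘
          (fun p : B × N => (p.1, (D.g (D.A^[n] p.1)).symm p.2)) := rfl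
    rw [this]
    refine ih.comp (continuous_fst.prodMk ?_)
    exact D.g_symm_cont.comp (((D.A_iter_cont n).comp continuous_fst).prodMk continuous_snd)

theorem j_cont : Continuous D.j := by
  apply AddMonoidHomClass.continuous_of_bound D.j 1
  intro v
  rw [one_mul]
  exact D.j_le v

theorem h_cont (n : ℕ) : Continuous (fun p : W × B × N => D.h n p.1 p.2.1 p.2.2) := by
  have : (fun p : W × B × N => D.h n p.1 p.2.1 p.2.2)
      = (fun p : B × N => (D.G n p.1).symm p.2) ∘
        (fun p : W × B × N => (p.2.1 + D.j p.1, D.G n p.2.1 p.2.2)) := rfl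
  rw [this]
  refine (D.G_symm_cont n).comp (Continuous.prodMk ?_ ?_)
  · exact (continuous_fst.comp continuous_snd).add (D.j_cont.comp continuous_fst)
  · exact (D.G_cont n).comp continuous_snd

theorem tendstoLocallyUniformly :
    TendstoLocallyUniformly (fun n (p : W × B × N) => D.h n p.1 p.2.1 p.2.2)
      (fun p => D.S p.1 p.2.1 p.2.2) atTop := by
  rw [Metric.tendstoLocallyUniformly_iff]
  intro ε hε p
  -- bound on a neighbourhood
  have hr : Tendsto (fun n => (D.Q * D.k1 * D.K * (|D.C| * (‖p.1‖ + 1))) * D.r ^ n / (1 - D.r)) atTop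
      (𝓝 0) := by
    have h0 := tendsto_pow_atTop_nhds_zero_of_lt_one D.r_nonneg D.dom
    have := (h0.const_mul (D.Q * D.k1 * D.K * (|D.C| * (‖p.1‖ + 1)))).div_const (1 - D.r)
    simpa using this
  refine ⟨{q | ‖q.1‖ < ‖p.1‖ + 1}, ?_, ?_⟩
  · have : IsOpen {q : W × B × N | ‖q.1‖ < ‖p.1‖ + 1} :=
      isOpen_lt (continuous_norm.comp continuous_fst) continuous_const
    exact this.mem_nhds (by simp)
  · filter_upwards [hr.eventually (gt_mem_nhds hε)] with n hn q hq
    rw [dist_comm]
    refine lt_of_le_of_lt (D.dist_h_S n q.1 q.2.1 q.2.2) (lt_of_le_of_lt ?_ hn)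
    have h1 : 0 < 1 - D.r := by have := D.dom; unfold r; linarith
    apply div_le_div_of_nonneg_right _ h1.le
    apply mul_le_mul_of_nonneg_right _ (pow_nonneg D.r_nonneg n)
    unfold K'
    apply mul_le_mul_of_nonneg_left _
      (mul_nonneg (mul_nonneg D.Q_nonneg D.k1_nonneg) D.K_nonneg)
    calc D.C * ‖q.1‖ ≤ |D.C| * ‖q.1‖ :=
          mul_le_mul_of_nonneg_right (le_abs_self _) (norm_nonneg _)
      _ ≤ |D.C| * (‖p.1‖ + 1) :=
          mul_le_mul_of_nonneg_left (le_of_lt hq) (abs_nonneg _)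

theorem S_cont : Continuous (fun p : W × B × N => D.S p.1 p.2.1 p.2.2) :=
  D.tendstoLocallyUniformly.continuous (Frequently.of_forall (fun n => D.h_cont n))

theorem h_def (n : ℕ) (v : W) (x : B) (z : N) :
    D.h n v x z = (D.G n (x + D.j v)).symm (D.G n x z) := rfl

attribute [irreducible] Side.G Side.h

/-! ### algebraic properties -/

theorem h_add (n : ℕ) (v v' : W) (x : B) (z : N) :
    D.h n v' (x + D.j v) (D.h n v x z) = D.h n (v + v') x z := by
  rw [h_def, h_def, h_def, Homeomorph.apply_symm_apply, map_add, add_assoc]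

theorem S_add_aux (v v' : W) (x : B) (z : N) :
    Tendsto (fun n => D.h n v' (x + D.j v) (D.h n v x z)) atTop
      (𝓝 (D.S v' (x + D.j v) (D.S v x z))) := by
  rw [tendsto_iff_dist_tendsto_zero]
  have h1 : Tendsto (fun n => D.K' v' * D.r ^ n / (1 - D.r)) atTop (𝓝 0) := by
    have h0 := tendsto_pow_atTop_nhds_zero_of_lt_one D.r_nonneg D.dom
    have := (h0.const_mul (D.K' v')).div_const (1 - D.r)
    simpa using this
  have hc : Continuous (fun w : N => D.S v' (x + D.j v) w) :=
    D.S_cont.comp (continuous_const.prodMk (continuous_const.prodMk continuous_id))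
  have h3 : Tendsto (fun n => D.S v' (x + D.j v) (D.h n v x z)) atTop
      (𝓝 (D.S v' (x + D.j v) (D.S v x z))) :=
    (hc.tendsto (D.S v x z)).comp (D.S_tendsto v x z)
  have h2 : Tendsto (fun n => dist (D.S v' (x + D.j v) (D.h n v x z))
      (D.S v' (x + D.j v) (D.S v x z))) atTop (𝓝 0) :=
    tendsto_iff_dist_tendsto_zero.1 h3
  have h4 := h1.add h2
  rw [add_zero] at h4
  refine squeeze_zero (fun n => dist_nonneg) (fun n => ?_) h4
  exact (dist_triangle _ (D.S v' (x + D.j v) (D.h n v x z)) _).trans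
    (add_le_add (D.dist_h_S n v' _ _) le_rfl)

theorem S_add (v v' : W) (x : B) (z : N) :
    D.S v' (x + D.j v) (D.S v x z) = D.S (v + v') x z := by
  have h1 := D.S_add_aux v v' x z
  have h2 : Tendsto (fun n => D.h n (v + v') x z) atTop
      (𝓝 (D.S v' (x + D.j v) (D.S v x z))) :=
    h1.congr (fun n => D.h_add n v v' x z)
  exact tendsto_nhds_unique h2 (D.S_tendsto (v + v') x z)

theorem S_zero (x : B) (z : N) : D.S 0 x z = z := by
  have h := D.dist_S 0 x z
  have h0 : D.K' (0 : W) = 0 := by simp [K']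
  rw [h0, zero_div] at h
  exact (dist_le_zero.1 h).symm

theorem S_neg_apply (v : W) (x : B) (z : N) :
    D.S (-v) (x + D.j v) (D.S v x z) = z := by
  rw [D.S_add, add_neg_cancel, D.S_zero]

theorem S_apply_neg (v : W) (x : B) (z : N) :
    D.S v x (D.S (-v) (x + D.j v) z) = z := by
  have := D.S_add (-v) v (x + D.j v) z
  rw [map_neg, add_neg_cancel_right, neg_add_cancel, D.S_zero] at this
  exact this

/-- the holonomy as a homeomorphism -/
noncomputable def Sh (v : W) (x : B) : N ≃ₜ N where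
  toFun := D.S v x
  invFun := D.S (-v) (x + D.j v)
  left_inv := D.S_neg_apply v x
  right_inv := D.S_apply_neg v x
  continuous_toFun :=
    D.S_cont.comp (continuous_const.prodMk (continuous_const.prodMk continuous_id))
  continuous_invFun :=
    D.S_cont.comp (continuous_const.prodMk (continuous_const.prodMk continuous_id))

theorem G_symm_succ' (n : ℕ) (y : B) (w : N) :
    (D.G (n + 1) y).symm w = (D.g y).symm ((D.G n (D.A y)).symm w) := by
  rw [Homeomorph.symm_apply_eq, D.G_succ', Homeomorph.apply_symm_apply,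
    Homeomorph.apply_symm_apply]

theorem h_equiv (n : ℕ) (v : W) (x : B) (z : N) :
    D.g (x + D.j v) (D.h (n + 1) v x z) = D.h n (D.L v) (D.A x) (D.g x z) := by
  rw [h_def, h_def, D.G_symm_succ', Homeomorph.apply_symm_apply, D.G_succ', map_add, D.L_j]

theorem S_equiv (v : W) (x : B) (z : N) :
    D.g (x + D.j v) (D.S v x z) = D.S (D.L v) (D.A x) (D.g x z) := by
  have h0 : Tendsto (fun n => D.h (n + 1) v x z) atTop (𝓝 (D.S v x z)) :=
    (tendsto_add_atTop_iff_nat 1).2 (D.S_tendsto v x z)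
  have h1 : Tendsto (fun n => D.g (x + D.j v) (D.h (n + 1) v x z)) atTop
      (𝓝 (D.g (x + D.j v) (D.S v x z))) :=
    ((D.g (x + D.j v)).continuous.tendsto (D.S v x z)).comp h0
  have h2 : Tendsto (fun n => D.h n (D.L v) (D.A x) (D.g x z)) atTop
      (𝓝 (D.g (x + D.j v) (D.S v x z))) :=
    h1.congr (fun n => D.h_equiv n v x z)
  exact tendsto_nhds_unique h2 (D.S_tendsto (D.L v) (D.A x) (D.g x z))

/-- translation along the leaf -/
noncomputable def T (v : W) (p : B × N) : B × N := (p.1 + D.j v, D.S v p.1 p.2)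

/-- the skew product -/
def F (p : B × N) : B × N := (D.A p.1, D.g p.1 p.2)

theorem F_T (v : W) (p : B × N) : D.F (D.T v p) = D.T (D.L v) (D.F p) := by
  unfold F T
  simp only [map_add, D.L_j, D.S_equiv]

theorem T_joint_cont : Continuous (fun q : W × (B × N) => D.T q.1 q.2) := by
  unfold T
  refine Continuous.prodMk ?_ ?_
  · exact (continuous_fst.comp continuous_snd).add (D.j_cont.comp continuous_fst)
  · exact D.S_cont

theorem T_cont (v : W) : Continuous (D.T v) :=
  D.T_joint_cont.comp (continuous_const.prodMk continuous_id)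

theorem F_cont : Continuous D.F :=
  (D.A_cont.comp continuous_fst).prodMk D.g_cont

theorem T_zero (p : B × N) : D.T 0 p = p := by
  unfold T
  simp [D.S_zero]

theorem L_iter_tendsto (v : W) : Tendsto (fun n => D.L^[n] v) atTop (𝓝 0) := by
  rw [tendsto_zero_iff_norm_tendsto_zero]
  have h0 := tendsto_pow_atTop_nhds_zero_of_lt_one D.μ_nonneg D.μ_lt
  have h1 := (h0.const_mul D.C).mul_const ‖v‖
  simp only [mul_zero, zero_mul] at h1
  exact squeeze_zero (fun n => norm_nonneg _) (fun n => D.contr n v) h1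

end Side

end Pool.Agent.SKP
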