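import Pool.Agent.Work.MP_adbfe6_an.SK.Mix

/-!
Intrinsic description of the stable leaves.
-/

set_option autoImplicit false
set_option linter.unusedSectionVars false
set_option linter.style.haveILetI false

open Filter Topology MeasureTheory
open scoped ENNReal NNReal

namespace Pool.Agent.SKP

namespace Side

variable {B W N : Type} [NormedAddCommGroup B] [CompactSpace B]
  [NormedAddCommGroup W] [MetricSpace N] [CompactSpace N] (D : Side B W N)

theorem F_iter (n : ℕ) (x : B) (z : N) : D.F^[n] (x, z) = (D.A^[n] x, D.G n x z) := by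
  induction n with
  | zero => rw [G_zero]; rfl
  | succ n ih =>
    rw [Function.iterate_succ_apply', ih, G_succ, Function.iterate_succ_apply']
    rfl

theorem F_iter_T (n : ℕ) (v : W) (p : B × N) :
    D.F^[n] (D.T v p) = D.T (D.L^[n] v) (D.F^[n] p) := by
  induction n with
  | zero => rfl
  | succ n ih =>
    rw [Function.iterate_succ_apply', ih, D.F_T, ← Function.iterate_succ_apply' D.F,
      ← Function.iterate_succ_apply' D.L]

theorem dist_T (v : W) (p : B × N) :
    dist p (D.T v p) ≤ (1 + D.Q * D.k1 * D.K * |D.C| / (1 - D.r)) * ‖v‖ := by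
  have hr : 0 < 1 - D.r := by have := D.dom; unfold r; linarith
  have h0 : 0 ≤ D.Q * D.k1 * D.K :=
    mul_nonneg (mul_nonneg D.Q_nonneg D.k1_nonneg) D.K_nonneg
  have h1 : dist p.1 (p.1 + D.j v) ≤ ‖v‖ := by
    rw [dist_self_add_right]; exact D.j_le v
  have h2 : dist p.2 (D.S v p.1 p.2) ≤ D.Q * D.k1 * D.K * |D.C| / (1 - D.r) * ‖v‖ := by
    refine (D.dist_S v p.1 p.2).trans ?_
    unfold K'
    rw [div_mul_eq_mul_div]
    apply div_le_div_of_nonneg_right _ hr.le
    rw [mul_assoc (D.Q * D.k1 * D.K)]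
    apply mul_le_mul_of_nonneg_left _ h0
    exact mul_le_mul_of_nonneg_right (le_abs_self _) (norm_nonneg _)
  have h3 : 0 ≤ D.Q * D.k1 * D.K * |D.C| / (1 - D.r) * ‖v‖ := by positivity
  rw [Prod.dist_eq]
  refine max_le ?_ ?_
  · calc dist p.1 (D.T v p).1 ≤ ‖v‖ := h1
      _ ≤ _ := by rw [add_mul, one_mul]; linarith
  · calc dist p.2 (D.T v p).2 ≤ _ := h2
      _ ≤ _ := by rw [add_mul, one_mul]; have := norm_nonneg v; linarith

theorem dist_iter_T (v : W) (p : B × N) :
    ∃ c : ℝ, ∀ n, dist (D.F^[n] p) (D.F^[n] (D.T v p)) ≤ c * D.μ ^ n := by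
  refine ⟨(1 + D.Q * D.k1 * D.K * |D.C| / (1 - D.r)) * (|D.C| * ‖v‖), fun n => ?_⟩
  have hr : 0 < 1 - D.r := by have := D.dom; unfold r; linarith
  have h0 : 0 ≤ D.Q * D.k1 * D.K :=
    mul_nonneg (mul_nonneg D.Q_nonneg D.k1_nonneg) D.K_nonneg
  have h4 : 0 ≤ 1 + D.Q * D.k1 * D.K * |D.C| / (1 - D.r) := by positivity
  rw [D.F_iter_T]
  refine (D.dist_T _ _).trans ?_
  calc (1 + D.Q * D.k1 * D.K * |D.C| / (1 - D.r)) * ‖D.L^[n] v‖
      ≤ (1 + D.Q * D.k1 * D.K * |D.C| / (1 - D.r)) * (|D.C| * D.μ ^ n * ‖v‖) := by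
        apply mul_le_mul_of_nonneg_left _ h4
        refine (D.contr n v).trans ?_
        apply mul_le_mul_of_nonneg_right _ (norm_nonneg _)
        exact mul_le_mul_of_nonneg_right (le_abs_self _) (pow_nonneg D.μ_nonneg n)
    _ = _ := by ring

/-- two points over the same base point which approach each other at rate `μ` are equal -/
theorem eq_of_iter {p q : B × N} (h1 : p.1 = q.1)
    (h : ∃ c : ℝ, ∀ n, dist (D.F^[n] p) (D.F^[n] q) ≤ c * D.μ ^ n) : p = q := by
  obtain ⟨c, hc⟩ := h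
  obtain ⟨x, z⟩ := p
  obtain ⟨y, w⟩ := q
  simp only at h1
  subst h1
  have h2 : ∀ n : ℕ, dist z w ≤ D.Q * c * D.r ^ n := by
    intro n
    have h3 := hc n
    rw [D.F_iter, D.F_iter] at h3
    have h4 : dist (D.G n x z) (D.G n x w) ≤ c * D.μ ^ n := (le_max_right _ _).trans h3
    have h5 := D.G_symm_lip n x (D.G n x z) (D.G n x w)
    rw [Homeomorph.symm_apply_apply, Homeomorph.symm_apply_apply] at h5
    calc dist z w ≤ D.Q * D.κ ^ n * dist (D.G n x z) (D.G n x w) := h5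
      _ ≤ D.Q * D.κ ^ n * (c * D.μ ^ n) :=
        mul_le_mul_of_nonneg_left h4 (mul_nonneg D.Q_nonneg (pow_nonneg D.κ_nonneg n))
      _ = _ := by unfold r; rw [mul_pow]; ring
  have h3 : Tendsto (fun n : ℕ => D.Q * c * D.r ^ n) atTop (𝓝 0) := by
    have h0 := tendsto_pow_atTop_nhds_zero_of_lt_one D.r_nonneg D.dom
    have := h0.const_mul (D.Q * c)
    simpa using this
  have h4 : dist z w ≤ 0 := ge_of_tendsto' h3 h2
  rw [dist_le_zero.1 h4]

/-- **Intrinsic description of the leaf.** -/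
theorem eq_T_iff (v : W) (p q : B × N) (hq : q.1 = p.1 + D.j v) :
    q = D.T v p ↔ ∃ c : ℝ, ∀ n, dist (D.F^[n] p) (D.F^[n] q) ≤ c * D.μ ^ n := by
  constructor
  · rintro rfl
    exact D.dist_iter_T v p
  · rintro ⟨c, hc⟩
    obtain ⟨c', hc'⟩ := D.dist_iter_T v p
    refine D.eq_of_iter hq ⟨c + c', fun n => ?_⟩
    calc dist (D.F^[n] q) (D.F^[n] (D.T v p))
        ≤ dist (D.F^[n] q) (D.F^[n] p) + dist (D.F^[n] p) (D.F^[n] (D.T v p)) :=
          dist_triangle _ _ _
      _ ≤ c * D.μ ^ n + c' * D.μ ^ n := by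
          refine add_le_add ?_ (hc' n)
          rw [dist_comm]; exact hc n
      _ = _ := by ring

end Side

end Pool.Agent.SKP
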