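import Pool.Agent.Work.MP_adbfe6_an.SK.DensL
import Pool.Agent.Work.MP_adbfe6_an.SK.Defs

/-!
Lacunary density points are preserved by homeomorphisms which are Lipschitz level by level.
-/

set_option autoImplicit false
set_option linter.unusedSectionVars false
set_option linter.style.haveILetI false

open Filter Topology MeasureTheory Metric
open scoped ENNReal NNReal

namespace Pool.Agent.SKP

theorem UnifDoubling.inst {N : Type} [MetricSpace N] [MeasurableSpace N] {ν : Measure N}
    (h : UnifDoubling ν) : IsUnifLocDoublingMeasure ν := by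
  obtain ⟨C, hC⟩ := h
  refine ⟨⟨C, ?_⟩⟩
  filter_upwards [self_mem_nhdsWithin] with r hr x
  exact hC x x r hr

theorem UnifDoubling.cb_le {N : Type} [MetricSpace N] [MeasurableSpace N] {ν : Measure N}
    [IsProbabilityMeasure ν] (h : UnifDoubling ν) (c : ℕ) :
    ∃ C : ℝ, 0 ≤ C ∧ ∀ (x y : N) (t : ℕ), ν.real (cb x t) ≤ C * ν.real (cb y (t + c)) := by
  obtain ⟨C, hC⟩ := h
  have h1 : ∀ (x y : N) (t : ℕ), ν.real (cb x t) ≤ C * ν.real (cb y (t + 1)) := by
    intro x y t
    have h2 := hC x y ((1 / 2 : ℝ) ^ (t + 1)) (by positivity)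
    have h3 : 2 * (1 / 2 : ℝ) ^ (t + 1) = (1 / 2 : ℝ) ^ t := by
      rw [pow_succ]; ring
    rw [h3] at h2
    have h4 := ENNReal.toReal_mono (ENNReal.mul_ne_top ENNReal.coe_ne_top (measure_ne_top _ _)) h2
    rw [ENNReal.toReal_mul, ENNReal.coe_toReal] at h4
    exact h4
  have h5 : ∀ (c : ℕ) (x y : N) (t : ℕ), ν.real (cb x t) ≤ C ^ (c + 1) *
      ν.real (cb y (t + (c + 1))) := by
    intro c
    induction c with
    | zero => intro x y t; simpa using h1 x y t
    | succ c ih =>
      intro x y t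
      calc ν.real (cb x t) ≤ C ^ (c + 1) * ν.real (cb y (t + (c + 1))) := ih x y t
        _ ≤ C ^ (c + 1) * (C * ν.real (cb y (t + (c + 1) + 1))) :=
            mul_le_mul_of_nonneg_left (h1 _ _ _) (by positivity)
        _ = _ := by rw [pow_succ (C : ℝ) (c + 1)]; ring_nf
  refine ⟨(C : ℝ) ^ (c + 1), by positivity, fun x y t => (h5 c x y t).trans ?_⟩
  refine mul_le_mul_of_nonneg_left ?_ (by positivity)
  refine ENNReal.toReal_mono (measure_ne_top _ _) (measure_mono ?_)
  refine closedBall_subset_closedBall ?_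
  exact pow_le_pow_of_le_one (by norm_num) (by norm_num) (by omega)

variable {k : ℕ} {N : Fin k → Type} [∀ i, MetricSpace (N i)]

/-- Level by level, `h` does not contract distances to a point `z` by more than a constant factor
(which may depend on `z`): if `w` and `z` agree in the levels below `i`, then
`dist (w i) (z i) ≤ L * dist (h w i) (h z i)`. -/
def LowLip (h : (∀ i, N i) → (∀ i, N i)) : Prop :=
  ∀ z : ∀ i, N i, ∃ L : ℝ, ∀ (i : Fin k) (w : ∀ i, N i), (∀ j < i, w j = z j) →
    dist (w i) (z i) ≤ L * dist (h w i) (h z i)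

theorem agree_below {h : (∀ i, N i) ≃ₜ (∀ i, N i)} {z : ∀ i, N i} {L : ℝ}
    (hL : ∀ (i : Fin k) (w : ∀ i, N i), (∀ j < i, w j = z j) →
      dist (w i) (z i) ≤ L * dist (h w i) (h z i))
    {w : ∀ i, N i} {i : Fin k} (hw : ∀ j < i, h w j = h z j) : ∀ j < i, w j = z j := by
  intro j
  induction j using WellFoundedLT.induction with
  | ind j ih =>
    intro hj
    have h1 := hL j w (fun j' hj' => ih j' hj' (hj'.trans hj))
    rw [hw j hj, dist_self, mul_zero] at h1
    exact dist_le_zero.1 h1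

variable [∀ i, CompactSpace (N i)] [∀ i, MeasurableSpace (N i)] [∀ i, BorelSpace (N i)]
  (ν : ∀ i, Measure (N i)) [∀ i, IsProbabilityMeasure (ν i)]

/-- lacunary density points -/
def Dn (X : Set (∀ i, N i)) : Set (∀ i, N i) :=
  {z | ∀ j : ℕ, ∀ᶠ n in Lf k, (Measure.pi ν).real (box z n \ X)
    ≤ (1 / ((j : ℝ) + 1)) * (Measure.pi ν).real (box z n)}

theorem Dn_ae [∀ i, (ν i).IsOpenPosMeasure] [∀ i, IsUnifLocDoublingMeasure (ν i)]
    {X : Set (∀ i, N i)} (hX : MeasurableSet X) : Dn ν X =ᵐ[Measure.pi ν] X := by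
  set u : (∀ i, N i) → ℝ := Xᶜ.indicator (fun _ => (1 : ℝ)) with hu
  have hum : Measurable u := measurable_const.indicator hX.compl
  have hub : ∀ z, |u z| ≤ 1 := by
    intro z
    rw [abs_of_nonneg (Set.indicator_nonneg (fun _ _ => zero_le_one) _)]
    exact Set.indicator_le_self' (fun _ _ => zero_le_one) _
  have hav : ∀ z n, av ν u z n
      = (Measure.pi ν).real (box z n \ X) / (Measure.pi ν).real (box z n) := by
    intro z n
    unfold av
    congr 1
    rw [hu, integral_indicator hX.compl, Measure.restrict_restrict hX.compl]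
    simp only [integral_const, smul_eq_mul, mul_one]
    rw [measureReal_restrict_apply_univ, Set.inter_comm]
    rfl
  haveI := Lf_neBot k
  filter_upwards [diff_k k N ν u hum hub] with z hz
  apply propext
  show z ∈ Dn ν X ↔ z ∈ X
  have hz' : Tendsto (fun n => (Measure.pi ν).real (box z n \ X) /
      (Measure.pi ν).real (box z n)) (Lf k) (𝓝 (u z)) := by
    refine hz.congr (fun n => hav z n)
  by_cases hzX : z ∈ X
  · refine iff_of_true ?_ hzX
    have hzc : z ∉ Xᶜ := fun h => h hzX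
    have h0 : u z = 0 := Set.indicator_of_notMem hzc _
    rw [h0] at hz'
    intro j
    filter_upwards [hz'.eventually (gt_mem_nhds (show (0 : ℝ) < 1 / ((j : ℝ) + 1) by positivity))]
      with n hn
    have hb := box_pos ν z n
    rw [div_lt_iff₀ hb] at hn
    exact hn.le
  · refine iff_of_false ?_ hzX
    have h1 : u z = 1 := Set.indicator_of_mem hzX _
    rw [h1] at hz'
    intro hD
    have h2 := hz'.eventually (lt_mem_nhds (show (3 / 4 : ℝ) < 1 by norm_num))
    obtain ⟨n, hn1, hn2⟩ := (h2.and (hD 1)).exists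
    have hb := box_pos ν z n
    rw [lt_div_iff₀ hb] at hn1
    norm_num at hn2
    linarith

theorem Dn_map [∀ i, (ν i).IsOpenPosMeasure] (hν : ∀ i, UnifDoubling (ν i))
    {X : Set (∀ i, N i)} (hX : MeasurableSet X) {h : (∀ i, N i) ≃ₜ (∀ i, N i)}
    (hlow : LowLip (h : (∀ i, N i) → (∀ i, N i)))
    (hmp : MeasurePreserving h (Measure.pi ν) (Measure.pi ν))
    (hinv : h ⁻¹' X =ᵐ[Measure.pi ν] X) {z : ∀ i, N i} (hz : z ∈ Dn ν X) : h z ∈ Dn ν X := by
  obtain ⟨L, hL⟩ := hlow z
  obtain ⟨m, hm⟩ := pow_unbounded_of_one_lt L (one_lt_two : (1 : ℝ) < 2)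
  choose C hC0 hC using fun i => (hν i).cb_le (m + 1)
  -- uniform continuity of the inverse
  have huc : UniformContinuous h.symm :=
    CompactSpace.uniformContinuous_of_continuous h.symm.continuous
  rw [Metric.uniformContinuous_iff] at huc
  have hδ : ∀ t : ℕ, ∃ p : ℕ, ∀ a b : ∀ i, N i, dist a b ≤ (1 / 2 : ℝ) ^ p →
      dist (h.symm a) (h.symm b) < 2 ^ m * (1 / 2 : ℝ) ^ t := by
    intro t
    obtain ⟨δ, hδ, hδ2⟩ := huc (2 ^ m * (1 / 2 : ℝ) ^ t) (by positivity)
    obtain ⟨p, hp⟩ := exists_pow_lt_of_lt_one hδ (show (1 / 2 : ℝ) < 1 by norm_num)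
    exact ⟨p, fun a b hab => hδ2 (lt_of_le_of_lt hab hp)⟩
  choose Ψ₀ hΨ₀ using hδ
  set Ψ : ℕ → ℕ := fun t => max (Ψ₀ t) (m + 1) with hΨ
  -- inclusion of boxes
  have hincl : ∀ n : Fin k → ℕ, ((∀ i, Ψ 0 ≤ n i) ∧ ∀ i j : Fin k, j < i → Ψ (n i) ≤ n j) →
      h ⁻¹' (box (h z) n) ⊆ box z (fun i => n i - (m + 1)) := by
    rintro n ⟨hn0, hn⟩ w hw
    rw [Set.mem_preimage, mem_box] at hw
    rw [mem_box]
    intro i
    set y' : ∀ i, N i := fun j => if j < i then h z j else h w j with hy'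
    have hd : dist (h w) y' ≤ (1 / 2 : ℝ) ^ Ψ₀ (n i) := by
      rw [dist_pi_le_iff (by positivity)]
      intro j
      by_cases hj : j < i
      · simp only [hy', hj, if_true]
        refine (hw j).trans ?_
        refine pow_le_pow_of_le_one (by norm_num) (by norm_num) ?_
        exact (le_max_left _ _).trans (hn i j hj)
      · simp only [hy', hj, if_false, dist_self]
        positivity
    have hd2 := hΨ₀ (n i) _ _ hd
    rw [Homeomorph.symm_apply_apply] at hd2
    set w' := h.symm y' with hw'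
    have e1 : h w' = y' := h.apply_symm_apply _
    have hagree : ∀ j < i, w' j = z j := by
      refine agree_below hL (fun j hj => ?_)
      rw [e1]
      simp only [hy', hj, if_true]
    have hd3 : dist (w' i) (z i) ≤ 2 ^ m * (1 / 2 : ℝ) ^ n i := by
      have h1 := hL i w' hagree
      have h2 : h w' i = h w i := by
        rw [e1]
        simp only [hy', lt_irrefl, if_false]
      rw [h2] at h1
      calc dist (w' i) (z i) ≤ L * dist (h w i) (h z i) := h1
        _ ≤ 2 ^ m * dist (h w i) (h z i) := mul_le_mul_of_nonneg_right hm.le dist_nonneg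
        _ ≤ 2 ^ m * (1 / 2 : ℝ) ^ n i := mul_le_mul_of_nonneg_left (hw i) (by positivity)
    have hd4 : dist (w i) (w' i) ≤ 2 ^ m * (1 / 2 : ℝ) ^ n i :=
      (dist_le_pi_dist w w' i).trans hd2.le
    have hni : m + 1 ≤ n i := (le_max_right _ _).trans (hn0 i)
    obtain ⟨t, ht⟩ := Nat.exists_eq_add_of_le hni
    have e3 : (1 / 2 : ℝ) ^ (n i - (m + 1)) = 2 * (2 ^ m * (1 / 2 : ℝ) ^ n i) := by
      rw [ht, Nat.add_sub_cancel_left, pow_add, pow_succ, ← mul_assoc, ← mul_assoc, ← mul_assoc,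
        mul_assoc 2, ← mul_pow]
      norm_num
    rw [e3]
    calc dist (w i) (z i) ≤ dist (w i) (w' i) + dist (w' i) (z i) := dist_triangle _ _ _
      _ ≤ 2 ^ m * (1 / 2 : ℝ) ^ n i + 2 ^ m * (1 / 2 : ℝ) ^ n i := add_le_add hd4 hd3
      _ = _ := by ring
  -- measures
  set Ct : ℝ := ∏ i, C i with hCt
  have hCt0 : 0 ≤ Ct := Finset.prod_nonneg (fun i _ => hC0 i)
  have hmeas : ∀ n : Fin k → ℕ, (∀ i, m + 1 ≤ n i) →
      (Measure.pi ν).real (box z (fun i => n i - (m + 1)))
        ≤ Ct * (Measure.pi ν).real (box (h z) n) := by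
    intro n hn
    rw [box_real, box_real, hCt, ← Finset.prod_mul_distrib]
    refine Finset.prod_le_prod (fun i _ => measureReal_nonneg) (fun i _ => ?_)
    have := hC i (z i) (h z i) (n i - (m + 1))
    rwa [Nat.sub_add_cancel (hn i)] at this
  intro j'
  obtain ⟨j, hj⟩ := exists_nat_ge (Ct * ((j' : ℝ) + 1))
  have h1 := (tendsto_shift k (m + 1)).eventually (hz j)
  filter_upwards [h1, ev_lac Ψ k] with n hn1 hn2
  have hn0 : ∀ i, m + 1 ≤ n i := fun i => (le_max_right _ _).trans (hn2.1 i)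
  set R := box (h z) n with hR
  set R' := box z (fun i => n i - (m + 1)) with hR'
  have hnum : (Measure.pi ν).real (R \ X) ≤ (Measure.pi ν).real (R' \ X) := by
    refine ENNReal.toReal_mono (measure_ne_top _ _) ?_
    calc (Measure.pi ν) (R \ X) = (Measure.pi ν) (h ⁻¹' (R \ X)) :=
          (hmp.measure_preimage ((box_meas _ _).diff hX).nullMeasurableSet).symm
      _ = (Measure.pi ν) (h ⁻¹' R \ h ⁻¹' X) := by rw [Set.preimage_sdiff]
      _ = (Measure.pi ν) (h ⁻¹' R \ X) := by
          refine measure_congr ?_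
          exact (ae_eq_refl _).diff hinv
      _ ≤ (Measure.pi ν) (R' \ X) :=
          measure_mono (Set.sdiff_subset_sdiff_left (hincl n hn2))
  have hε : (1 / ((j : ℝ) + 1)) * Ct ≤ 1 / ((j' : ℝ) + 1) := by
    rw [div_mul_eq_mul_div, one_mul, div_le_div_iff₀ (by positivity) (by positivity)]
    linarith
  calc (Measure.pi ν).real (R \ X) ≤ (Measure.pi ν).real (R' \ X) := hnum
    _ ≤ (1 / ((j : ℝ) + 1)) * (Measure.pi ν).real R' := hn1
    _ ≤ (1 / ((j : ℝ) + 1)) * (Ct * (Measure.pi ν).real R) :=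
        mul_le_mul_of_nonneg_left (hmeas n hn0) (by positivity)
    _ = ((1 / ((j : ℝ) + 1)) * Ct) * (Measure.pi ν).real R := by ring
    _ ≤ (1 / ((j' : ℝ) + 1)) * (Measure.pi ν).real R :=
        mul_le_mul_of_nonneg_right hε measureReal_nonneg

end Pool.Agent.SKP
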