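import Pool.Agent.Work.MP_adbfe6_an.SK.Meas

/-!
Mollification along a family of fibre maps; continuity of the fibre densities.
-/

set_option autoImplicit false
set_option linter.unusedSectionVars false
set_option linter.style.haveILetI false

open Filter Topology MeasureTheory
open scoped ENNReal NNReal

namespace Pool.Agent.SKP

/-- two functions with values in `[0,1]` with the same integrals against continuous functions. -/
theorem ae_eq_of_integral_continuous {N : Type} [MetricSpace N] [CompactSpace N]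
    [MeasurableSpace N] [BorelSpace N] {ν : Measure N} [IsProbabilityMeasure ν]
    {u₁ u₂ : N → ℝ} (h₁ : Measurable u₁) (h₂ : Measurable u₂)
    (h₁0 : ∀ z, 0 ≤ u₁ z) (h₁1 : ∀ z, u₁ z ≤ 1) (h₂0 : ∀ z, 0 ≤ u₂ z) (h₂1 : ∀ z, u₂ z ≤ 1)
    (h : ∀ φ : C(N, ℝ), ∫ z, u₁ z * φ z ∂ν = ∫ z, u₂ z * φ z ∂ν) : u₁ =ᵐ[ν] u₂ := by
  have key : ∀ u : N → ℝ, Measurable u → (∀ z, 0 ≤ u z) → (∀ z, u z ≤ 1) →
      IsFiniteMeasure (ν.withDensity (fun z => ((u z).toNNReal : ℝ≥0∞))) ∧
      (∀ f : BoundedContinuousFunction N ℝ,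
        ∫ z, f z ∂(ν.withDensity (fun z => ((u z).toNNReal : ℝ≥0∞))) = ∫ z, u z * f z ∂ν) := by
    intro u hu h0 h1
    constructor
    · apply isFiniteMeasure_withDensity
      apply ne_of_lt
      calc ∫⁻ z, ((u z).toNNReal : ℝ≥0∞) ∂ν ≤ ∫⁻ _, 1 ∂ν := by
            apply lintegral_mono
            intro z
            have : (u z).toNNReal ≤ 1 := by
              rw [Real.toNNReal_le_one]; exact h1 z
            show ((u z).toNNReal : ℝ≥0∞) ≤ 1
            exact_mod_cast this
        _ = 1 := by simp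
        _ < ⊤ := ENNReal.one_lt_top
    · intro f
      rw [integral_withDensity_eq_integral_smul (hu.real_toNNReal)]
      apply integral_congr_ae
      refine Eventually.of_forall (fun z => ?_)
      simp only [NNReal.smul_def, Real.coe_toNNReal _ (h0 z), smul_eq_mul]
  obtain ⟨hf1, hi1⟩ := key u₁ h₁ h₁0 h₁1
  obtain ⟨hf2, hi2⟩ := key u₂ h₂ h₂0 h₂1
  have hμ : ν.withDensity (fun z => ((u₁ z).toNNReal : ℝ≥0∞))
      = ν.withDensity (fun z => ((u₂ z).toNNReal : ℝ≥0∞)) := by
    refine ext_of_forall_integral_eq_of_IsFiniteMeasure (fun f => ?_)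
    rw [hi1, hi2]
    exact h f.toContinuousMap
  have h3 := (withDensity_eq_iff_of_sigmaFinite
    (h₁.real_toNNReal.coe_nnreal_ennreal.aemeasurable)
    (h₂.real_toNNReal.coe_nnreal_ennreal.aemeasurable)).1 hμ
  filter_upwards [h3] with z hz
  have hz' : (u₁ z).toNNReal = (u₂ z).toNNReal := by exact_mod_cast hz
  have := congrArg (fun t : ℝ≥0 => (t : ℝ)) hz'
  simpa only [Real.coe_toNNReal _ (h₁0 z), Real.coe_toNNReal _ (h₂0 z)] using this

/-- a family of fibre maps over the translations `π y` of `B` -/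
structure Bun (V B N : Type) [NormedAddCommGroup V] [NormedAddCommGroup B]
    [MetricSpace N] where
  π : V →+ B
  π_cont : Continuous π
  π_surj : Function.Surjective π
  Sg : V → B → N → N
  Sgi : V → B → N → N
  Sg_cont : Continuous (fun q : V × B × N => Sg q.1 q.2.1 q.2.2)
  Sgi_cont : Continuous (fun q : V × B × N => Sgi q.1 q.2.1 q.2.2)
  left : ∀ y x z, Sgi y x (Sg y x z) = z
  right : ∀ y x z, Sg y x (Sgi y x z) = z

namespace Bun

variable {V B N : Type} [NormedAddCommGroup V] [NormedSpace ℝ V] [FiniteDimensional ℝ V]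
  [MeasurableSpace V] [BorelSpace V]
  [NormedAddCommGroup B] [CompactSpace B] [MeasurableSpace B] [BorelSpace B]
  [MetricSpace N] [CompactSpace N] [MeasurableSpace N] [BorelSpace N]
  (P : Bun V B N) (m : Measure V) [m.IsAddHaarMeasure]
  (lam : Measure B) [IsProbabilityMeasure lam] [lam.IsAddLeftInvariant]
  (ν : Measure N) [IsProbabilityMeasure ν]

/-- a property true almost everywhere on `B` is true almost everywhere on `V` -/
theorem ae_lift {p : B → Prop} (h : ∀ᵐ x ∂lam, p x) : ∀ᵐ y ∂m, p (P.π y) := by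
  obtain ⟨Q, hQs, hQm, hQ0⟩ := exists_measurable_superset_of_null (ae_iff.1 h)
  haveI : SecondCountableTopology V := inferInstance
  -- the set in the product
  have hmeas : MeasurableSet {q : B × V | P.π q.2 + q.1 ∈ Q} := by
    have : Continuous (fun q : B × V => P.π q.2 + q.1) :=
      (P.π_cont.comp continuous_snd).add continuous_fst
    exact this.measurable hQm
  have h0 : (m.prod lam) {q : V × B | P.π q.1 + q.2 ∈ Q} = 0 := by
    have hm2 : MeasurableSet {q : V × B | P.π q.1 + q.2 ∈ Q} := by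
      have : Continuous (fun q : V × B => P.π q.1 + q.2) :=
        (P.π_cont.comp continuous_fst).add continuous_snd
      exact this.measurable hQm
    rw [Measure.measure_prod_null hm2]
    refine Eventually.of_forall (fun y => ?_)
    have : (Prod.mk y ⁻¹' {q : V × B | P.π q.1 + q.2 ∈ Q}) = (fun x => P.π y + x) ⁻¹' Q := rfl
    simp only [this, measure_preimage_add, hQ0, Pi.zero_apply]
  have h1 : ∀ᵐ x ∂lam, m {y | P.π y + x ∈ Q} = 0 := by
    have h2 : (lam.prod m) {q : B × V | P.π q.2 + q.1 ∈ Q} = 0 := by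
      have h3 := Measure.prod_swap (μ := m) (ν := lam)
      rw [← h3, Measure.map_apply measurable_swap hmeas]
      exact h0
    have h4 := (Measure.measure_prod_null hmeas).1 h2
    filter_upwards [h4] with x hx
    exact hx
  obtain ⟨x, hx⟩ := h1.exists
  obtain ⟨y₀, rfl⟩ := P.π_surj x
  rw [ae_iff]
  have h5 : m {y | P.π y ∈ Q} = 0 := by
    have h6 : {y | P.π y + P.π y₀ ∈ Q} = (fun y => y + y₀) ⁻¹' {y | P.π y ∈ Q} := by
      ext y
      simp only [Set.mem_ofPred_eq, Set.mem_preimage, map_add]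
    rw [h6, measure_preimage_add_right] at hx
    exact hx
  refine measure_mono_null (fun y hy => ?_) h5
  exact hQs hy

/-- the mollified density -/
noncomputable def e (ρ : V → ℝ) (E : B × N → ℝ) (x : B) (z : N) : ℝ :=
  ∫ y, ρ y * E (x + P.π y, P.Sg y x z) ∂m

section

variable {ρ : V → ℝ} (hρ : Continuous ρ) (hρc : HasCompactSupport ρ) (hρ0 : ∀ y, 0 ≤ ρ y)
  (hρ1 : ∫ y, ρ y ∂m = 1) {E : B × N → ℝ} (hE : Measurable E) (hE0 : ∀ p, 0 ≤ E p)
  (hE1 : ∀ p, E p ≤ 1)

include hρ hρc in
theorem ρ_int : Integrable ρ m := hρ.integrable_of_hasCompactSupport hρc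

include hρ hE in
theorem integrand_meas : Measurable (fun q : (B × N) × V =>
    ρ q.2 * E (q.1.1 + P.π q.2, P.Sg q.2 q.1.1 q.1.2)) := by
  refine (hρ.measurable.comp measurable_snd).mul (hE.comp ?_)
  have h1 : Continuous (fun q : (B × N) × V => q.1.1 + P.π q.2) :=
    (continuous_fst.comp continuous_fst).add (P.π_cont.comp continuous_snd)
  have h2 : Continuous (fun q : (B × N) × V => P.Sg q.2 q.1.1 q.1.2) :=
    P.Sg_cont.comp (continuous_snd.prodMk
      ((continuous_fst.comp continuous_fst).prodMk (continuous_snd.comp continuous_fst)))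
  exact h1.measurable.prodMk h2.measurable

include hρ hE in
theorem e_meas : Measurable (fun p : B × N => P.e m ρ E p.1 p.2) := by
  have := (P.integrand_meas hρ hE).stronglyMeasurable.integral_prod_right' (ν := m)
  exact this.measurable

include hρ hρc hρ0 hρ1 hE hE0 hE1 in
theorem e_bounds (x : B) (z : N) : 0 ≤ P.e m ρ E x z ∧ P.e m ρ E x z ≤ 1 := by
  constructor
  · exact integral_nonneg (fun y => mul_nonneg (hρ0 y) (hE0 _))
  · rw [← hρ1]
    refine integral_mono_of_nonneg (Eventually.of_forall (fun y => mul_nonneg (hρ0 y) (hE0 _)))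
      (ρ_int m hρ hρc) (Eventually.of_forall (fun y => ?_))
    have := mul_le_mul_of_nonneg_left (hE1 (x + P.π y, P.Sg y x z)) (hρ0 y)
    simpa using this

include hρ hρc hρ1 hE in
/-- if `E` is invariant under the bundle maps then the mollification is `E` -/
theorem e_ae_eq (hinv : ∀ y, ∀ᵐ p ∂(lam.prod ν), E (p.1 + P.π y, P.Sg y p.1 p.2) = E p) :
    ∀ᵐ p ∂(lam.prod ν), P.e m ρ E p.1 p.2 = E p := by
  have hms : MeasurableSet {q : V × (B × N) |
      E (q.2.1 + P.π q.1, P.Sg q.1 q.2.1 q.2.2) = E q.2} := by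
    refine measurableSet_eq_fun (hE.comp ?_) (hE.comp measurable_snd)
    have h1 : Continuous (fun q : V × (B × N) => q.2.1 + P.π q.1) :=
      (continuous_fst.comp continuous_snd).add (P.π_cont.comp continuous_fst)
    exact h1.measurable.prodMk P.Sg_cont.measurable
  have h1 : ∀ᵐ q ∂(m.prod (lam.prod ν)),
      E (q.2.1 + P.π q.1, P.Sg q.1 q.2.1 q.2.2) = E q.2 := by
    rw [Measure.ae_prod_iff_ae_ae hms]
    exact Eventually.of_forall hinv
  have h2 : ∀ᵐ q ∂((lam.prod ν).prod m),
      E (q.1.1 + P.π q.2, P.Sg q.2 q.1.1 q.1.2) = E q.1 := by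
    have h3 := Measure.prod_swap (μ := m) (ν := lam.prod ν)
    have hms2 : MeasurableSet {q : (B × N) × V |
        E (q.1.1 + P.π q.2, P.Sg q.2 q.1.1 q.1.2) = E q.1} := measurable_swap hms
    rw [← h3]
    exact (ae_map_iff measurable_swap.aemeasurable hms2).2 h1
  have h4 := Measure.ae_ae_of_ae_prod h2
  filter_upwards [h4] with p hp
  unfold e
  have : ∫ y, ρ y * E (p.1 + P.π y, P.Sg y p.1 p.2) ∂m = ∫ y, ρ y * E p ∂m := by
    apply integral_congr_ae
    filter_upwards [hp] with y hy
    rw [hy]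
  rw [this, integral_mul_const, hρ1, one_mul]

/-- a bounded function on `V × N` pulled to the fibre over `π x`, first form -/
noncomputable def J (E : B × N → ℝ) (φ : C(N, ℝ)) (x y : V) : ℝ :=
  ∫ z, E (P.π y, z) * φ (P.Sgi (y - x) (P.π x) z) ∂ν

theorem abs_le_norm (φ : C(N, ℝ)) (z : N) : |φ z| ≤ ‖φ‖ := by
  rw [← Real.norm_eq_abs]
  exact φ.norm_coe_le_norm z

include hE hE0 hE1 in
theorem J_cont (φ : C(N, ℝ)) (y : V) : Continuous (fun x => P.J ν E φ x y) := by
  unfold J
  refine continuous_of_dominated (bound := fun _ => ‖φ‖) ?_ ?_ (integrable_const _) ?_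
  · intro x
    refine Measurable.aestronglyMeasurable ?_
    refine (hE.comp (measurable_const.prodMk measurable_id)).mul ?_
    refine φ.continuous.measurable.comp ?_
    exact (P.Sgi_cont.comp (continuous_const.prodMk
      (continuous_const.prodMk continuous_id))).measurable
  · intro x
    refine Eventually.of_forall (fun z => ?_)
    rw [norm_mul, Real.norm_eq_abs, Real.norm_eq_abs, abs_of_nonneg (hE0 _)]
    calc E (P.π y, z) * |φ (P.Sgi (y - x) (P.π x) z)|
        ≤ 1 * ‖φ‖ := mul_le_mul (hE1 _) (abs_le_norm φ _) (abs_nonneg _) zero_le_one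
      _ = ‖φ‖ := one_mul _
  · refine Eventually.of_forall (fun z => ?_)
    refine continuous_const.mul (φ.continuous.comp ?_)
    exact P.Sgi_cont.comp ((continuous_const.sub continuous_id).prodMk
      (P.π_cont.prodMk continuous_const))

include hE hE0 hE1 in
theorem J_abs (φ : C(N, ℝ)) (x y : V) : |P.J ν E φ x y| ≤ ‖φ‖ := by
  unfold J
  rw [← Real.norm_eq_abs]
  have := norm_integral_le_of_norm_le_const (μ := ν) (C := ‖φ‖)
    (f := fun z => E (P.π y, z) * φ (P.Sgi (y - x) (P.π x) z)) (Eventually.of_forall (fun z => by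
      rw [norm_mul, Real.norm_eq_abs, Real.norm_eq_abs, abs_of_nonneg (hE0 _)]
      calc E (P.π y, z) * |φ (P.Sgi (y - x) (P.π x) z)|
          ≤ 1 * ‖φ‖ := mul_le_mul (hE1 _) (abs_le_norm φ _) (abs_nonneg _) zero_le_one
        _ = ‖φ‖ := one_mul _))
  simpa using this

include hE in
theorem J_meas (φ : C(N, ℝ)) (x : V) : Measurable (fun y => P.J ν E φ x y) := by
  unfold J
  have h : StronglyMeasurable (fun q : V × N => E (P.π q.1, q.2) *
      φ (P.Sgi (q.1 - x) (P.π x) q.2)) := by
    refine Measurable.stronglyMeasurable ?_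
    refine (hE.comp ((P.π_cont.measurable.comp measurable_fst).prodMk measurable_snd)).mul ?_
    refine φ.continuous.measurable.comp ?_
    exact (P.Sgi_cont.comp ((continuous_fst.sub continuous_const).prodMk
      (continuous_const.prodMk continuous_snd))).measurable
  exact (h.integral_prod_right' (ν := ν)).measurable

include hρ hρc hE hE0 hE1 in
/-- the formula for the fibre integrals -/
theorem integral_e (hmp : ∀ y x, MeasurePreserving (P.Sg y x) ν ν) (φ : C(N, ℝ)) (x : V) :
    ∫ z, P.e m ρ E (P.π x) z * φ z ∂ν = ∫ y, ρ (y - x) * P.J ν E φ x y ∂m := by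
  have h1 : ∫ z, P.e m ρ E (P.π x) z * φ z ∂ν
      = ∫ z, ∫ y, ρ y * E (P.π x + P.π y, P.Sg y (P.π x) z) * φ z ∂m ∂ν := by
    apply integral_congr_ae
    refine Eventually.of_forall (fun z => ?_)
    simp only [e]
    rw [integral_mul_const]
  have hint : Integrable (fun q : N × V =>
      ρ q.2 * E (P.π x + P.π q.2, P.Sg q.2 (P.π x) q.1) * φ q.1) (ν.prod m) := by
    have hb : Integrable (fun q : N × V => ‖φ‖ * ρ q.2) (ν.prod m) := by
      have := (integrable_const (μ := ν) ‖φ‖).mul_prod (ρ_int m hρ hρc)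
      exact this
    refine Integrable.mono' hb.norm ?_ ?_
    · refine Measurable.aestronglyMeasurable ?_
      refine ((hρ.measurable.comp measurable_snd).mul (hE.comp ?_)).mul
        (φ.continuous.measurable.comp measurable_fst)
      have c1 : Continuous (fun q : N × V => P.π x + P.π q.2) :=
        continuous_const.add (P.π_cont.comp continuous_snd)
      have c2 : Continuous (fun q : N × V => P.Sg q.2 (P.π x) q.1) :=
        P.Sg_cont.comp (continuous_snd.prodMk (continuous_const.prodMk continuous_fst))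
      exact c1.measurable.prodMk c2.measurable
    · refine Eventually.of_forall (fun q => ?_)
      rw [norm_mul, norm_mul, norm_mul, norm_norm]
      have e1 : ‖E (P.π x + P.π q.2, P.Sg q.2 (P.π x) q.1)‖ ≤ 1 := by
        rw [Real.norm_eq_abs, abs_of_nonneg (hE0 _)]; exact hE1 _
      have e2 : ‖φ q.1‖ ≤ ‖φ‖ := φ.norm_coe_le_norm _
      calc ‖ρ q.2‖ * ‖E (P.π x + P.π q.2, P.Sg q.2 (P.π x) q.1)‖ * ‖φ q.1‖
          ≤ ‖ρ q.2‖ * 1 * ‖φ‖ := by gcongr
        _ = ‖φ‖ * ‖ρ q.2‖ := by ring
  rw [h1, integral_integral_swap hint]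
  have h2 : ∀ y, ∫ z, ρ y * E (P.π x + P.π y, P.Sg y (P.π x) z) * φ z ∂ν
      = ρ y * P.J ν E φ x (y + x) := by
    intro y
    have hmeas : AEStronglyMeasurable (fun z => E (P.π (y + x), z) *
        φ (P.Sgi y (P.π x) z)) (Measure.map (P.Sg y (P.π x)) ν) := by
      refine Measurable.aestronglyMeasurable ?_
      refine (hE.comp (measurable_const.prodMk measurable_id)).mul ?_
      refine φ.continuous.measurable.comp ?_
      exact (P.Sgi_cont.comp (continuous_const.prodMk
        (continuous_const.prodMk continuous_id))).measurable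
    unfold J
    rw [add_sub_cancel_right]
    conv_rhs => rw [← (hmp y (P.π x)).map_eq]
    rw [integral_map (hmp y (P.π x)).measurable.aemeasurable hmeas, ← integral_const_mul]
    apply integral_congr_ae
    refine Eventually.of_forall (fun z => ?_)
    simp only [P.left, map_add]
    rw [add_comm (P.π x) (P.π y), mul_assoc]
  simp only [h2]
  have h3 := integral_sub_right_eq_self (μ := m) (fun y => ρ y * P.J ν E φ x (y + x)) x
  rw [← h3]
  simp only [sub_add_cancel]

include hρ hρc hE hE0 hE1 in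
theorem e_cont (hmp : ∀ y x, MeasurePreserving (P.Sg y x) ν ν) (φ : C(N, ℝ)) :
    Continuous (fun x : V => ∫ z, P.e m ρ E (P.π x) z * φ z ∂ν) := by
  simp only [P.integral_e m ν hρ hρc hE hE0 hE1 hmp φ]
  rw [continuous_iff_continuousAt]
  intro x₀
  obtain ⟨C, hC⟩ := hρc.exists_bound_of_continuous hρ
  have hC0 : 0 ≤ C := (norm_nonneg _).trans (hC 0)
  obtain ⟨R, hR⟩ := hρc.isCompact.isBounded.subset_closedBall (0 : V)
  have hsupp : ∀ y, R < ‖y‖ → ρ y = 0 := by
    intro y hy
    by_contra hne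
    have : y ∈ Metric.closedBall (0 : V) R := hR (subset_tsupport _ hne)
    rw [Metric.mem_closedBall, dist_zero_right] at this
    linarith
  refine continuousAt_of_dominated
    (bound := fun y => (Metric.closedBall x₀ (R + 1)).indicator (fun _ => C * ‖φ‖) y) ?_ ?_ ?_ ?_
  · refine Eventually.of_forall (fun x => ?_)
    refine Measurable.aestronglyMeasurable ?_
    exact (hρ.measurable.comp (measurable_id.sub_const x)).mul (P.J_meas ν hE φ x)
  · filter_upwards [Metric.ball_mem_nhds x₀ one_pos] with x hx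
    refine Eventually.of_forall (fun y => ?_)
    by_cases hy : y ∈ Metric.closedBall x₀ (R + 1)
    · rw [Set.indicator_of_mem hy, norm_mul]
      exact mul_le_mul (hC _) (by rw [Real.norm_eq_abs]; exact P.J_abs ν hE hE0 hE1 φ x y)
        (norm_nonneg _) hC0
    · rw [Set.indicator_of_notMem hy]
      have : R < ‖y - x‖ := by
        rw [Metric.mem_closedBall, not_le, dist_eq_norm] at hy
        rw [Metric.mem_ball, dist_eq_norm] at hx
        have h3 : ‖y - x₀‖ ≤ ‖y - x‖ + ‖x - x₀‖ := by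
          have : y - x₀ = (y - x) + (x - x₀) := by abel
          rw [this]
          exact norm_add_le _ _
        linarith
      rw [hsupp _ this, zero_mul, norm_zero]
  · refine (integrable_indicator_iff measurableSet_closedBall).2 ?_
    exact integrableOn_const (hs := (measure_closedBall_lt_top).ne)
  · refine Eventually.of_forall (fun y => ?_)
    refine Continuous.continuousAt ?_
    exact (hρ.comp (continuous_const.sub continuous_id)).mul (P.J_cont ν hE hE0 hE1 φ y)

include hρ hρc hρ0 hρ1 hE hE0 hE1 in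
/-- the fibre functional is jointly continuous -/
theorem F_cont (hmp : ∀ y x, MeasurePreserving (P.Sg y x) ν ν) :
    Continuous (fun q : V × C(N, ℝ) => ∫ z, P.e m ρ E (P.π q.1) z * q.2 z ∂ν) := by
  have hem : ∀ x, Measurable (fun z => P.e m ρ E x z) := fun x =>
    (P.e_meas m hρ hE).comp (measurable_const.prodMk measurable_id)
  have heb := P.e_bounds m hρ hρc hρ0 hρ1 hE hE0 hE1
  have hi : ∀ (x : B) (φ : C(N, ℝ)), Integrable (fun z => P.e m ρ E x z * φ z) ν := by
    intro x φ
    refine Integrable.mono' (integrable_const ‖φ‖)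
      ((hem x).mul φ.continuous.measurable).aestronglyMeasurable
      (Eventually.of_forall (fun z => ?_))
    rw [norm_mul, Real.norm_eq_abs, Real.norm_eq_abs, abs_of_nonneg (heb x z).1]
    calc P.e m ρ E x z * |φ z| ≤ 1 * ‖φ‖ :=
          mul_le_mul (heb x z).2 (abs_le_norm φ z) (abs_nonneg _) zero_le_one
      _ = ‖φ‖ := one_mul _
  have hlip : ∀ (x : B) (φ ψ : C(N, ℝ)),
      |∫ z, P.e m ρ E x z * φ z ∂ν - ∫ z, P.e m ρ E x z * ψ z ∂ν| ≤ ‖φ - ψ‖ := by
    intro x φ ψ
    rw [← integral_sub (hi x φ) (hi x ψ), ← Real.norm_eq_abs]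
    have := norm_integral_le_of_norm_le_const (μ := ν) (C := ‖φ - ψ‖)
      (f := fun z => P.e m ρ E x z * φ z - P.e m ρ E x z * ψ z)
      (Eventually.of_forall (fun z => by
        rw [← mul_sub, norm_mul, Real.norm_eq_abs, Real.norm_eq_abs, abs_of_nonneg (heb x z).1]
        have h1 : |φ z - ψ z| ≤ ‖φ - ψ‖ := abs_le_norm (φ - ψ) z
        calc P.e m ρ E x z * |φ z - ψ z| ≤ 1 * ‖φ - ψ‖ :=
              mul_le_mul (heb x z).2 h1 (abs_nonneg _) zero_le_one
          _ = ‖φ - ψ‖ := one_mul _))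
    simpa using this
  rw [continuous_iff_continuousAt]
  rintro ⟨x₀, φ₀⟩
  rw [ContinuousAt, tendsto_iff_dist_tendsto_zero]
  have h1 := (P.e_cont m ν hρ hρc hE hE0 hE1 hmp φ₀).tendsto x₀
  have h2 : Tendsto (fun q : V × C(N, ℝ) =>
      ‖q.2 - φ₀‖ + dist (∫ z, P.e m ρ E (P.π q.1) z * φ₀ z ∂ν)
        (∫ z, P.e m ρ E (P.π x₀) z * φ₀ z ∂ν)) (𝓝 (x₀, φ₀)) (𝓝 (0 + 0)) := by
    refine Tendsto.add ?_ ?_
    · have : Tendsto (fun q : V × C(N, ℝ) => ‖q.2 - φ₀‖) (𝓝 (x₀, φ₀)) (𝓝 ‖φ₀ - φ₀‖) :=
        ((continuous_snd.sub continuous_const).norm).tendsto _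
      simpa using this
    · exact (tendsto_iff_dist_tendsto_zero.1 h1).comp (continuous_fst.tendsto (x₀, φ₀))
  rw [add_zero] at h2
  refine squeeze_zero (fun q => dist_nonneg) (fun q => ?_) h2
  refine (dist_triangle _ (∫ z, P.e m ρ E (P.π q.1) z * φ₀ z ∂ν) _).trans
    (add_le_add ?_ le_rfl)
  rw [Real.dist_eq]
  exact hlip _ _ _

include hρ hρc hρ0 hρ1 hE hE0 hE1 in
/-- an identity between fibre densities valid for almost all fibres is valid for all. -/
theorem transfer (hmp : ∀ y x, MeasurePreserving (P.Sg y x) ν ν)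
    {τ : V → V} (hτ : Continuous τ) {R Ri : V → N → N}
    (hRc : Continuous (fun q : V × N => R q.1 q.2))
    (hRic : Continuous (fun q : V × N => Ri q.1 q.2))
    (hl : ∀ x z, Ri x (R x z) = z) (hR : ∀ x, MeasurePreserving (R x) ν ν)
    (h : ∀ᵐ x ∂m, ∀ᵐ z ∂ν, P.e m ρ E (P.π (τ x)) (R x z) = P.e m ρ E (P.π x) z) :
    ∀ x, ∀ᵐ z ∂ν, P.e m ρ E (P.π (τ x)) (R x z) = P.e m ρ E (P.π x) z := by
  have hem : ∀ x, Measurable (fun z => P.e m ρ E x z) := fun x =>
    (P.e_meas m hρ hE).comp (measurable_const.prodMk measurable_id)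
  have heb := P.e_bounds m hρ hρc hρ0 hρ1 hE hE0 hE1
  have hFc := P.F_cont m ν hρ hρc hρ0 hρ1 hE hE0 hE1 hmp
  -- the second integral
  have hb : ∀ (φ : C(N, ℝ)) (x : V), ∫ z, P.e m ρ E (P.π (τ x)) (R x z) * φ z ∂ν
      = ∫ z, P.e m ρ E (P.π (τ x)) z * φ (Ri x z) ∂ν := by
    intro φ x
    have hmeas : AEStronglyMeasurable (fun z => P.e m ρ E (P.π (τ x)) z * φ (Ri x z))
        (Measure.map (R x) ν) := by
      refine Measurable.aestronglyMeasurable ((hem _).mul (φ.continuous.measurable.comp ?_))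
      exact (hRic.comp (continuous_const.prodMk continuous_id)).measurable
    conv_rhs => rw [← (hR x).map_eq]
    rw [integral_map (hR x).measurable.aemeasurable hmeas]
    simp only [hl]
  have hbc : ∀ φ : C(N, ℝ), Continuous (fun x : V =>
      ∫ z, P.e m ρ E (P.π (τ x)) (R x z) * φ z ∂ν) := by
    intro φ
    simp only [hb φ]
    let Φ : C(V, C(N, ℝ)) := ContinuousMap.curry ⟨fun q : V × N => φ (Ri q.1 q.2),
      φ.continuous.comp hRic⟩
    have : (fun x : V => ∫ z, P.e m ρ E (P.π (τ x)) z * φ (Ri x z) ∂ν)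
        = (fun q : V × C(N, ℝ) => ∫ z, P.e m ρ E (P.π q.1) z * q.2 z ∂ν) ∘
          (fun x => (τ x, Φ x)) := rfl
    rw [this]
    exact hFc.comp (hτ.prodMk Φ.continuous)
  have hac : ∀ φ : C(N, ℝ), Continuous (fun x : V => ∫ z, P.e m ρ E (P.π x) z * φ z ∂ν) :=
    fun φ => P.e_cont m ν hρ hρc hE hE0 hE1 hmp φ
  have heq : ∀ φ : C(N, ℝ), (fun x : V => ∫ z, P.e m ρ E (P.π (τ x)) (R x z) * φ z ∂ν)
      = (fun x : V => ∫ z, P.e m ρ E (P.π x) z * φ z ∂ν) := by
    intro φ
    refine ((hbc φ).ae_eq_iff_eq m (hac φ)).1 ?_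
    filter_upwards [h] with x hx
    apply integral_congr_ae
    filter_upwards [hx] with z hz
    rw [hz]
  intro x
  refine ae_eq_of_integral_continuous (u₁ := fun z => P.e m ρ E (P.π (τ x)) (R x z))
    (u₂ := fun z => P.e m ρ E (P.π x) z) ?_ (hem _) (fun z => (heb _ _).1) (fun z => (heb _ _).2)
    (fun z => (heb _ _).1) (fun z => (heb _ _).2) (fun φ => congrFun (heq φ) x)
  exact (hem _).comp (hRc.comp (continuous_const.prodMk continuous_id)).measurable

end

end Bun

end Pool.Agent.SKP
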