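import Pool.Agent.Work.MP_adbfe6_an.SK.Conv

/-!
Ergodicity of a skew product is decided in one fibre.
-/

set_option autoImplicit false
set_option linter.unusedSectionVars false
set_option linter.style.haveILetI false

open Filter Topology MeasureTheory
open scoped ENNReal NNReal

namespace Pool.Agent.SKP

section

variable {d : ℕ} {N : Type} [MetricSpace N] [CompactSpace N] {A : HypAut d} (D : Fibres A N)

theorem fibreMap_iff (x y : Tor d) (R : N → N) : FibreMap A D.g x y R ↔
    ∃ l : List (Mv ↥A.Es ↥A.Eu), D.two.brun l x = y ∧ D.two.hol l x = R := by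
  constructor
  · intro h
    induction h with
    | refl => exact ⟨[], rfl, rfl⟩
    | @stable y R h v hv R' hR ih =>
      obtain ⟨l, rfl, rfl⟩ := ih
      refine ⟨l ++ [Mv.s ⟨v, hv⟩], ?_, ?_⟩
      · rw [D.two.brun_append]; rfl
      · funext z
        rw [D.two.hol_append]
        have h1 := (D.two.s.eq_T_iff ⟨v, hv⟩ (D.two.brun l x, D.two.hol l x z)
          (D.two.brun l x + proj v, R' (D.two.hol l x z)) rfl).2 (hR (D.two.hol l x z))
        exact (congrArg Prod.snd h1).symm
    | @unstable y R h v hv R' hR ih =>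
      obtain ⟨l, rfl, rfl⟩ := ih
      refine ⟨l ++ [Mv.u ⟨v, hv⟩], ?_, ?_⟩
      · rw [D.two.brun_append]; rfl
      · funext z
        rw [D.two.hol_append]
        have h1 := (D.two.u.eq_T_iff ⟨v, hv⟩ (D.two.brun l x, D.two.hol l x z)
          (D.two.brun l x + proj v, R' (D.two.hol l x z)) rfl).2 (hR (D.two.hol l x z))
        exact (congrArg Prod.snd h1).symm
    | @map y R h ih =>
      obtain ⟨l, rfl, rfl⟩ := ih
      refine ⟨l ++ [Mv.f], ?_, ?_⟩
      · rw [D.two.brun_append]; rfl
      · funext z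
        rw [D.two.hol_append]; rfl
  · rintro ⟨l, rfl, rfl⟩
    induction l using List.reverseRecOn with
    | nil => exact FibreMap.refl
    | append_singleton l a ih =>
      cases a with
      | s v =>
        have h1 := FibreMap.stable ih v.1 v.2 (fun z => D.two.s.S v (D.two.brun l x) z)
          (fun z => (D.two.s.eq_T_iff v (D.two.brun l x, z)
            (D.two.brun l x + proj v.1, D.two.s.S v (D.two.brun l x) z) rfl).1 rfl)
        have e1 : D.two.brun (l ++ [Mv.s v]) x = D.two.brun l x + proj v.1 := by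
          rw [D.two.brun_append]; rfl
        have e2 : D.two.hol (l ++ [Mv.s v]) x
            = (fun z => D.two.s.S v (D.two.brun l x) z) ∘ D.two.hol l x := by
          funext z
          rw [D.two.hol_append]; rfl
        rw [e1, e2]
        exact h1
      | u v =>
        have h1 := FibreMap.unstable ih v.1 v.2 (fun z => D.two.u.S v (D.two.brun l x) z)
          (fun z => (D.two.u.eq_T_iff v (D.two.brun l x, z)
            (D.two.brun l x + proj v.1, D.two.u.S v (D.two.brun l x) z) rfl).1 rfl)
        have e1 : D.two.brun (l ++ [Mv.u v]) x = D.two.brun l x + proj v.1 := by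
          rw [D.two.brun_append]; rfl
        have e2 : D.two.hol (l ++ [Mv.u v]) x
            = (fun z => D.two.u.S v (D.two.brun l x) z) ∘ D.two.hol l x := by
          funext z
          rw [D.two.hol_append]; rfl
        rw [e1, e2]
        exact h1
      | f =>
        have h1 := FibreMap.map ih
        have e1 : D.two.brun (l ++ [Mv.f]) x = matAct A.M (D.two.brun l x) := by
          rw [D.two.brun_append]; rfl
        have e2 : D.two.hol (l ++ [Mv.f]) x = D.g (D.two.brun l x) ∘ D.two.hol l x := by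
          funext z
          rw [D.two.hol_append]; rfl
        rw [e1, e2]
        exact h1

theorem exists_section : ∃ σ : Tor d → ↥A.Es × ↥A.Eu, Measurable σ ∧
    ∀ x, D.two.bun.π (σ x) = x := by
  -- linear section
  let q : (↥A.Es × ↥A.Eu) →ₗ[ℝ] (Fin d → ℝ) := A.Es.subtype.coprod A.Eu.subtype
  have hq : Function.Surjective q := by
    intro v
    have hv : v ∈ A.Es ⊔ A.Eu := by rw [A.sup]; exact Submodule.mem_top
    obtain ⟨s, hs, u, hu, rfl⟩ := Submodule.mem_sup.1 hv
    exact ⟨(⟨s, hs⟩, ⟨u, hu⟩), by simp [q]⟩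
  obtain ⟨r, hr⟩ := q.exists_rightInverse_of_surjective (LinearMap.range_eq_top.2 hq)
  have hrc : Continuous r := r.continuous_of_finiteDimensional
  let lift : Tor d → (Fin d → ℝ) := fun x i =>
    (AddCircle.measurableEquivIco (1 : ℝ) 0 (x i) : ℝ)
  have hlift : Measurable lift := by
    rw [measurable_pi_iff]
    intro i
    exact measurable_subtype_coe.comp
      ((AddCircle.measurableEquivIco (1 : ℝ) 0).measurable.comp (measurable_pi_apply i))
  have hproj : ∀ x, proj (lift x) = x := by
    intro x
    funext i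
    exact (AddCircle.equivIco (1 : ℝ) 0).symm_apply_apply (x i)
  refine ⟨fun x => r (lift x), hrc.measurable.comp hlift, fun x => ?_⟩
  rw [D.two.bun_π]
  have h1 : q (r (lift x)) = lift x := by
    have := congrArg (fun φ : (Fin d → ℝ) →ₗ[ℝ] (Fin d → ℝ) => φ (lift x)) hr
    exact this
  have h2 : ((r (lift x)).1 : Fin d → ℝ) + ((r (lift x)).2 : Fin d → ℝ) = lift x := by
    have e : q (r (lift x)) = ((r (lift x)).1 : Fin d → ℝ) + ((r (lift x)).2 : Fin d → ℝ) := by
      simp [q]
    rw [← e, h1]
  show proj ((r (lift x)).1 : Fin d → ℝ) + proj ((r (lift x)).2 : Fin d → ℝ) = x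
  have h3 : proj ((r (lift x)).1 : Fin d → ℝ) + proj ((r (lift x)).2 : Fin d → ℝ)
      = proj (((r (lift x)).1 : Fin d → ℝ) + ((r (lift x)).2 : Fin d → ℝ)) := rfl
  rw [h3, h2, hproj]

variable [MeasurableSpace N] [BorelSpace N] {ν : Measure N} [IsProbabilityMeasure ν]

/-- **One fibre.** -/
theorem one_fibre (hg : ∀ x, MeasurePreserving (D.g x) ν ν) (x₀ : Tor d) (U : Set N)
    (hU : IsOpen U)
    (h : U = Set.univ ∨ (ν U ≠ 0 ∧ EssAccessible A D.g (volume.prod ν))) :
    Ergodic (skew A.M D.g) (volume.prod ν) ↔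
      ∀ X : Set N, MeasurableSet X → (∀ R, FibreMap A D.g x₀ x₀ R → R ⁻¹' X =ᵐ[ν] X) →
        ν (U ∩ X) = 0 ∨ ν (U \ X) = 0 := by
  have hAmp : MeasurePreserving (matAct A.M : Tor d → Tor d) volume volume := matAct_mp A.mul_inv
  have hloop : ∀ X : Set N, (∀ R, FibreMap A D.g x₀ x₀ R → R ⁻¹' X =ᵐ[ν] X) ↔
      ∀ l : List (Mv ↥A.Es ↥A.Eu), D.two.brun l x₀ = x₀ → (D.two.hol l x₀) ⁻¹' X =ᵐ[ν] X := by
    intro X
    constructor
    · intro hX l hl
      exact hX _ ((fibreMap_iff D _ _ _).2 ⟨l, hl, rfl⟩)
    · intro hX R hR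
      obtain ⟨l, hl, rfl⟩ := (fibreMap_iff D _ _ _).1 hR
      exact hX l hl
  constructor
  · intro he X hX hinv
    obtain ⟨σ, hσ, hσπ⟩ := exists_section D
    rcases D.two.fibre_of_ergodic (lam := volume) hg x₀ hσ hσπ he X hX ((hloop X).1 hinv)
      with h1 | h1
    · left
      exact measure_mono_null Set.inter_subset_right h1
    · right
      exact measure_mono_null (fun z hz => hz.2) h1
  · intro H
    rcases h with h | ⟨h1, h2⟩
    · refine D.two.ergodic_of_fibre (lam := volume) hg hAmp x₀ (fun X hX hinv => ?_)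
      have := H X hX ((hloop X).2 hinv)
      rw [h, Set.univ_inter, ← Set.compl_eq_univ_sdiff] at this
      exact this
    · exact D.two.ergodic_of_open (lam := volume) hg hAmp (essAcc_of D h2) x₀ U hU h1
        (fun X hX hinv => H X hX ((hloop X).2 hinv))

end

end Pool.Agent.SKP
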