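import Pool.Agent.Work.MP_adbfe6_an.SK.Two

/-!
Reduction of ergodicity to one fibre.
-/

set_option autoImplicit false
set_option linter.unusedSectionVars false
set_option linter.style.haveILetI false

open Filter Topology MeasureTheory
open scoped ENNReal NNReal

namespace Pool.Agent.SKP

namespace Two

variable {B Ws Wu N : Type} [NormedAddCommGroup B] [CompactSpace B]
  [NormedAddCommGroup Ws] [NormedAddCommGroup Wu] [MetricSpace N] [CompactSpace N]
  (D : Two B Ws Wu N)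
  [MeasurableSpace B] [BorelSpace B] [MeasurableSpace N] [BorelSpace N]
  [NormedSpace ℝ Ws] [NormedSpace ℝ Wu] [FiniteDimensional ℝ Ws] [FiniteDimensional ℝ Wu]
  [MeasurableSpace Ws] [BorelSpace Ws] [MeasurableSpace Wu] [BorelSpace Wu]
  {ν : Measure N} [IsProbabilityMeasure ν] {lam : Measure B} [IsProbabilityMeasure lam]
  [lam.IsAddLeftInvariant]

theorem bun_mp (hg : ∀ x, MeasurePreserving (D.s.g x) ν ν) (y : Ws × Wu) (x : B) :
    MeasurePreserving (D.bun.Sg y x) ν ν := by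
  have h1 := D.s.S_mp hg y.1 x
  have h2 := D.u.S_mp (D.u_g_mp hg) y.2 (x + D.s.j y.1)
  exact h2.comp h1

theorem fact_mp (hg : ∀ x, MeasurePreserving (D.s.g x) ν ν) (a : Mv Ws Wu) (x : B) :
    MeasurePreserving (D.fact a x) ν ν := by
  cases a with
  | s v => exact D.s.S_mp hg v x
  | u w => exact D.u.S_mp (D.u_g_mp hg) w x
  | f => exact hg x

theorem hol_mp (hg : ∀ x, MeasurePreserving (D.s.g x) ν ν) (l : List (Mv Ws Wu)) (x : B) :
    MeasurePreserving (D.hol l x) ν ν := by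
  induction l generalizing x with
  | nil => exact MeasurePreserving.id ν
  | cons a l ih => exact (ih (D.bact a x)).comp (D.fact_mp hg a x)

section dens

variable (m : Measure (Ws × Wu)) [m.IsAddHaarMeasure]
  (hg : ∀ x, MeasurePreserving (D.s.g x) ν ν)
  {E : B × N → ℝ} (hE : Measurable E) (hE0 : ∀ p, 0 ≤ E p) (hE1 : ∀ p, E p ≤ 1)
  (hEs : ∀ v, E ∘ D.s.T v =ᵐ[lam.prod ν] E) (hEu : ∀ w, E ∘ D.u.T w =ᵐ[lam.prod ν] E)
  {ρ : Ws × Wu → ℝ} (hρ : Continuous ρ) (hρc : HasCompactSupport ρ) (hρ0 : ∀ y, 0 ≤ ρ y)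
  (hρ1 : ∫ y, ρ y ∂m = 1)

include hg hE hEs hEu hρ hρc hρ1

theorem dens_eq : ∀ᵐ p ∂(lam.prod ν), D.bun.e m ρ E p.1 p.2 = E p :=
  D.bun.e_ae_eq m lam ν hρ hρc hρ1 hE (fun y => D.E_y hg hEs hEu y)

include hE0 hE1

/-- general step: an a.e. symmetry of `E` fibred over a map of the base that lifts to `V` -/
theorem dens_step (hρ0 : ∀ y, 0 ≤ ρ y) {Θ : B × N → B × N}
    (hΘ : MeasurePreserving Θ (lam.prod ν) (lam.prod ν))
    (hΘE : E ∘ Θ =ᵐ[lam.prod ν] E)
    {a : B → B} {R Ri : B → N → N} (hΘf : ∀ x z, Θ (x, z) = (a x, R x z))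
    {τ : Ws × Wu → Ws × Wu} (hτ : Continuous τ) (hτa : ∀ y, D.bun.π (τ y) = a (D.bun.π y))
    (hRc : Continuous (fun q : B × N => R q.1 q.2))
    (hRic : Continuous (fun q : B × N => Ri q.1 q.2))
    (hl : ∀ x z, Ri x (R x z) = z) (hR : ∀ x, MeasurePreserving (R x) ν ν) (x : B) :
    ∀ᵐ z ∂ν, D.bun.e m ρ E (a x) (R x z) = D.bun.e m ρ E x z := by
  have h1 := D.dens_eq m hg hE hEs hEu hρ hρc hρ1
  have h2 : ∀ᵐ p ∂(lam.prod ν), D.bun.e m ρ E (Θ p).1 (Θ p).2 = E (Θ p) :=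
    hΘ.quasiMeasurePreserving.ae h1
  have h3 : ∀ᵐ p ∂(lam.prod ν), D.bun.e m ρ E (a p.1) (R p.1 p.2) = D.bun.e m ρ E p.1 p.2 := by
    filter_upwards [h1, h2, hΘE] with p hp1 hp2 hp3
    have h4 : Θ p = (a p.1, R p.1 p.2) := hΘf p.1 p.2
    simp only [Function.comp_apply] at hp3
    rw [h4] at hp2 hp3
    rw [hp1, hp2, hp3]
  have h5 := Measure.ae_ae_of_ae_prod h3
  have h6 := D.bun.ae_lift m lam h5
  have h7 := D.bun.transfer m ν hρ hρc hρ0 hρ1 hE hE0 hE1 (D.bun_mp hg) hτ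
    (R := fun y z => R (D.bun.π y) z) (Ri := fun y z => Ri (D.bun.π y) z)
    (hRc.comp ((D.bun.π_cont.comp continuous_fst).prodMk continuous_snd))
    (hRic.comp ((D.bun.π_cont.comp continuous_fst).prodMk continuous_snd))
    (fun y z => hl _ z) (fun y => hR _)
    (by
      filter_upwards [h6] with y hy
      filter_upwards [hy] with z hz
      rw [hτa]
      exact hz)
  obtain ⟨y, rfl⟩ := D.bun.π_surj x
  have h8 := h7 y
  rw [hτa] at h8
  exact h8

theorem dens_s (hρ0 : ∀ y, 0 ≤ ρ y) (v : Ws) (x : B) :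
    ∀ᵐ z ∂ν, D.bun.e m ρ E (x + D.s.j v) (D.s.S v x z) = D.bun.e m ρ E x z := by
  refine D.dens_step m hg hE hE0 hE1 hEs hEu hρ hρc hρ1 hρ0 (Θ := D.s.T v) (D.s.T_mp hg v)
    (hEs v) (a := fun x => x + D.s.j v) (R := fun x z => D.s.S v x z)
    (Ri := fun x z => D.s.S (-v) (x + D.s.j v) z) (fun x z => rfl)
    (τ := fun y => y + (v, 0)) (continuous_id.add continuous_const) ?_ ?_ ?_
    (fun x z => D.s.S_neg_apply v x z) (fun x => D.s.S_mp hg v x) x
  · intro y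
    simp only [bun_π, map_add, map_zero, add_zero]
  · exact D.s.S_cont.comp (continuous_const.prodMk continuous_id)
  · exact D.s.S_cont.comp (continuous_const.prodMk
      ((continuous_fst.add continuous_const).prodMk continuous_snd))

theorem dens_u (hρ0 : ∀ y, 0 ≤ ρ y) (w : Wu) (x : B) :
    ∀ᵐ z ∂ν, D.bun.e m ρ E (x + D.u.j w) (D.u.S w x z) = D.bun.e m ρ E x z := by
  refine D.dens_step m hg hE hE0 hE1 hEs hEu hρ hρc hρ1 hρ0 (Θ := D.u.T w)
    (D.u.T_mp (D.u_g_mp hg) w)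
    (hEu w) (a := fun x => x + D.u.j w) (R := fun x z => D.u.S w x z)
    (Ri := fun x z => D.u.S (-w) (x + D.u.j w) z) (fun x z => rfl)
    (τ := fun y => y + (0, w)) (continuous_id.add continuous_const) ?_ ?_ ?_
    (fun x z => D.u.S_neg_apply w x z) (fun x => D.u.S_mp (D.u_g_mp hg) w x) x
  · intro y
    simp only [bun_π, map_add, map_zero, zero_add]
  · exact D.u.S_cont.comp (continuous_const.prodMk continuous_id)
  · exact D.u.S_cont.comp (continuous_const.prodMk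
      ((continuous_fst.add continuous_const).prodMk continuous_snd))

theorem dens_g (hA : MeasurePreserving D.s.A lam lam) (he : E ∘ D.s.F =ᵐ[lam.prod ν] E)
    (hρ0 : ∀ y, 0 ≤ ρ y) (x : B) :
    ∀ᵐ z ∂ν, D.bun.e m ρ E (D.s.A x) (D.s.g x z) = D.bun.e m ρ E x z := by
  refine D.dens_step m hg hE hE0 hE1 hEs hEu hρ hρc hρ1 hρ0 (Θ := D.s.F)
    (D.s.F_mp hg hA) he (a := fun x => D.s.A x) (R := fun x z => D.s.g x z)
    (Ri := fun x z => (D.s.g x).symm z) (fun x z => rfl)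
    (τ := fun y => (D.s.L y.1, D.Lu y.2))
    ((D.Ls_cont.comp continuous_fst).prodMk (D.Lu_cont.comp continuous_snd)) ?_
    D.s.g_cont D.s.g_symm_cont (fun x z => (D.s.g x).symm_apply_apply z) hg x
  intro y
  simp only [bun_π, map_add, D.s.L_j, D.Lu_j]

theorem dens_run_leaf (hρ0 : ∀ y, 0 ≤ ρ y) (l : List (Mv Ws Wu)) (hl : ∀ a ∈ l, a.leaf) (x : B) :
    ∀ᵐ z ∂ν, D.bun.e m ρ E (D.brun l x) (D.hol l x z) = D.bun.e m ρ E x z := by
  induction l generalizing x with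
  | nil => exact Eventually.of_forall (fun z => rfl)
  | cons a l ih =>
    have h1 := ih (fun b hb => hl b (List.mem_cons_of_mem a hb)) (D.bact a x)
    have ha := hl a (List.mem_cons_self ..)
    have h2 := (D.fact_mp hg a x).quasiMeasurePreserving.ae h1
    have h3 : ∀ᵐ z ∂ν, D.bun.e m ρ E (D.bact a x) (D.fact a x z) = D.bun.e m ρ E x z := by
      cases a with
      | s v => exact D.dens_s m hg hE hE0 hE1 hEs hEu hρ hρc hρ1 hρ0 v x
      | u w => exact D.dens_u m hg hE hE0 hE1 hEs hEu hρ hρc hρ1 hρ0 w x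
      | f => exact ha.elim
    filter_upwards [h2, h3] with z hz2 hz3
    rw [← hz3]
    exact hz2

theorem dens_run (hA : MeasurePreserving D.s.A lam lam) (he : E ∘ D.s.F =ᵐ[lam.prod ν] E)
    (hρ0 : ∀ y, 0 ≤ ρ y) (l : List (Mv Ws Wu)) (x : B) :
    ∀ᵐ z ∂ν, D.bun.e m ρ E (D.brun l x) (D.hol l x z) = D.bun.e m ρ E x z := by
  induction l generalizing x with
  | nil => exact Eventually.of_forall (fun z => rfl)
  | cons a l ih =>
    have h1 := ih (D.bact a x)
    have h2 := (D.fact_mp hg a x).quasiMeasurePreserving.ae h1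
    have h3 : ∀ᵐ z ∂ν, D.bun.e m ρ E (D.bact a x) (D.fact a x z) = D.bun.e m ρ E x z := by
      cases a with
      | s v => exact D.dens_s m hg hE hE0 hE1 hEs hEu hρ hρc hρ1 hρ0 v x
      | u w => exact D.dens_u m hg hE hE0 hE1 hEs hEu hρ hρc hρ1 hρ0 w x
      | f => exact D.dens_g m hg hE hE0 hE1 hEs hEu hρ hρc hρ1 hA he hρ0 x
    filter_upwards [h2, h3] with z hz2 hz3
    rw [← hz3]
    exact hz2

end dens

/-- a `[0,1]`-valued function with trivial superlevel sets is constant a.e. -/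
theorem const_of_level {u : N → ℝ} (hu : Measurable u) (h0 : ∀ z, 0 ≤ u z) (h1 : ∀ z, u z ≤ 1)
    (h : ∀ t : ℝ, ν {z | t < u z} = 0 ∨ ν {z | t < u z}ᶜ = 0) :
    ∀ᵐ z ∂ν, u z = ∫ z, u z ∂ν := by
  set c := ∫ z, u z ∂ν with hc
  have hi : Integrable u ν := by
    refine Integrable.mono' (integrable_const (1 : ℝ)) hu.aestronglyMeasurable
      (Eventually.of_forall (fun p => ?_))
    rw [Real.norm_eq_abs, abs_of_nonneg (h0 p)]
    exact h1 p
  have hlt : ∀ t, t < c → ∀ᵐ z ∂ν, t < u z := by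
    intro t ht
    rcases h t with h2 | h2
    · exfalso
      have h3 : ∀ᵐ z ∂ν, u z ≤ t := by
        rw [ae_iff]
        simpa only [not_le] using h2
      have h4 : c ≤ ∫ _, t ∂ν := integral_mono_ae hi (integrable_const t) h3
      simp at h4
      linarith
    · rw [ae_iff]
      exact h2
  have hgt : ∀ t, c < t → ∀ᵐ z ∂ν, u z ≤ t := by
    intro t ht
    rcases h t with h2 | h2
    · rw [ae_iff]
      simpa only [not_le] using h2
    · exfalso
      have h3 : ∀ᵐ z ∂ν, t ≤ u z := by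
        rw [ae_iff]
        refine measure_mono_null (fun z hz => ?_) h2
        simp only [Set.mem_compl_iff, Set.mem_ofPred_eq, not_lt] at hz ⊢
        exact (not_le.1 hz).le
      have h4 : ∫ _, t ∂ν ≤ c := integral_mono_ae (integrable_const t) hi h3
      simp at h4
      linarith
  have h5 : ∀ᵐ z ∂ν, ∀ n : ℕ, c - 1 / ((n : ℝ) + 1) < u z ∧ u z ≤ c + 1 / ((n : ℝ) + 1) := by
    rw [ae_all_iff]
    intro n
    have hn : (0 : ℝ) < 1 / ((n : ℝ) + 1) := by positivity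
    filter_upwards [hlt (c - 1 / ((n : ℝ) + 1)) (by linarith),
      hgt (c + 1 / ((n : ℝ) + 1)) (by linarith)] with z hz1 hz2
    exact ⟨hz1, hz2⟩
  filter_upwards [h5] with z hz
  apply le_antisymm
  · refine le_of_forall_pos_le_add (fun ε hε => ?_)
    obtain ⟨n, hn⟩ := exists_nat_one_div_lt hε
    linarith [(hz n).2]
  · refine le_of_forall_pos_le_add (fun ε hε => ?_)
    obtain ⟨n, hn⟩ := exists_nat_one_div_lt hε
    linarith [(hz n).1]

/-- existence of a mollifier -/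
theorem exists_moll (m : Measure (Ws × Wu)) [m.IsAddHaarMeasure] :
    ∃ ρ : Ws × Wu → ℝ, Continuous ρ ∧ HasCompactSupport ρ ∧ (∀ y, 0 ≤ ρ y) ∧
      ∫ y, ρ y ∂m = 1 := by
  let f : ContDiffBump (0 : Ws × Wu) := ⟨1, 2, one_pos, one_lt_two⟩
  exact ⟨f.normed m, f.continuous_normed, f.hasCompactSupport_normed,
    f.nonneg_normed, f.integral_normed⟩

/-- constancy of `E` from the fibre over `x₀` -/
theorem const_of_x0 (hg : ∀ x, MeasurePreserving (D.s.g x) ν ν) (x₀ : B)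
    {E : B × N → ℝ} (hE : Measurable E) (hE0 : ∀ p, 0 ≤ E p) (hE1 : ∀ p, E p ≤ 1)
    (hEs : ∀ v, E ∘ D.s.T v =ᵐ[lam.prod ν] E) (hEu : ∀ w, E ∘ D.u.T w =ᵐ[lam.prod ν] E)
    (H : ∀ (m : Measure (Ws × Wu)) [m.IsAddHaarMeasure] (ρ : Ws × Wu → ℝ), Continuous ρ →
      HasCompactSupport ρ → (∀ y, 0 ≤ ρ y) → ∫ y, ρ y ∂m = 1 → ∀ t : ℝ,
      ν {z | t < D.bun.e m ρ E x₀ z} = 0 ∨ ν {z | t < D.bun.e m ρ E x₀ z}ᶜ = 0) :
    ∃ c, ∀ᵐ p ∂(lam.prod ν), E p = c := by
  let m : Measure (Ws × Wu) := Measure.addHaar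
  obtain ⟨ρ, hρ, hρc, hρ0, hρ1⟩ := exists_moll (Ws := Ws) (Wu := Wu) m
  have heb := D.bun.e_bounds m hρ hρc hρ0 hρ1 hE hE0 hE1
  have hem : ∀ x, Measurable (fun z => D.bun.e m ρ E x z) := fun x =>
    (D.bun.e_meas m hρ hE).comp (measurable_const.prodMk measurable_id)
  set c := ∫ z, D.bun.e m ρ E x₀ z ∂ν with hcdef
  have hc : ∀ᵐ z ∂ν, D.bun.e m ρ E x₀ z = c :=
    const_of_level (hem x₀) (fun z => (heb x₀ z).1) (fun z => (heb x₀ z).2)
      (H m ρ hρ hρc hρ0 hρ1)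
  -- all fibres
  have hall : ∀ x, ∀ᵐ z ∂ν, D.bun.e m ρ E x z = c := by
    intro x
    obtain ⟨v, w, hvw⟩ := D.surj (x₀ - x)
    have h1 := D.dens_run_leaf m hg hE hE0 hE1 hEs hEu hρ hρc hρ1 hρ0 [Mv.s v, Mv.u w]
      (by
        intro a ha
        simp only [List.mem_cons, List.not_mem_nil, or_false] at ha
        rcases ha with rfl | rfl
        · trivial
        · trivial) x
    have hb : D.brun [Mv.s v, Mv.u w] x = x₀ := by
      show x + D.s.j v + D.u.j w = x₀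
      rw [add_assoc, hvw, add_sub_cancel]
    rw [hb] at h1
    have h3 := (D.hol_mp hg [Mv.s v, Mv.u w] x).quasiMeasurePreserving.ae hc
    filter_upwards [h1, h3] with z hz1 hz3
    rw [← hz1]
    exact hz3
  refine ⟨c, ?_⟩
  have h1 := D.dens_eq m hg hE hEs hEu hρ hρc hρ1
  have hms : MeasurableSet {p : B × N | D.bun.e m ρ E p.1 p.2 = c} :=
    (D.bun.e_meas m hρ hE) (measurableSet_singleton c)
  have h2 : ∀ᵐ p ∂(lam.prod ν), D.bun.e m ρ E p.1 p.2 = c := by
    rw [Measure.ae_prod_iff_ae_ae hms]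
    exact Eventually.of_forall hall
  filter_upwards [h1, h2] with p hp1 hp2
  rw [← hp1, hp2]

/-- a set with a.e. constant indicator is trivial -/
theorem evConst_of_const {Z : Type} [MeasurableSpace Z] {μ : Measure Z} {s : Set Z} {c : ℝ}
    (h : ∀ᵐ p ∂μ, s.indicator (fun _ => (1 : ℝ)) p = c) : EventuallyConst s (ae μ) := by
  rw [eventuallyConst_set']
  by_cases h1 : c = 1
  · right
    filter_upwards [h] with p hp
    rw [h1] at hp
    apply propext
    refine ⟨fun _ => trivial, fun _ => ?_⟩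
    by_contra hps
    have hps' : p ∉ s := hps
    rw [Set.indicator_of_notMem hps'] at hp
    norm_num at hp
  · left
    filter_upwards [h] with p hp
    apply propext
    refine ⟨fun hps => ?_, fun hf => hf.elim⟩
    have hps' : p ∈ s := hps
    rw [Set.indicator_of_mem hps'] at hp
    exact (h1 hp.symm).elim

/-- **Reduction to one fibre.** -/
theorem ergodic_of_fibre (hg : ∀ x, MeasurePreserving (D.s.g x) ν ν)
    (hA : MeasurePreserving D.s.A lam lam) (x₀ : B)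
    (H : ∀ X : Set N, MeasurableSet X →
      (∀ l : List (Mv Ws Wu), D.brun l x₀ = x₀ → (D.hol l x₀) ⁻¹' X =ᵐ[ν] X) →
      ν X = 0 ∨ ν Xᶜ = 0) :
    Ergodic D.s.F (lam.prod ν) := by
  refine ⟨D.s.F_mp hg hA, ⟨fun s hs hsF => ?_⟩⟩
  set E : B × N → ℝ := s.indicator (fun _ => (1 : ℝ)) with hEdef
  have hE : Measurable E := measurable_const.indicator hs
  have hE0 : ∀ p, 0 ≤ E p := fun p => Set.indicator_nonneg (fun _ _ => zero_le_one) p
  have hE1 : ∀ p, E p ≤ 1 := fun p => Set.indicator_le_self' (fun _ _ => zero_le_one) p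
  have he : E ∘ D.s.F =ᵐ[lam.prod ν] E := by
    refine Eventually.of_forall (fun p => ?_)
    have h1 : D.s.F p ∈ s ↔ p ∈ s := by
      rw [← Set.mem_preimage, hsF]
    show s.indicator (fun _ => (1 : ℝ)) (D.s.F p) = s.indicator (fun _ => (1 : ℝ)) p
    by_cases hp : p ∈ s
    · rw [Set.indicator_of_mem hp, Set.indicator_of_mem (h1.2 hp)]
    · rw [Set.indicator_of_notMem hp, Set.indicator_of_notMem (fun h => hp (h1.1 h))]
  have hEs := D.E_s hg hA hE hE0 hE1 he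
  have hEu := D.E_u hg hA hE hE0 hE1 he
  obtain ⟨c, hc⟩ := D.const_of_x0 hg x₀ hE hE0 hE1 hEs hEu (by
    intro m _ ρ hρ hρc hρ0 hρ1 t
    have hem : Measurable (fun z => D.bun.e m ρ E x₀ z) :=
      (D.bun.e_meas m hρ hE).comp (measurable_const.prodMk measurable_id)
    refine H _ (measurableSet_lt measurable_const hem) ?_
    intro l hl
    have h1 := D.dens_run m hg hE hE0 hE1 hEs hEu hρ hρc hρ1 hA he hρ0 l x₀
    rw [hl] at h1
    filter_upwards [h1] with z hz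
    apply propext
    show t < D.bun.e m ρ E x₀ (D.hol l x₀ z) ↔ t < D.bun.e m ρ E x₀ z
    rw [hz])
  exact evConst_of_const hc

/-- **Reduction to one fibre, for functions invariant under the holonomies.** -/
theorem const_of_fibre (hg : ∀ x, MeasurePreserving (D.s.g x) ν ν) (x₀ : B)
    (H : ∀ X : Set N, MeasurableSet X →
      (∀ l : List (Mv Ws Wu), (∀ a ∈ l, a.leaf) → D.brun l x₀ = x₀ →
        (D.hol l x₀) ⁻¹' X =ᵐ[ν] X) → ν X = 0 ∨ ν Xᶜ = 0)
    {E : B × N → ℝ} (hE : Measurable E) (hE0 : ∀ p, 0 ≤ E p) (hE1 : ∀ p, E p ≤ 1)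
    (hEs : ∀ v, E ∘ D.s.T v =ᵐ[lam.prod ν] E) (hEu : ∀ w, E ∘ D.u.T w =ᵐ[lam.prod ν] E) :
    ∃ c, ∀ᵐ p ∂(lam.prod ν), E p = c := by
  refine D.const_of_x0 hg x₀ hE hE0 hE1 hEs hEu ?_
  intro m _ ρ hρ hρc hρ0 hρ1 t
  have hem : Measurable (fun z => D.bun.e m ρ E x₀ z) :=
    (D.bun.e_meas m hρ hE).comp (measurable_const.prodMk measurable_id)
  refine H _ (measurableSet_lt measurable_const hem) ?_
  intro l hll hl
  have h1 := D.dens_run_leaf m hg hE hE0 hE1 hEs hEu hρ hρc hρ1 hρ0 l hll x₀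
  rw [hl] at h1
  filter_upwards [h1] with z hz
  apply propext
  show t < D.bun.e m ρ E x₀ (D.hol l x₀ z) ↔ t < D.bun.e m ρ E x₀ z
  rw [hz]

end Two

end Pool.Agent.SKP
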