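import Pool.Agent.Work.MP_adbfe6_an.SK.Torus
import Pool.Agent.Work.MP_adbfe6_an.SK.LevK

/-!
Level-wise Lipschitz holonomies under step-wise bunching.
-/

set_option autoImplicit false
set_option linter.unusedSectionVars false
set_option linter.style.haveILetI false

open Filter Topology MeasureTheory
open scoped ENNReal NNReal

namespace Pool.Agent.SKP

section

variable {B W : Type} [NormedAddCommGroup B] [CompactSpace B] [NormedAddCommGroup W]
  {k : ℕ} {N : Fin k → Type} [∀ i, Group (N i)] [∀ i, MetricSpace (N i)]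
  [∀ i, CompactSpace (N i)] [∀ i, IsIsometricSMul (N i) (N i)]
  [∀ i, IsIsometricSMul (N i)ᵐᵒᵖ (N i)]

/-- hypotheses on the levels (one side) -/
structure LevHyp (D : Side B W (∀ i, N i)) (q : ℝ) (Kl α β : Fin k → ℝ) : Prop where
  q_nonneg : 0 ≤ q
  Kl_nonneg : ∀ i, 0 ≤ Kl i
  α_nonneg : ∀ i, 0 ≤ α i
  β_nonneg : ∀ i, 0 ≤ β i
  low : ∀ (i : Fin k) (n : ℕ) (x : B) (w z : ∀ i, N i), Agree i w z →
    dist (w i) (z i) ≤ q * α i ^ n * dist (D.G n x w i) (D.G n x z i)
  up : ∀ (i : Fin k) (n : ℕ) (x : B) (w z : ∀ i, N i), Agree i w z →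
    dist (D.G n x w i) (D.G n x z i) ≤ q * β i ^ n * dist (w i) (z i)
  sd : ∀ (i : Fin k) (x x' : B) (z z' w w' : ∀ i, N i), Agree i z' z → Agree i w' w →
    (w i)⁻¹ * w' i = (z i)⁻¹ * z' i →
    dist ((D.g x z i)⁻¹ * D.g x z' i) ((D.g x' w i)⁻¹ * D.g x' w' i)
      ≤ Kl i * (dist x x' + dist z w) * dist (z i) (z' i)
  dom : ∀ i, α i * D.μ < 1
  bunch : ∀ i, Kl i = 0 ∨ α i * β i * D.μ < 1

namespace LevHyp

variable {D : Side B W (∀ i, N i)} {q : ℝ} {Kl α β : Fin k → ℝ} (H : LevHyp D q Kl α β)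

include H

theorem G_tri (i : Fin k) (n : ℕ) (x : B) {w z : ∀ i, N i} (h : Agree i w z) :
    Agree i (D.G n x w) (D.G n x z) := by
  intro j hj
  have h1 := H.up j n x w z (fun j' hj' => h j' (hj'.trans hj))
  rw [h j hj, dist_self, mul_zero] at h1
  exact dist_le_zero.1 h1

theorem G_tri' (i : Fin k) (n : ℕ) (x : B) {w z : ∀ i, N i}
    (h : Agree i (D.G n x w) (D.G n x z)) : Agree i w z := by
  intro j
  induction j using WellFoundedLT.induction with
  | ind j ih =>
    intro hj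
    have h1 := H.low j n x w z (fun j' hj' => ih j' hj' (hj'.trans hj))
    rw [h j hj, dist_self, mul_zero] at h1
    exact dist_le_zero.1 h1

theorem Gs_tri (i : Fin k) (n : ℕ) (x : B) {w z : ∀ i, N i} (h : Agree i w z) :
    Agree i ((D.G n x).symm w) ((D.G n x).symm z) := by
  apply H.G_tri' i n x
  rw [Homeomorph.apply_symm_apply, Homeomorph.apply_symm_apply]
  exact h

theorem S_tri (i : Fin k) (v : W) (x : B) {w z : ∀ i, N i} (h : Agree i w z) :
    Agree i (D.S v x w) (D.S v x z) := by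
  intro j hj
  have h1 : ∀ n, D.h n v x w j = D.h n v x z j := by
    intro n
    rw [D.h_def, D.h_def]
    exact H.Gs_tri i n _ (H.G_tri i n x h) j hj
  have h2 : Tendsto (fun n => D.h n v x w j) atTop (𝓝 (D.S v x w j)) :=
    ((continuous_apply j).tendsto _).comp (D.S_tendsto v x w)
  have h3 : Tendsto (fun n => D.h n v x z j) atTop (𝓝 (D.S v x z j)) :=
    ((continuous_apply j).tendsto _).comp (D.S_tendsto v x z)
  simp only [h1] at h2
  exact tendsto_nhds_unique h2 h3

omit H in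
theorem dist_iter (v : W) : ∃ c : ℝ, 0 ≤ c ∧ ∀ (x : B) (z : ∀ i, N i) (n : ℕ),
    dist (D.A^[n] x) (D.A^[n] (x + D.j v)) ≤ c * D.μ ^ n ∧
    dist (D.G n x z) (D.G n (x + D.j v) (D.S v x z)) ≤ c * D.μ ^ n := by
  have hr : 0 < 1 - D.r := by have := D.dom; unfold Side.r; linarith
  have h0 : 0 ≤ D.Q * D.k1 * D.K :=
    mul_nonneg (mul_nonneg D.Q_nonneg D.k1_nonneg) D.K_nonneg
  have h4 : 0 ≤ 1 + D.Q * D.k1 * D.K * |D.C| / (1 - D.r) := by positivity
  refine ⟨(1 + D.Q * D.k1 * D.K * |D.C| / (1 - D.r)) * (|D.C| * ‖v‖), by positivity,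
    fun x z n => ?_⟩
  have key : dist (D.F^[n] (x, z)) (D.F^[n] (D.T v (x, z)))
      ≤ (1 + D.Q * D.k1 * D.K * |D.C| / (1 - D.r)) * (|D.C| * ‖v‖) * D.μ ^ n := by
    rw [D.F_iter_T]
    refine (D.dist_T _ _).trans ?_
    calc (1 + D.Q * D.k1 * D.K * |D.C| / (1 - D.r)) * ‖D.L^[n] v‖
        ≤ (1 + D.Q * D.k1 * D.K * |D.C| / (1 - D.r)) * (|D.C| * D.μ ^ n * ‖v‖) := by
          apply mul_le_mul_of_nonneg_left _ h4
          refine (D.contr n v).trans ?_
          apply mul_le_mul_of_nonneg_right _ (norm_nonneg _)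
          exact mul_le_mul_of_nonneg_right (le_abs_self _) (pow_nonneg D.μ_nonneg n)
      _ = _ := by ring
  have e : D.T v (x, z) = (x + D.j v, D.S v x z) := rfl
  rw [e, D.F_iter, D.F_iter] at key
  exact ⟨(le_max_left _ _).trans key, (le_max_right _ _).trans key⟩

/-- the holonomies do not expand a level by more than a constant factor -/
theorem S_up (v : W) : ∃ L : ℝ, ∀ (x : B) (i : Fin k) (w z : ∀ i, N i), Agree i w z →
    dist (D.S v x w i) (D.S v x z i) ≤ L * dist (w i) (z i) := by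
  obtain ⟨c, hc0, hc⟩ := dist_iter (D := D) v
  have hρ : ∀ i, ∃ ρ : ℝ, 0 ≤ ρ ∧ ρ < 1 ∧ ∀ n : ℕ, Kl i * (α i * β i * D.μ) ^ n ≤ Kl i * ρ ^ n := by
    intro i
    rcases H.bunch i with h | h
    · exact ⟨0, le_rfl, one_pos, fun n => by rw [h, zero_mul, zero_mul]⟩
    · exact ⟨α i * β i * D.μ, mul_nonneg (mul_nonneg (H.α_nonneg i) (H.β_nonneg i)) D.μ_nonneg,
        h, fun n => le_rfl⟩
  choose ρ hρ0 hρ1 hρ using hρ
  set L : Fin k → ℝ := fun i => 1 + (2 * c * q ^ 3 * α i * Kl i) / (1 - ρ i) with hL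
  have hL0 : ∀ i, 0 ≤ L i := by
    intro i
    have h1 : 0 < 1 - ρ i := by linarith [hρ1 i]
    have h2 := H.q_nonneg
    have h3 := H.α_nonneg i
    have h4 := H.Kl_nonneg i
    have : 0 ≤ (2 * c * q ^ 3 * α i * Kl i) / (1 - ρ i) := by positivity
    simp only [hL]
    linarith
  refine ⟨∑ i, L i, fun x i z' z hzz => ?_⟩
  -- notation
  set x' := x + D.j v with hx'
  set h := D.S v x with hh
  set zn : ℕ → ∀ i, N i := fun n => D.G n x z with hzn
  set zn' : ℕ → ∀ i, N i := fun n => D.G n x z' with hzn'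
  set wn : ℕ → ∀ i, N i := fun n => D.G n x' (h z) with hwn
  set un : ℕ → N i := fun n => (zn n i)⁻¹ * zn' n i with hun
  set yn : ℕ → ∀ i, N i := fun n => Function.update (wn n) i (wn n i * un n) with hyn
  set P : ℕ → ∀ i, N i := fun n => (D.G n x').symm (yn n) with hP
  have hyi : ∀ n, yn n i = wn n i * un n := fun n => Function.update_self ..
  have hyA : ∀ n, Agree i (yn n) (wn n) := by
    intro n j hj
    exact Function.update_of_ne (ne_of_lt hj) ..
  have hGP : ∀ n, D.G n x' (P n) = yn n := fun n => Homeomorph.apply_symm_apply _ _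
  have hPA : ∀ n, Agree i (P n) (h z) := by
    intro n
    apply H.G_tri' i n x'
    rw [hGP]
    exact hyA n
  have hznA : ∀ n, Agree i (zn' n) (zn n) := fun n => H.G_tri i n x hzz
  have hhA : Agree i (h z') (h z) := H.S_tri i v x hzz
  have hu0 : dist (zn 0 i) (zn' 0 i) = dist (z' i) (z i) := by
    simp only [hzn, hzn', D.G_zero]
    exact dist_comm _ _
  have hun_up : ∀ n, dist (zn n i) (zn' n i) ≤ q * β i ^ n * dist (z' i) (z i) := by
    intro n
    rw [dist_comm]
    exact H.up i n x z' z hzz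
  have hμ := D.μ_nonneg
  have hq := H.q_nonneg
  have hα := H.α_nonneg i
  have hβ := H.β_nonneg i
  have hK := H.Kl_nonneg i
  -- (b)
  have hb : ∀ n, dist (P n i) (P (n + 1) i)
      ≤ (2 * c * q ^ 3 * α i * Kl i * dist (z' i) (z i)) * ρ i ^ n := by
    intro n
    have hPP : Agree i (P n) (P (n + 1)) := fun j hj => by rw [hPA n j hj, hPA (n + 1) j hj]
    have h1 := H.low i n x' (P n) (P (n + 1)) hPP
    rw [hGP] at h1
    set y' := D.G n x' (P (n + 1)) with hy'
    have hgy : D.g (D.A^[n] x') y' = yn (n + 1) := by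
      rw [hy', ← D.G_succ, hGP]
    have hyA' : Agree i (yn n) y' := by
      have h2 : Agree i (D.G n x' (P n)) y' := H.G_tri i n x' hPP
      rwa [hGP] at h2
    have hG1 : ∀ (b : B) (y : ∀ i, N i), D.G 1 b y = D.g b y := by
      intro b y
      rw [D.G_succ, D.G_zero]
      rfl
    have h2 := H.low i 1 (D.A^[n] x') (yn n) y' hyA'
    rw [hG1, hG1, hgy, pow_one] at h2
    -- second difference
    have h3 := H.sd i (D.A^[n] x) (D.A^[n] x') (zn n) (zn' n) (wn n) (yn n) (hznA n) (hyA n)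
      (by rw [hyi, inv_mul_cancel_left])
    have e1 : D.g (D.A^[n] x) (zn n) i = zn (n + 1) i := by
      simp only [hzn, D.G_succ]
    have e2 : D.g (D.A^[n] x) (zn' n) i = zn' (n + 1) i := by
      simp only [hzn', D.G_succ]
    have e3 : D.g (D.A^[n] x') (wn n) i = wn (n + 1) i := by
      simp only [hwn, D.G_succ]
    rw [e1, e2, e3] at h3
    have h4 : dist (D.g (D.A^[n] x') (yn n) i) (yn (n + 1) i)
        ≤ Kl i * (2 * c * D.μ ^ n) * (q * β i ^ n * dist (z' i) (z i)) := by
      have e4 : dist (D.g (D.A^[n] x') (yn n) i) (yn (n + 1) i)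
          = dist (un (n + 1)) ((wn (n + 1) i)⁻¹ * D.g (D.A^[n] x') (yn n) i) := by
        rw [hyi (n + 1), dist_comm,
          ← dist_mul_left ((wn (n + 1) i)⁻¹) (wn (n + 1) i * un (n + 1)), inv_mul_cancel_left]
      rw [e4]
      refine h3.trans ?_
      have h5 := (hc x z n).1
      have h6 := (hc x z n).2
      refine mul_le_mul ?_ (hun_up n) dist_nonneg (by positivity)
      refine mul_le_mul_of_nonneg_left ?_ hK
      calc dist (D.A^[n] x) (D.A^[n] x') + dist (zn n) (wn n)
          ≤ c * D.μ ^ n + c * D.μ ^ n := add_le_add h5 h6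
        _ = _ := by ring
    calc dist (P n i) (P (n + 1) i) ≤ q * α i ^ n * dist (yn n i) (y' i) := h1
      _ ≤ q * α i ^ n * (q * α i * dist (D.g (D.A^[n] x') (yn n) i) (yn (n + 1) i)) :=
          mul_le_mul_of_nonneg_left h2 (by positivity)
      _ ≤ q * α i ^ n * (q * α i * (Kl i * (2 * c * D.μ ^ n) *
            (q * β i ^ n * dist (z' i) (z i)))) :=
          mul_le_mul_of_nonneg_left (mul_le_mul_of_nonneg_left h4 (by positivity)) (by positivity)
      _ = (2 * c * q ^ 3 * α i * dist (z' i) (z i)) * (Kl i * (α i * β i * D.μ) ^ n) := by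
          rw [mul_pow, mul_pow]; ring
      _ ≤ (2 * c * q ^ 3 * α i * dist (z' i) (z i)) * (Kl i * ρ i ^ n) :=
          mul_le_mul_of_nonneg_left (hρ i n) (by positivity)
      _ = _ := by ring
  -- (c)
  have hlim : Tendsto (fun n => P n i) atTop (𝓝 (h z' i)) := by
    rw [tendsto_iff_dist_tendsto_zero]
    have h0 : Tendsto (fun n : ℕ => (q * (2 * c)) * (α i * D.μ) ^ n) atTop (𝓝 0) := by
      have := (tendsto_pow_atTop_nhds_zero_of_lt_one (mul_nonneg hα hμ) (H.dom i)).const_mul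
        (q * (2 * c))
      simpa using this
    refine squeeze_zero (fun n => dist_nonneg) (fun n => ?_) h0
    have h1 := H.low i n x' (P n) (h z') (fun j hj => by rw [hPA n j hj, hhA j hj])
    rw [hGP, hyi] at h1
    have h2 : dist (wn n i * un n) (D.G n x' (h z') i) ≤ 2 * c * D.μ ^ n := by
      have h3 : dist (wn n i * un n) (zn' n i) ≤ c * D.μ ^ n := by
        have e : wn n i * un n = wn n i * (zn n i)⁻¹ * zn' n i := by
          simp only [hun, mul_assoc]
        have e' : zn' n i = zn n i * (zn n i)⁻¹ * zn' n i := by simp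
        rw [e]
        nth_rewrite 2 [e']
        rw [dist_mul_right, dist_mul_right, dist_comm]
        exact (dist_le_pi_dist _ _ i).trans (hc x z n).2
      have h4 : dist (zn' n i) (D.G n x' (h z') i) ≤ c * D.μ ^ n :=
        (dist_le_pi_dist _ _ i).trans (hc x z' n).2
      calc _ ≤ _ := dist_triangle _ (zn' n i) _
        _ ≤ c * D.μ ^ n + c * D.μ ^ n := add_le_add h3 h4
        _ = _ := by ring
    calc dist (P n i) (h z' i) ≤ q * α i ^ n * dist (wn n i * un n) (D.G n x' (h z') i) := h1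
      _ ≤ q * α i ^ n * (2 * c * D.μ ^ n) := mul_le_mul_of_nonneg_left h2 (by positivity)
      _ = _ := by rw [mul_pow]; ring
  have hfin : dist (P 0 i) (h z' i)
      ≤ (2 * c * q ^ 3 * α i * Kl i * dist (z' i) (z i)) / (1 - ρ i) :=
    dist_le_of_le_geometric_of_tendsto₀ (ρ i) _ (hρ1 i) hb hlim
  have hP0 : dist (h z i) (P 0 i) = dist (z' i) (z i) := by
    have e1 : P 0 = yn 0 := by
      have := hGP 0
      rwa [D.G_zero] at this
    rw [e1, hyi]
    have e2 : wn 0 i = h z i := by simp only [hwn, D.G_zero]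
    rw [e2]
    nth_rewrite 1 [← mul_one (h z i)]
    rw [dist_mul_left]
    have e3 : un 0 = (z i)⁻¹ * z' i := by simp only [hun, hzn, hzn', D.G_zero]
    rw [e3, ← dist_mul_left (z i), mul_one, mul_inv_cancel_left, dist_comm]
  have hLi : dist (h z' i) (h z i) ≤ L i * dist (z' i) (z i) := by
    calc dist (h z' i) (h z i) ≤ dist (h z' i) (P 0 i) + dist (P 0 i) (h z i) :=
          dist_triangle _ _ _
      _ ≤ (2 * c * q ^ 3 * α i * Kl i * dist (z' i) (z i)) / (1 - ρ i) + dist (z' i) (z i) := by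
          refine add_le_add ?_ ?_
          · rw [dist_comm]; exact hfin
          · rw [dist_comm, hP0]
      _ = _ := by
          simp only [hL]
          ring
  refine hLi.trans ?_
  refine mul_le_mul_of_nonneg_right ?_ dist_nonneg
  exact Finset.single_le_sum (fun i _ => hL0 i) (Finset.mem_univ i)

/-- the holonomies are Lipschitz level by level -/
theorem S_low (v : W) (x : B) : LowLip (D.S v x) := by
  obtain ⟨L, hL⟩ := H.S_up (-v)
  intro z
  refine ⟨L, fun i w hw => ?_⟩
  have h1 := hL (x + D.j v) i (D.S v x w) (D.S v x z) (H.S_tri i v x hw)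
  rw [D.S_neg_apply, D.S_neg_apply] at h1
  exact h1

end LevHyp

end

end Pool.Agent.SKP
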