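import Pool.Agent.Work.MP_adbfe6_an.SK.Cor
import Pool.Agent.Work.MP_adbfe6_an.SK.Defs

/-!
Concrete data: skew products over hyperbolic automorphisms of the torus.
-/

set_option autoImplicit false
set_option linter.unusedSectionVars false
set_option linter.style.haveILetI false

open Filter Topology MeasureTheory
open scoped ENNReal NNReal

namespace Pool.Agent.SKP

section matAct

variable {G : Type} [AddCommGroup G] {d : ℕ} (M M' : Matrix (Fin d) (Fin d) ℤ)

theorem matAct_add (x y : Fin d → G) : matAct M (x + y) = matAct M x + matAct M y := by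
  funext i
  simp only [matAct, Pi.add_apply, smul_add, Finset.sum_add_distrib]

theorem matAct_one (x : Fin d → G) : matAct (1 : Matrix (Fin d) (Fin d) ℤ) x = x := by
  funext i
  simp only [matAct, Matrix.one_apply, ite_smul, one_smul, zero_smul, Finset.sum_ite_eq,
    Finset.mem_univ, if_true]

theorem matAct_mul (x : Fin d → G) : matAct (M * M') x = matAct M (matAct M' x) := by
  funext i
  simp only [matAct, Matrix.mul_apply, Finset.sum_smul, Finset.smul_sum, mul_smul]
  rw [Finset.sum_comm]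

/-- the action as an additive map -/
def matHom : (Fin d → G) →+ (Fin d → G) where
  toFun := matAct M
  map_zero' := by funext i; simp [matAct]
  map_add' := matAct_add M

@[simp] theorem matHom_apply (x : Fin d → G) : matHom M x = matAct M x := rfl

theorem matAct_cont [TopologicalSpace G] [IsTopologicalAddGroup G] :
    Continuous (matAct M : (Fin d → G) → (Fin d → G)) := by
  refine continuous_pi (fun i => ?_)
  exact continuous_finsetSum _ (fun j _ => (continuous_apply j).zsmul (M i j))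

end matAct

/-- the sum of the absolute values of the entries -/
def mNorm {d : ℕ} (M : Matrix (Fin d) (Fin d) ℤ) : ℝ := ∑ i, ∑ j, ‖M i j‖

theorem mNorm_nonneg {d : ℕ} (M : Matrix (Fin d) (Fin d) ℤ) : 0 ≤ mNorm M :=
  Finset.sum_nonneg (fun _ _ => Finset.sum_nonneg (fun _ _ => norm_nonneg _))

theorem norm_matAct_le {G : Type} [SeminormedAddCommGroup G] {d : ℕ}
    (M : Matrix (Fin d) (Fin d) ℤ) (x : Fin d → G) : ‖matAct M x‖ ≤ mNorm M * ‖x‖ := by
  rw [pi_norm_le_iff_of_nonneg (mul_nonneg (mNorm_nonneg M) (norm_nonneg _))]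
  intro i
  calc ‖matAct M x i‖ ≤ ∑ j, ‖M i j • x j‖ := norm_sum_le _ _
    _ ≤ ∑ j, ‖M i j‖ * ‖x‖ := Finset.sum_le_sum (fun j _ =>
        (norm_zsmul_le _ _).trans
          (mul_le_mul_of_nonneg_left (norm_le_pi_norm x j) (norm_nonneg _)))
    _ = (∑ j, ‖M i j‖) * ‖x‖ := by rw [Finset.sum_mul]
    _ ≤ mNorm M * ‖x‖ := by
        refine mul_le_mul_of_nonneg_right ?_ (norm_nonneg _)
        exact Finset.single_le_sum (f := fun i => ∑ j, ‖M i j‖)
          (fun i _ => Finset.sum_nonneg (fun _ _ => norm_nonneg _)) (Finset.mem_univ i)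

/-- the projection as an additive map -/
def projHom (d : ℕ) : (Fin d → ℝ) →+ Tor d where
  toFun := proj
  map_zero' := rfl
  map_add' := fun _ _ => rfl

theorem norm_proj_le {d : ℕ} (v : Fin d → ℝ) : ‖proj v‖ ≤ ‖v‖ := by
  rw [pi_norm_le_iff_of_nonneg (norm_nonneg _)]
  intro i
  calc ‖proj v i‖ ≤ ‖v i‖ := QuotientAddGroup.norm_mk_le_norm
    _ ≤ ‖v‖ := norm_le_pi_norm v i

theorem proj_surj {d : ℕ} (x : Tor d) : ∃ v : Fin d → ℝ, proj v = x := by
  choose v hv using fun i => QuotientAddGroup.mk_surjective (x i)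
  exact ⟨v, funext hv⟩

theorem proj_matAct {d : ℕ} (M : Matrix (Fin d) (Fin d) ℤ) (v : Fin d → ℝ) :
    proj (matAct M v) = matAct M (proj v) := by
  funext i
  show ((∑ j, M i j • v j : ℝ) : UnitAddCircle) = ∑ j, M i j • ((v j : ℝ) : UnitAddCircle)
  have h : ∀ (s : Finset (Fin d)), ((∑ j ∈ s, M i j • v j : ℝ) : UnitAddCircle)
      = ∑ j ∈ s, M i j • ((v j : ℝ) : UnitAddCircle) := by
    intro s
    have h1 := map_sum (QuotientAddGroup.mk' (AddSubgroup.zmultiples (1 : ℝ)))
      (fun j => M i j • v j) s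
    have h2 : ∀ j, QuotientAddGroup.mk' (AddSubgroup.zmultiples (1 : ℝ)) (M i j • v j)
        = M i j • ((v j : ℝ) : UnitAddCircle) := fun j =>
      map_zsmul (QuotientAddGroup.mk' (AddSubgroup.zmultiples (1 : ℝ))) (M i j) (v j)
    calc ((∑ j ∈ s, M i j • v j : ℝ) : UnitAddCircle)
        = QuotientAddGroup.mk' (AddSubgroup.zmultiples (1 : ℝ)) (∑ j ∈ s, M i j • v j) := rfl
      _ = ∑ j ∈ s, QuotientAddGroup.mk' (AddSubgroup.zmultiples (1 : ℝ)) (M i j • v j) := h1
      _ = _ := Finset.sum_congr rfl (fun j _ => h2 j)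
  exact h _

instance : IsProbabilityMeasure (volume : Measure UnitAddCircle) := ⟨UnitAddCircle.measure_univ⟩

instance (d : ℕ) : IsProbabilityMeasure (volume : Measure (Tor d)) := by
  show IsProbabilityMeasure (Measure.pi (fun _ : Fin d => (volume : Measure UnitAddCircle)))
  infer_instance

theorem matAct_mp {d : ℕ} {M Mi : Matrix (Fin d) (Fin d) ℤ} (h : M * Mi = 1) :
    MeasurePreserving (matAct M : Tor d → Tor d) volume volume := by
  have := AddMonoidHom.measurePreserving (μ := (volume : Measure (Tor d)))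
    (ν := (volume : Measure (Tor d))) (f := matHom M) (matAct_cont M) ?_ rfl
  · exact this
  · intro x
    refine ⟨matAct Mi x, ?_⟩
    rw [matHom_apply, ← matAct_mul, h, matAct_one]

namespace HypAut

variable {d : ℕ} (A : HypAut d)

theorem inv_mul : A.Mi * A.M = 1 := mul_eq_one_comm.1 A.mul_inv

theorem MMi {G : Type} [AddCommGroup G] (x : Fin d → G) : matAct A.M (matAct A.Mi x) = x := by
  rw [← matAct_mul, A.mul_inv, matAct_one]

theorem MiM {G : Type} [AddCommGroup G] (x : Fin d → G) : matAct A.Mi (matAct A.M x) = x := by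
  rw [← matAct_mul, A.inv_mul, matAct_one]

theorem Eu_inv' (v : Fin d → ℝ) (hv : v ∈ A.Eu) : matAct A.Mi v ∈ A.Eu := by
  rw [← A.Eu_inv, A.MMi]; exact hv

/-- `M` on `Es` -/
def Ls : ↥A.Es →+ ↥A.Es where
  toFun := fun v => ⟨matAct A.M v.1, (A.Es_inv v.1).2 v.2⟩
  map_zero' := Subtype.ext ((matHom A.M).map_zero)
  map_add' := fun v w => Subtype.ext (matAct_add A.M v.1 w.1)

/-- `M⁻¹` on `Eu` -/
def Liu : ↥A.Eu →+ ↥A.Eu where
  toFun := fun v => ⟨matAct A.Mi v.1, A.Eu_inv' v.1 v.2⟩
  map_zero' := Subtype.ext ((matHom A.Mi).map_zero)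
  map_add' := fun v w => Subtype.ext (matAct_add A.Mi v.1 w.1)

/-- `M` on `Eu` -/
def Lu : ↥A.Eu →+ ↥A.Eu where
  toFun := fun v => ⟨matAct A.M v.1, (A.Eu_inv v.1).2 v.2⟩
  map_zero' := Subtype.ext ((matHom A.M).map_zero)
  map_add' := fun v w => Subtype.ext (matAct_add A.M v.1 w.1)

theorem Ls_iter (n : ℕ) (v : ↥A.Es) : ((A.Ls^[n] v : ↥A.Es) : Fin d → ℝ)
    = (matAct A.M)^[n] (v : Fin d → ℝ) := by
  induction n with
  | zero => rfl
  | succ n ih =>
    rw [Function.iterate_succ_apply', Function.iterate_succ_apply', ← ih]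
    rfl

theorem Liu_iter (n : ℕ) (v : ↥A.Eu) : ((A.Liu^[n] v : ↥A.Eu) : Fin d → ℝ)
    = (matAct A.Mi)^[n] (v : Fin d → ℝ) := by
  induction n with
  | zero => rfl
  | succ n ih =>
    rw [Function.iterate_succ_apply', Function.iterate_succ_apply', ← ih]
    rfl

/-- inclusion of a subspace followed by the projection to the torus -/
def incl (E : Submodule ℝ (Fin d → ℝ)) : ↥E →+ Tor d where
  toFun := fun v => proj v.1
  map_zero' := rfl
  map_add' := fun _ _ => rfl

end HypAut

namespace Fibres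

variable {d : ℕ} {A : HypAut d} {N : Type} [MetricSpace N] [CompactSpace N] (D : Fibres A N)

theorem skew_iter (n : ℕ) (x : Tor d) (z : N) :
    (skew A.M D.g)^[n] (x, z) = ((matAct A.M)^[n] x, Gi (matAct A.M) D.g n x z) := by
  induction n with
  | zero => rfl
  | succ n ih =>
    rw [Function.iterate_succ_apply', ih, Function.iterate_succ_apply']
    rfl

theorem iter_dist (n : ℕ) (x : Tor d) (z z' : N) :
    dist ((skew A.M D.g)^[n] (x, z)) ((skew A.M D.g)^[n] (x, z'))
      = dist (Gi (matAct A.M) D.g n x z) (Gi (matAct A.M) D.g n x z') := by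
  rw [D.skew_iter, D.skew_iter, Prod.dist_eq, dist_self, max_eq_right dist_nonneg]

/-- the fibre maps of the inverse -/
def gi (x : Tor d) : N ≃ₜ N := (D.g (matAct A.Mi x)).symm

theorem Gi_inv (n : ℕ) (x : Tor d) (z : N) :
    (Gi (matAct A.Mi) D.gi n x).symm z
      = Gi (matAct A.M) D.g n ((matAct A.Mi)^[n] x) z := by
  have key : ∀ (n : ℕ) (x : Tor d) (z : N), Gi (matAct A.M) D.g (n + 1) x z
      = Gi (matAct A.M) D.g n (matAct A.M x) (D.g x z) := by
    intro n
    induction n with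
    | zero => intro x z; rfl
    | succ n ih =>
      intro x z
      have h1 : Gi (matAct A.M) D.g (n + 1 + 1) x z
          = D.g ((matAct A.M)^[n + 1] x) (Gi (matAct A.M) D.g (n + 1) x z) := rfl
      rw [h1, ih]
      rfl
  induction n generalizing x z with
  | zero => rfl
  | succ n ih =>
    have h1 : (Gi (matAct A.Mi) D.gi (n + 1) x).symm z
        = (Gi (matAct A.Mi) D.gi n x).symm
          (D.g (matAct A.Mi ((matAct A.Mi)^[n] x)) z) := rfl
    rw [h1, ih, key, Function.iterate_succ_apply', A.MMi]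

/-- stable side -/
noncomputable def sideS : Side (Tor d) ↥A.Es N where
  A := matHom A.M
  A_cont := matAct_cont A.M
  j := HypAut.incl A.Es
  j_le := fun v => norm_proj_le v.1
  L := A.Ls
  L_j := fun v => proj_matAct A.M v.1
  C := A.c
  μ := A.a
  μ_nonneg := A.a_nonneg
  μ_lt := A.a_lt
  contr := by
    intro n v
    show ‖((A.Ls^[n] v : ↥A.Es) : Fin d → ℝ)‖ ≤ A.c * A.a ^ n * ‖(v : Fin d → ℝ)‖
    rw [A.Ls_iter]
    exact A.contr_s n v.1 v.2
  g := D.g
  K := D.K
  K_nonneg := D.K_nonneg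
  g_base := by
    intro x y z
    rw [← dist_eq_norm]
    exact D.g_lip x y z
  κ := D.κs
  κ_nonneg := D.κs_nonneg
  Q := D.Q
  Q_nonneg := D.Q_nonneg
  G_symm := by
    intro n x z z'
    have h := D.lower n x ((Gi (matAct A.M) D.g n x).symm z) ((Gi (matAct A.M) D.g n x).symm z')
    rw [D.iter_dist, Homeomorph.apply_symm_apply, Homeomorph.apply_symm_apply] at h
    exact h
  dom := D.dom_s

theorem g_symm_lip (x : Tor d) (z z' : N) :
    dist ((D.g x).symm z) ((D.g x).symm z') ≤ D.Q * D.κs * dist z z' := by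
  have h := D.lower 1 x ((D.g x).symm z) ((D.g x).symm z')
  rw [D.iter_dist] at h
  have e : ∀ w, Gi (matAct A.M) D.g 1 x w = D.g x w := fun w => rfl
  rw [e, e, Homeomorph.apply_symm_apply, Homeomorph.apply_symm_apply, pow_one] at h
  exact h

/-- unstable side -/
noncomputable def sideU : Side (Tor d) ↥A.Eu N where
  A := matHom A.Mi
  A_cont := matAct_cont A.Mi
  j := HypAut.incl A.Eu
  j_le := fun v => norm_proj_le v.1
  L := A.Liu
  L_j := fun v => proj_matAct A.Mi v.1
  C := A.c
  μ := A.b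
  μ_nonneg := A.b_nonneg
  μ_lt := A.b_lt
  contr := by
    intro n v
    show ‖((A.Liu^[n] v : ↥A.Eu) : Fin d → ℝ)‖ ≤ A.c * A.b ^ n * ‖(v : Fin d → ℝ)‖
    rw [A.Liu_iter]
    exact A.contr_u n v.1 v.2
  g := D.gi
  K := D.Q * D.κs * (D.K * mNorm A.Mi)
  K_nonneg := mul_nonneg (mul_nonneg D.Q_nonneg D.κs_nonneg)
    (mul_nonneg D.K_nonneg (mNorm_nonneg _))
  g_base := by
    intro x y z
    set x' := matAct A.Mi x
    set y' := matAct A.Mi y
    have h1 : dist ((D.g x').symm z) ((D.g y').symm z)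
        ≤ D.Q * D.κs * (D.K * dist x' y') := by
      calc dist ((D.g x').symm z) ((D.g y').symm z)
          = dist ((D.g x').symm z) ((D.g x').symm (D.g x' ((D.g y').symm z))) := by
            rw [Homeomorph.symm_apply_apply]
        _ ≤ D.Q * D.κs * dist z (D.g x' ((D.g y').symm z)) := D.g_symm_lip _ _ _
        _ = D.Q * D.κs * dist (D.g y' ((D.g y').symm z)) (D.g x' ((D.g y').symm z)) := by
            rw [Homeomorph.apply_symm_apply]
        _ ≤ D.Q * D.κs * (D.K * dist y' x') :=
            mul_le_mul_of_nonneg_left (D.g_lip _ _ _) (mul_nonneg D.Q_nonneg D.κs_nonneg)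
        _ = _ := by rw [dist_comm y' x']
    have h2 : dist x' y' ≤ mNorm A.Mi * ‖x - y‖ := by
      rw [dist_eq_norm]
      have h3 : x' - y' = matAct A.Mi (x - y) := ((matHom A.Mi).map_sub x y).symm
      rw [h3]
      exact norm_matAct_le _ _
    refine h1.trans ?_
    rw [mul_assoc (D.Q * D.κs), mul_assoc D.K]
    exact mul_le_mul_of_nonneg_left (mul_le_mul_of_nonneg_left h2 D.K_nonneg)
      (mul_nonneg D.Q_nonneg D.κs_nonneg)
  κ := D.κu
  κ_nonneg := D.κu_nonneg
  Q := D.Q
  Q_nonneg := D.Q_nonneg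
  G_symm := by
    intro n x z z'
    have h1 := D.Gi_inv n x z
    have h2 := D.Gi_inv n x z'
    have h := D.upper n ((matAct A.Mi)^[n] x) z z'
    rw [D.iter_dist, ← h1, ← h2] at h
    exact h
  dom := D.dom_u

/-- two-sided data -/
noncomputable def two : Two (Tor d) ↥A.Es ↥A.Eu N where
  s := D.sideS
  u := D.sideU
  su_A := fun x => A.MMi x
  us_A := fun x => A.MiM x
  us_g := by
    intro x z
    show (D.g (matAct A.Mi (matAct A.M x))).symm (D.g x z) = z
    rw [A.MiM, Homeomorph.symm_apply_apply]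
  surj := by
    intro x
    obtain ⟨v, rfl⟩ := proj_surj x
    have hv : v ∈ A.Es ⊔ A.Eu := by rw [A.sup]; exact Submodule.mem_top
    obtain ⟨s, hs, u, hu, rfl⟩ := Submodule.mem_sup.1 hv
    exact ⟨⟨s, hs⟩, ⟨u, hu⟩, rfl⟩
  Ls_cont := by
    refine Continuous.subtype_mk ?_ _
    exact (matAct_cont A.M).comp continuous_subtype_val
  Lu := A.Lu
  Lu_cont := by
    refine Continuous.subtype_mk ?_ _
    exact (matAct_cont A.M).comp continuous_subtype_val
  Lu_j := fun v => proj_matAct A.M v.1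

theorem two_F : D.two.s.F = skew A.M D.g := rfl

theorem two_Fi : D.two.u.F = skewInv A.Mi D.g := rfl

end Fibres

end Pool.Agent.SKP
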