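import Pool.Agent.Work.MP_adbfe6_an.SK.SD

/-!
Essential accessibility implies ergodicity when the holonomies are Lipschitz level by level.
-/

set_option autoImplicit false
set_option linter.unusedSectionVars false
set_option linter.style.haveILetI false

open Filter Topology MeasureTheory
open scoped ENNReal NNReal

namespace Pool.Agent.SKP

section lev

variable {k : ℕ} {N : Fin k → Type} [∀ i, MetricSpace (N i)]

/-- Lipschitz level by level, together with the inverse -/
def LevH (h : (∀ i, N i) ≃ₜ (∀ i, N i)) : Prop := LowLip h ∧ LowLip h.symm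

theorem LowLip.comp {h h' : (∀ i, N i) ≃ₜ (∀ i, N i)} (hh : LevH h) (hh' : LowLip h') :
    LowLip (h.trans h') := by
  intro z
  obtain ⟨L, hL⟩ := hh.1 z
  obtain ⟨L', hL'⟩ := hh' (h z)
  obtain ⟨M, hM⟩ := hh.2 (h z)
  refine ⟨max L 0 * L', fun i w hw => ?_⟩
  have h1 := hL i w hw
  have hA : ∀ j < i, h w j = h z j := by
    refine agree_below (h := h.symm) hM (fun j hj => ?_)
    rw [Homeomorph.symm_apply_apply, Homeomorph.symm_apply_apply]
    exact hw j hj
  have h2 := hL' i (h w) hA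
  calc dist (w i) (z i) ≤ L * dist (h w i) (h z i) := h1
    _ ≤ max L 0 * dist (h w i) (h z i) :=
        mul_le_mul_of_nonneg_right (le_max_left _ _) dist_nonneg
    _ ≤ max L 0 * (L' * dist (h' (h w) i) (h' (h z) i)) :=
        mul_le_mul_of_nonneg_left h2 (le_max_right _ _)
    _ = _ := by rw [mul_assoc]; rfl

theorem LevH.trans {h h' : (∀ i, N i) ≃ₜ (∀ i, N i)} (hh : LevH h) (hh' : LevH h') :
    LevH (h.trans h') := by
  refine ⟨LowLip.comp hh hh'.1, ?_⟩
  have : (h.trans h').symm = h'.symm.trans h.symm := rfl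
  rw [this]
  refine LowLip.comp (h := h'.symm) ⟨hh'.2, ?_⟩ hh.2
  have : h'.symm.symm = h' := rfl
  rw [this]
  exact hh'.1

theorem LevH.refl : LevH (Homeomorph.refl (∀ i, N i)) := by
  constructor
  · intro z
    exact ⟨1, fun i w _ => by rw [one_mul]; rfl⟩
  · intro z
    exact ⟨1, fun i w _ => by rw [one_mul]; rfl⟩

end lev

namespace Two

variable {B Ws Wu : Type} [NormedAddCommGroup B] [CompactSpace B]
  [NormedAddCommGroup Ws] [NormedAddCommGroup Wu]
  {k : ℕ} {N : Fin k → Type} [∀ i, MetricSpace (N i)] [∀ i, CompactSpace (N i)]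
  (D : Two B Ws Wu (∀ i, N i))

theorem hol_lev (hs : ∀ v x, LowLip (D.s.S v x)) (hu : ∀ w x, LowLip (D.u.S w x))
    (l : List (Mv Ws Wu)) (hl : ∀ a ∈ l, a.leaf) (x : B) :
    ∃ h : (∀ i, N i) ≃ₜ (∀ i, N i), LevH h ∧ ∀ z, h z = D.hol l x z := by
  induction l generalizing x with
  | nil => exact ⟨_, LevH.refl, fun z => rfl⟩
  | cons a l ih =>
    obtain ⟨h, hh, hz⟩ := ih (fun b hb => hl b (List.mem_cons_of_mem a hb)) (D.bact a x)
    have ha := hl a (List.mem_cons_self ..)
    have h1 : ∃ h' : (∀ i, N i) ≃ₜ (∀ i, N i), LevH h' ∧ ∀ z, h' z = D.fact a x z := by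
      cases a with
      | s v => exact ⟨D.s.Sh v x, ⟨hs v x, hs (-v) (x + D.s.j v)⟩, fun z => rfl⟩
      | u w => exact ⟨D.u.Sh w x, ⟨hu w x, hu (-w) (x + D.u.j w)⟩, fun z => rfl⟩
      | f => exact ha.elim
    obtain ⟨h', hh', hz'⟩ := h1
    refine ⟨h'.trans h, hh'.trans hh, fun z => ?_⟩
    show h (h' z) = D.hol l (D.bact a x) (D.fact a x z)
    rw [hz, hz']

variable [MeasurableSpace B] [BorelSpace B] [∀ i, MeasurableSpace (N i)] [∀ i, BorelSpace (N i)]
  [NormedSpace ℝ Ws] [NormedSpace ℝ Wu] [FiniteDimensional ℝ Ws] [FiniteDimensional ℝ Wu]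
  [MeasurableSpace Ws] [BorelSpace Ws] [MeasurableSpace Wu] [BorelSpace Wu]
  (ν : ∀ i, Measure (N i)) [∀ i, IsProbabilityMeasure (ν i)] [∀ i, (ν i).IsOpenPosMeasure]
  {lam : Measure B} [IsProbabilityMeasure lam] [lam.IsAddLeftInvariant]

theorem mix_of_levels (hν : ∀ i, UnifDoubling (ν i))
    (hg : ∀ x, MeasurePreserving (D.s.g x) (Measure.pi ν) (Measure.pi ν))
    (hA : MeasurePreserving D.s.A lam lam) (hL : Function.Surjective D.s.L)
    (hacc : D.EssAcc lam (Measure.pi ν))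
    (hs : ∀ v x, LowLip (D.s.S v x)) (hu : ∀ w x, LowLip (D.u.S w x)) :
    Mix D.s.F (lam.prod (Measure.pi ν)) := by
  haveI : ∀ i, IsUnifLocDoublingMeasure (ν i) := fun i => (hν i).inst
  refine D.mix_of_fibre hg hA hL 0 (D.trivial_of_regular hg hacc 0 (fun X hX h => ?_))
  refine ⟨Dn ν X, Dn_ae ν hX, ?_⟩
  intro l hl hlx z
  obtain ⟨h', hh', hz'⟩ := D.hol_lev hs hu l hl 0
  have hkf : (h' : (∀ i, N i) → (∀ i, N i)) = D.hol l 0 := funext hz'
  have hmp : MeasurePreserving h' (Measure.pi ν) (Measure.pi ν) := by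
    rw [hkf]; exact D.hol_mp hg l 0
  have hinv : h' ⁻¹' X =ᵐ[Measure.pi ν] X := by
    rw [hkf]; exact h l hl hlx
  have hmp' : MeasurePreserving h'.symm (Measure.pi ν) (Measure.pi ν) :=
    MeasurePreserving.symm h'.toMeasurableEquiv hmp
  have hinv' : h'.symm ⁻¹' X =ᵐ[Measure.pi ν] X := by
    have h1 := hmp'.quasiMeasurePreserving.preimage_ae_eq hinv
    have h2 : h'.symm ⁻¹' (h' ⁻¹' X) = X := by
      rw [← Set.preimage_comp]
      have : (h' ∘ h'.symm : (∀ i, N i) → (∀ i, N i)) = id :=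
        funext (fun z => h'.apply_symm_apply z)
      rw [this, Set.preimage_id]
    rw [h2] at h1
    exact h1.symm
  constructor
  · intro hz
    rw [← hz'] at hz
    have := Dn_map ν hν hX hh'.2 hmp' hinv' hz
    rwa [Homeomorph.symm_apply_apply] at this
  · intro hz
    rw [← hz']
    exact Dn_map ν hν hX hh'.1 hmp hinv hz

end Two

end Pool.Agent.SKP
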