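import Pool.Agent.Work.MP_adbfe6_an.SK.Moll

/-!
Two-sided data: skew products over a hyperbolic automorphism, and the reduction to one fibre.
-/

set_option autoImplicit false
set_option linter.unusedSectionVars false
set_option linter.style.haveILetI false

open Filter Topology MeasureTheory
open scoped ENNReal NNReal

namespace Pool.Agent.SKP

/-- elementary moves: along stable leaves, along unstable leaves, application of the map -/
inductive Mv (Ws Wu : Type) : Type
  | s : Ws → Mv Ws Wu
  | u : Wu → Mv Ws Wu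
  | f : Mv Ws Wu

/-- the move is inside a stable or an unstable leaf -/
def Mv.leaf {Ws Wu : Type} : Mv Ws Wu → Prop
  | Mv.s _ => True
  | Mv.u _ => True
  | Mv.f => False

/-- two-sided data -/
structure Two (B Ws Wu N : Type) [NormedAddCommGroup B] [CompactSpace B]
    [NormedAddCommGroup Ws] [NormedAddCommGroup Wu] [MetricSpace N] [CompactSpace N] where
  s : Side B Ws N
  u : Side B Wu N
  su_A : ∀ x, s.A (u.A x) = x
  us_A : ∀ x, u.A (s.A x) = x
  us_g : ∀ x z, u.g (s.A x) (s.g x z) = z
  surj : ∀ x, ∃ v w, s.j v + u.j w = x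
  Ls_cont : Continuous s.L
  Lu : Wu →+ Wu
  Lu_cont : Continuous Lu
  Lu_j : ∀ w, u.j (Lu w) = s.A (u.j w)

namespace Two

variable {B Ws Wu N : Type} [NormedAddCommGroup B] [CompactSpace B]
  [NormedAddCommGroup Ws] [NormedAddCommGroup Wu] [MetricSpace N] [CompactSpace N]
  (D : Two B Ws Wu N)

theorem us_F (p : B × N) : D.u.F (D.s.F p) = p := by
  unfold Side.F
  ext <;> simp [D.us_A, D.us_g]

theorem su_F (p : B × N) : D.s.F (D.u.F p) = p := by
  obtain ⟨x, z⟩ := p
  have h1 : D.s.A (D.u.A x) = x := D.su_A x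
  have h2 : ∀ z', D.u.g x (D.s.g (D.u.A x) z') = z' := by
    intro z'
    have := D.us_g (D.u.A x) z'
    rwa [h1] at this
  have h3 : D.s.g (D.u.A x) (D.u.g x z) = z := by
    apply (D.u.g x).injective
    rw [h2]
  unfold Side.F
  exact Prod.ext h1 h3

/-- the associated bundle family over `Ws × Wu` -/
noncomputable def bun : Bun (Ws × Wu) B N where
  π := D.s.j.coprod D.u.j
  π_cont := by
    have : (D.s.j.coprod D.u.j : Ws × Wu → B) = fun y => D.s.j y.1 + D.u.j y.2 := by
      funext y; simp [AddMonoidHom.coprod_apply]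
    rw [this]
    exact (D.s.j_cont.comp continuous_fst).add (D.u.j_cont.comp continuous_snd)
  π_surj := by
    intro x
    obtain ⟨v, w, h⟩ := D.surj x
    exact ⟨(v, w), by simpa [AddMonoidHom.coprod_apply] using h⟩
  Sg := fun y x z => D.u.S y.2 (x + D.s.j y.1) (D.s.S y.1 x z)
  Sgi := fun y x z => D.s.S (-y.1) (x + D.s.j y.1)
    (D.u.S (-y.2) (x + D.s.j y.1 + D.u.j y.2) z)
  Sg_cont := by
    have a1 : Continuous (fun q : (Ws × Wu) × B × N => q.1.1) :=
      continuous_fst.comp continuous_fst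
    have a2 : Continuous (fun q : (Ws × Wu) × B × N => q.1.2) :=
      continuous_snd.comp continuous_fst
    have a3 : Continuous (fun q : (Ws × Wu) × B × N => q.2.1 + D.s.j q.1.1) :=
      (continuous_fst.comp continuous_snd).add (D.s.j_cont.comp a1)
    have a4 : Continuous (fun q : (Ws × Wu) × B × N => D.s.S q.1.1 q.2.1 q.2.2) :=
      D.s.S_cont.comp (a1.prodMk continuous_snd)
    exact D.u.S_cont.comp (a2.prodMk (a3.prodMk a4))
  Sgi_cont := by
    have a1 : Continuous (fun q : (Ws × Wu) × B × N => q.1.1) :=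
      continuous_fst.comp continuous_fst
    have a2 : Continuous (fun q : (Ws × Wu) × B × N => q.1.2) :=
      continuous_snd.comp continuous_fst
    have a3 : Continuous (fun q : (Ws × Wu) × B × N => q.2.1 + D.s.j q.1.1) :=
      (continuous_fst.comp continuous_snd).add (D.s.j_cont.comp a1)
    have a4 : Continuous (fun q : (Ws × Wu) × B × N => q.2.1 + D.s.j q.1.1 + D.u.j q.1.2) :=
      a3.add (D.u.j_cont.comp a2)
    have a5 : Continuous (fun q : (Ws × Wu) × B × N => q.2.2) :=
      continuous_snd.comp continuous_snd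
    have a6 : Continuous (fun q : (Ws × Wu) × B × N =>
        D.u.S (-q.1.2) (q.2.1 + D.s.j q.1.1 + D.u.j q.1.2) q.2.2) :=
      D.u.S_cont.comp (a2.neg.prodMk (a4.prodMk a5))
    exact D.s.S_cont.comp (a1.neg.prodMk (a3.prodMk a6))
  left := by
    intro y x z
    rw [D.u.S_neg_apply, D.s.S_neg_apply]
  right := by
    intro y x z
    rw [D.s.S_apply_neg, D.u.S_apply_neg]

@[simp] theorem bun_π (y : Ws × Wu) : D.bun.π y = D.s.j y.1 + D.u.j y.2 := by
  simp [bun, AddMonoidHom.coprod_apply]

theorem bun_Sg (y : Ws × Wu) (x : B) (z : N) :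
    D.bun.Sg y x z = D.u.S y.2 (x + D.s.j y.1) (D.s.S y.1 x z) := rfl

/-- the moves -/
noncomputable def act : Mv Ws Wu → B × N → B × N
  | Mv.s v => D.s.T v
  | Mv.u w => D.u.T w
  | Mv.f => D.s.F

/-- the endpoint of a path -/
noncomputable def run : List (Mv Ws Wu) → B × N → B × N
  | [], p => p
  | a :: l, p => run l (D.act a p)

theorem run_append (l l' : List (Mv Ws Wu)) (p : B × N) :
    D.run (l ++ l') p = D.run l' (D.run l p) := by
  induction l generalizing p with
  | nil => rfl
  | cons a l ih => exact ih (D.act a p)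

/-- the base part of a move -/
noncomputable def bact : Mv Ws Wu → B → B
  | Mv.s v => fun x => x + D.s.j v
  | Mv.u w => fun x => x + D.u.j w
  | Mv.f => fun x => D.s.A x

/-- the fibre part of a move -/
noncomputable def fact : Mv Ws Wu → B → N → N
  | Mv.s v => fun x z => D.s.S v x z
  | Mv.u w => fun x z => D.u.S w x z
  | Mv.f => fun x z => D.s.g x z

theorem act_eq (a : Mv Ws Wu) (x : B) (z : N) : D.act a (x, z) = (D.bact a x, D.fact a x z) := by
  cases a <;> rfl

/-- the base part of a path -/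
noncomputable def brun : List (Mv Ws Wu) → B → B
  | [], x => x
  | a :: l, x => brun l (D.bact a x)

/-- the fibre part of a path: the holonomy -/
noncomputable def hol : List (Mv Ws Wu) → B → N → N
  | [], _, z => z
  | a :: l, x, z => hol l (D.bact a x) (D.fact a x z)

theorem run_eq (l : List (Mv Ws Wu)) (x : B) (z : N) :
    D.run l (x, z) = (D.brun l x, D.hol l x z) := by
  induction l generalizing x z with
  | nil => rfl
  | cons a l ih =>
    show D.run l (D.act a (x, z)) = _
    rw [D.act_eq, ih]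
    rfl

theorem brun_append (l l' : List (Mv Ws Wu)) (x : B) :
    D.brun (l ++ l') x = D.brun l' (D.brun l x) := by
  induction l generalizing x with
  | nil => rfl
  | cons a l ih => exact ih _

theorem hol_append (l l' : List (Mv Ws Wu)) (x : B) (z : N) :
    D.hol (l ++ l') x z = D.hol l' (D.brun l x) (D.hol l x z) := by
  induction l generalizing x z with
  | nil => rfl
  | cons a l ih => exact ih _ _

variable [MeasurableSpace B] [BorelSpace B] [MeasurableSpace N] [BorelSpace N]
  [NormedSpace ℝ Ws] [NormedSpace ℝ Wu] [FiniteDimensional ℝ Ws] [FiniteDimensional ℝ Wu]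
  {ν : Measure N} [IsProbabilityMeasure ν] {lam : Measure B} [IsProbabilityMeasure lam]
  [lam.IsAddLeftInvariant]

theorem u_g_mp (hg : ∀ x, MeasurePreserving (D.s.g x) ν ν) (x : B) :
    MeasurePreserving (D.u.g x) ν ν := by
  have h1 : (D.u.g x : N → N) = (D.s.g (D.u.A x)).symm := by
    funext z
    rw [eq_comm, Homeomorph.symm_apply_eq]
    have := D.su_F (x, z)
    exact (congrArg Prod.snd this).symm
  rw [h1]
  exact MeasurePreserving.symm (D.s.g (D.u.A x)).toMeasurableEquiv (hg _)

theorem u_A_mp (hA : MeasurePreserving D.s.A lam lam) : MeasurePreserving D.u.A lam lam := by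
  refine ⟨D.u.A_cont.measurable, ?_⟩
  conv_lhs => rw [← hA.map_eq]
  rw [Measure.map_map D.u.A_cont.measurable hA.measurable]
  have : (D.u.A ∘ D.s.A : B → B) = id := funext D.us_A
  rw [this, Measure.map_id]

section inv

variable (hg : ∀ x, MeasurePreserving (D.s.g x) ν ν) (hA : MeasurePreserving D.s.A lam lam)
  {E : B × N → ℝ} (hE : Measurable E) (hE0 : ∀ p, 0 ≤ E p) (hE1 : ∀ p, E p ≤ 1)
  (he : E ∘ D.s.F =ᵐ[lam.prod ν] E)

include hE hE0 hE1 in
theorem E_int : Integrable E (lam.prod ν) := by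
  refine Integrable.mono' (integrable_const (1 : ℝ)) hE.aestronglyMeasurable
    (Eventually.of_forall (fun p => ?_))
  rw [Real.norm_eq_abs, abs_of_nonneg (hE0 p)]
  exact hE1 p

include hg hA hE hE0 hE1 he

theorem E_s (v : Ws) : E ∘ D.s.T v =ᵐ[lam.prod ν] E :=
  D.s.inv_T_ae hg hA (E_int hE hE0 hE1) he v

theorem E_u (w : Wu) : E ∘ D.u.T w =ᵐ[lam.prod ν] E := by
  refine D.u.inv_T_ae (D.u_g_mp hg) (D.u_A_mp hA) (E_int hE hE0 hE1) ?_ w
  have h1 : MeasurePreserving D.u.F (lam.prod ν) (lam.prod ν) :=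
    D.u.F_mp (D.u_g_mp hg) (D.u_A_mp hA)
  have h2 := h1.quasiMeasurePreserving.ae_eq_comp he
  have h3 : (E ∘ D.s.F) ∘ D.u.F = E := by
    funext p
    simp only [Function.comp_apply, D.su_F]
  rw [h3] at h2
  exact h2.symm

end inv

theorem E_y (hg : ∀ x, MeasurePreserving (D.s.g x) ν ν) {E : B × N → ℝ}
    (hEs : ∀ v, E ∘ D.s.T v =ᵐ[lam.prod ν] E) (hEu : ∀ w, E ∘ D.u.T w =ᵐ[lam.prod ν] E)
    (y : Ws × Wu) : ∀ᵐ p ∂(lam.prod ν), E (p.1 + D.bun.π y, D.bun.Sg y p.1 p.2) = E p := by
  have h1 := hEs y.1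
  have h2 := hEu y.2
  have h3 := (D.s.T_mp (lam := lam) hg y.1).quasiMeasurePreserving.ae_eq_comp h2
  filter_upwards [h1, h3] with p hp1 hp3
  have h4 : D.u.T y.2 (D.s.T y.1 p) = (p.1 + D.bun.π y, D.bun.Sg y p.1 p.2) := by
    unfold Side.T
    rw [bun_π, bun_Sg, add_assoc]
  simp only [Function.comp_apply] at hp1 hp3
  rw [← h4, hp3, hp1]

end Two

end Pool.Agent.SKP
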